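import Pool.Agent.SID.CORD
import Pool.Agent.SK.APPSK

/-!
# SID: from the core inequality to zeta values (exceptional set `I`, vectors `v`)
-/

namespace Pool.Agent.SID

open Finset Pool.Agent.ZC Pool.Agent.SI Pool.Agent.SK

/-- the core inequality (general companions and extra vectors) -/
def CoreD : Prop :=
  ∃ C : ℝ, 0 < C ∧ ∀ (K : Type) [Field K] [NumberField K] (τ : K →+* ℝ) (g S k0 a s f0 : ℕ),
    1 ≤ g → 1 ≤ a → g ≤ a → S ≤ a →
    ∀ (J : Type) [Fintype J] (ψ : J → PowerSeries K) (σ : J → ℕ), (∀ j, σ j ≤ 1) →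
    (∀ j, PowerSeries.evalNegHom (ψ j) = PowerSeries.C ((-1 : K) ^ σ j) * ψ j) → ∀ z : ℕ → K,
    ∀ (J' : Type) [Fintype J'] (v : J' → ℝ) (c : ℕ → J' → K), (∀ i ≤ s, ∀ j, c i j = 0) →
    (g + 2) * (k0 + 2 + Fintype.card J) + f0 + 1 ≤ g * (a - k0) →
    g * (Fintype.card J' * (a + S - s)) + f0 + 1 ≤ (k0 + 1) * (S + 1) →
    ∀ J0 : Finset ℕ, (∀ e ∈ J0, e < a) → (∀ e ∈ J0, ∃ j, σ j = e % 2 ∧ ψ j = PowerSeries.X ^ e) →
    (∀ k ≤ k0, ∃ j, σ j = k % 2 ∧ ψ j = PowerSeries.X ^ k) →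
    (∀ k ≤ k0, ∀ r ≤ S, ∃ α : J → ℝ, (∀ j, α j ≠ 0 → σ j = (k + r) % 2) ∧ ∀ m < a,
      PowerSeries.coeff m (PowerSeries.X ^ k *
        hs ℝ r (zp ℝ (a + S) (fun i => zr i - (τ (z i) + ∑ x, τ (c i x) * v x)))) =
          ∑ j, α j * τ (PowerSeries.coeff m (ψ j))) →
    (f0 : ℝ) ^ 2 ≤
      C * Module.finrank ℚ K * ((k0 : ℝ) + 1) * (g : ℝ) ^ 2 * (1 + Real.log g) *
        (((a : ℝ) - J0.card) + Fintype.card J' * ((a + S - s : ℕ) : ℝ)) * (1 + Real.log a)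

variable {K : Type} [Field K] (τ : K →+* ℝ)

/-- a real series with coefficients in the low part and in `I` lies in the span of the
companions `X^e` -/
theorem appd_good (s k0 S a : ℕ) (I : Finset ℕ) (c0 : ℕ → Fin 0 → K) (hS : S ≤ s)
    (w : ℕ → ℝ) (hw : ∀ i ∈ oddS (a + S), s < i → i ∉ I → w i = 0)
    (k : ℕ) (hk : k ≤ k0) (r : ℕ) (hr : r ≤ S) :
    GoodK τ (apsK K s k0 S 0 (a + S) I c0) (asg s k0 S 0 I) a ((k + r) % 2)
      (PowerSeries.X ^ k * hs ℝ r (zp ℝ (a + S) w)) := by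
  rw [zp, hs_sum, Finset.mul_sum]
  refine GoodK.sum _ fun i hi => ?_
  by_cases h0 : s < i ∧ i ∉ I
  · rw [hw i hi h0.1 h0.2, mul_zero, map_zero, zero_mul]
    have e : hs ℝ r (0 : PowerSeries ℝ) = 0 := by
      ext m
      rw [coeff_hs]
      simp
    rw [e, mul_zero]
    exact GoodK.zero
  · rw [hs_C_mul, app_hs_X_pow, app_aux]
    obtain ⟨hi1, hi2⟩ := Finset.mem_filter.1 hi
    rw [Finset.mem_Icc] at hi1
    have hi3 : i % 2 = 1 := Nat.odd_iff.1 hi2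
    by_cases hr1 : r ≤ i - 1
    · by_cases hs1 : s < i
      · have hI1 : i ∈ I := by
          by_contra h
          exact h0 ⟨hs1, h⟩
        refine GoodK.C_mul _ (GoodK.X_pow _ (.inr (.inl (⟨i, hI1⟩, ⟨k0 - k + r, by omega⟩))) ?_ ?_)
        · simp only [asg]; omega
        · simp only [apsK]
          congr 1
          omega
      · refine GoodK.C_mul _ (GoodK.X_pow _ (.inl ⟨k + (i - 1 - r), by omega⟩) ?_ ?_)
        · simp only [asg]; omega
        · simp only [apsK]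
    · rw [Nat.choose_eq_zero_of_lt (show i - 1 < r by omega)]
      simpa using GoodK.zero

/-- application: `d` vectors, exceptional set `I` -/
theorem sid_app (H : CoreD) : ∃ C : ℝ, 0 < C ∧ ∀ (K : Type) [Field K] [NumberField K]
    (τ : K →+* ℝ) (g S k0 a s d f0 : ℕ) (I : Finset ℕ), 1 ≤ g →
    1 ≤ a → g ≤ a → S ≤ a → 1 ≤ s → S ≤ s → I ⊆ oddS (a + S) → (∀ i ∈ I, s < i) →
    ∀ (v : Fin d → ℝ) (z : ℕ → K) (c : ℕ → Fin d → K),
    (∀ i ∈ oddS (a + S), s < i → i ∉ I → zr i = τ (z i) + ∑ x, τ (c i x) * v x) →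
    (g + 2) * (k0 + 2 + (s + k0 + I.card * (S + k0 + 1))) + f0 + 1 ≤ g * (a - k0) →
    g * (d * (a + S - s)) + f0 + 1 ≤ (k0 + 1) * (S + 1) →
    (f0 : ℝ) ^ 2 ≤ C * Module.finrank ℚ K * ((k0 : ℝ) + 1) * (g : ℝ) ^ 2 * (1 + Real.log g) *
      (((d : ℝ) + 1) * ((a + S - s : ℕ) : ℝ)) * (1 + Real.log a) := by
  obtain ⟨C, hC, h⟩ := H
  refine ⟨C, hC, ?_⟩
  intro K _ _ τ g S k0 a s d f0 I hg ha hga hSa hs1 hSs _ _ v z c hz hi h1
  have hle : s + k0 ≤ a := by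
    have h1 : g * (s + k0) ≤ (g + 2) * (k0 + 2 + (s + k0 + I.card * (S + k0 + 1))) :=
      Nat.mul_le_mul (by omega) (by omega)
    have h2 : g * (s + k0) ≤ g * (a - k0) := by omega
    have h3 := Nat.le_of_mul_le_mul_left h2 (by omega)
    omega
  have hfin := h K τ g S k0 a s f0 hg ha hga hSa (AJ s k0 S 0 I)
    (apsK K s k0 S 0 (a + S) I fun _ => Fin.elim0) (asg s k0 S 0 I) (asg_le s k0 S 0 I)
    (apsK_parity s k0 S 0 (a + S) I _)
    (fun i => if s < i ∧ i ∉ I then z i else 0) (Fin d) v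
    (fun i x => if s < i ∧ i ∉ I then c i x else 0)
    (fun i hi j => if_neg fun hc => by omega)
    (by
      rw [aj_card]
      simpa using hi)
    (by
      rw [Fintype.card_fin]
      exact h1)
    (range (s + k0)) (fun e he => by rw [mem_range] at he; omega)
    (fun e he => ⟨.inl ⟨e, mem_range.1 he⟩, rfl, rfl⟩)
    (fun k hk => ⟨.inl ⟨k, by omega⟩, rfl, rfl⟩)
    (by
      intro k hk r hr
      refine appd_good τ s k0 S a I _ hSs _ ?_ k hk r hr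
      intro i hi hsi hiI
      have hc : s < i ∧ i ∉ I := ⟨hsi, hiI⟩
      simp only [if_pos hc]
      rw [hz i hi hsi hiI, sub_self])
  rw [card_range, Fintype.card_fin] at hfin
  have hlg : 0 ≤ Real.log (g : ℝ) := Real.log_natCast_nonneg g
  have hla : 0 ≤ Real.log (a : ℝ) := Real.log_natCast_nonneg a
  refine hfin.trans (mul_le_mul_of_nonneg_right (mul_le_mul_of_nonneg_left ?_ ?_) (by linarith))
  · have h2 : ((s + k0 : ℕ) : ℝ) + ((a + S - s : ℕ) : ℝ) ≥ a := by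
      have h3 : a ≤ s + k0 + (a + S - s) := by omega
      exact_mod_cast h3
    nlinarith
  · positivity

end Pool.Agent.SID
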