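import Pool.Agent.DM.MNF
import Pool.Agent.DM.EXT

/-!
# SID, zero estimate: operators with values, conditions at poles and at nodes
-/

namespace Pool.Agent.SID

open Finset Polynomial Pool.Agent.ZC Pool.Agent.SI Pool.Agent.DM

variable {K : Type*} [Field K]

/-- value of an operator on the array `H`, jet at `t0` -/
noncomputable def opx (B S : ℕ) (H : ℕ → ℕ → PowerSeries K) (t0 : K) (P : ℕ → ℕ → K[X]) :
    PowerSeries K :=
  ∑ β ∈ range B, ∑ k ∈ range (S + 1), DM.jet t0 (P β k) * H β k

theorem opx_add (B S : ℕ) (H : ℕ → ℕ → PowerSeries K) (t0 : K) (P P' : ℕ → ℕ → K[X]) :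
    opx B S H t0 (P + P') = opx B S H t0 P + opx B S H t0 P' := by
  unfold opx
  simp only [Pi.add_apply, map_add, add_mul, Finset.sum_add_distrib]

theorem jet_C (t0 c : K) : DM.jet t0 (C c) = PowerSeries.C c := by
  simp [DM.jet]

theorem jet_smul (t0 c : K) (f : K[X]) : DM.jet t0 (c • f) = PowerSeries.C c * DM.jet t0 f := by
  rw [smul_eq_C_mul, map_mul, jet_C]

theorem opx_smul (B S : ℕ) (H : ℕ → ℕ → PowerSeries K) (t0 : K) (P : ℕ → ℕ → K[X]) (c : K) :
    opx B S H t0 (c • P) = PowerSeries.C c * opx B S H t0 P := by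
  unfold opx
  simp only [Pi.smul_apply, jet_smul, Finset.mul_sum, mul_assoc]

theorem opx_mul_left (B S : ℕ) (H : ℕ → ℕ → PowerSeries K) (t0 : K) (P : ℕ → ℕ → K[X]) (g : K[X]) :
    opx B S H t0 (fun β k => g * P β k) = DM.jet t0 g * opx B S H t0 P := by
  unfold opx
  simp only [map_mul, Finset.mul_sum, mul_assoc]

open Classical in
/-- the conditions at `t0`: `c` iff `t0` is a pole -/
noncomputable def cnx (B S a : ℕ) {J : Type*} (H : J → ℕ → ℕ → PowerSeries K) (c : Prop) (t0 : K) :
    (ℕ → ℕ → K[X]) →ₗ[K] (Fin B → Fin (S + 1) → K) × (J → Fin a → K) where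
  toFun P := (fun β r => if c then 0 else (rf S (P β) r).eval t0,
    fun j m => if c then PowerSeries.coeff (m : ℕ) (opx B S (H j) t0 P) else 0)
  map_add' P P' := by
    refine Prod.ext ?_ ?_
    · funext β r
      simp only [Prod.fst_add, Pi.add_apply]
      split_ifs with h
      · rw [add_zero]
      · have := rf_add S (P β) (P' β) r
        rw [← eval_add, ← this]
        rfl
    · funext j m
      simp only [Prod.snd_add, Pi.add_apply]
      split_ifs with h
      · rw [opx_add, map_add]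
      · rw [add_zero]
  map_smul' x P := by
    refine Prod.ext ?_ ?_
    · funext β r
      simp only [Prod.smul_fst, Pi.smul_apply, RingHom.id_apply, smul_eq_mul]
      split_ifs with h
      · rw [mul_zero]
      · have := rf_smul S (P β) r x
        rw [← smul_eq_mul, ← eval_smul, ← this]
        rfl
    · funext j m
      simp only [Prod.smul_snd, Pi.smul_apply, RingHom.id_apply, smul_eq_mul]
      split_ifs with h
      · rw [opx_smul, PowerSeries.coeff_C_mul]
      · rw [mul_zero]

theorem cnx_pole_iff (B S a : ℕ) {J : Type*} (H : J → ℕ → ℕ → PowerSeries K) (c : Prop) (hc : c)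
    (t0 : K) (P : ℕ → ℕ → K[X]) :
    cnx B S a H c t0 P = 0 ↔
      ∀ j, ∀ m < a, PowerSeries.coeff m (opx B S (H j) t0 P) = 0 := by
  rw [Prod.ext_iff]
  constructor
  · intro h j m hm
    have h1 := congrFun (congrFun h.2 j) ⟨m, hm⟩
    simpa [cnx, hc] using h1
  · intro h
    constructor
    · funext β r
      simp [cnx, hc]
    · funext j m
      simpa [cnx, hc] using h j m m.2

theorem cnx_node_iff (B S a : ℕ) {J : Type*} (H : J → ℕ → ℕ → PowerSeries K) (c : Prop) (hc : ¬ c)
    (t0 : K) (P : ℕ → ℕ → K[X]) :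
    cnx B S a H c t0 P = 0 ↔ ∀ β < B, ∀ r ≤ S, (rf S (P β) r).eval t0 = 0 := by
  rw [Prod.ext_iff]
  constructor
  · intro h β hβ r hr
    have h1 := congrFun (congrFun h.1 ⟨β, hβ⟩) ⟨r, Nat.lt_succ_of_le hr⟩
    simpa [cnx, hc] using h1
  · intro h
    constructor
    · funext β r
      simpa [cnx, hc] using h β β.2 r (Nat.le_of_lt_succ r.2)
    · funext j m
      simp [cnx, hc]

theorem cnx_X_sub (B S a : ℕ) {J : Type*} (H : J → ℕ → ℕ → PowerSeries K) (c : Prop)
    (t0 : K) (P : ℕ → ℕ → K[X]) (h : cnx B S a H c t0 P = 0) :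
    cnx B S a H c t0 (fun β k => (X - C t0) * P β k) = 0 := by
  by_cases hc : c
  · rw [cnx_pole_iff _ _ _ _ _ hc] at h ⊢
    intro j m hm
    rw [opx_mul_left, jet_X_sub]
    rcases m with _ | m
    · simp
    · rw [PowerSeries.coeff_succ_X_mul]
      exact h j m (by omega)
  · rw [cnx_node_iff _ _ _ _ _ hc] at h ⊢
    intro β hβ r hr
    rw [rf_X_sub S (P β) r t0]
    by_cases hr' : r + 1 ≤ S
    · rw [h β hβ (r + 1) hr', neg_zero]
    · rw [rf_eval_big S (P β) (r + 1) (by omega), neg_zero]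

theorem cnx_X_sub_pow (B S a : ℕ) {J : Type*} (H : J → ℕ → ℕ → PowerSeries K)
    (c : Prop) (t0 : K) (P : ℕ → ℕ → K[X]) :
    cnx B S a H c t0 (fun β k => (X - C t0) ^ (a + S + 1) * P β k) = 0 := by
  by_cases hc : c
  · rw [cnx_pole_iff _ _ _ _ _ hc]
    intro j m hm
    rw [opx_mul_left, map_pow, jet_X_sub, PowerSeries.coeff_X_pow_mul', if_neg (by omega)]
  · rw [cnx_node_iff _ _ _ _ _ hc]
    intro β hβ r hr
    rw [rf_X_sub_pow S (P β) (a + S + 1) r t0, rf_eval_big S (P β) _ (by omega), mul_zero]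

theorem cnx_shift [CharZero K] (B S a : ℕ) {J : Type*} (H : J → ℕ → ℕ → PowerSeries K)
    (c : Prop) (t0 s : K) (P : ℕ → ℕ → K[X]) :
    cnx B S a H c t0 (fun β k => (P β k).comp (X + C s)) = cnx B S a H c (t0 + s) P := by
  classical
  refine Prod.ext ?_ ?_
  · funext β r
    have h1 := rf_shift S (P β) (r : ℕ) s
    simp only [cnx, LinearMap.coe_mk, AddHom.coe_mk]
    rw [h1, eval_comp]
    simp
  · funext j m
    simp only [cnx, LinearMap.coe_mk, AddHom.coe_mk]
    have h1 : opx B S (H j) t0 (fun β k => (P β k).comp (X + C s)) =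
        opx B S (H j) (t0 + s) P := by
      unfold opx
      simp only [jet_comp_add]
    rw [h1]

theorem rf_C_mul (S : ℕ) (P : ℕ → K[X]) (r : ℕ) (c : K) :
    rf S (fun k => C c * P k) r = C c * rf S P r := by
  have h := rf_smul S P r c
  simp only [smul_eq_C_mul] at h
  exact h

theorem cnx_refl [CharZero K] (B S a : ℕ) {J : Type*} (H : J → ℕ → ℕ → PowerSeries K)
    (hH : ∀ j β k, PowerSeries.evalNegHom (H j β k) = PowerSeries.C ((-1) ^ (β + k)) * H j β k)
    (c : Prop) (t0 c0 : K) (P : ℕ → ℕ → K[X]) (h : cnx B S a H c (c0 - t0) P = 0) :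
    cnx B S a H c t0 (fun β k => C ((-1) ^ (β + k)) * (P β k).comp (C c0 - X)) = 0 := by
  by_cases hc : c
  · rw [cnx_pole_iff _ _ _ _ _ hc] at h ⊢
    intro j m hm
    have h1 : opx B S (H j) t0 (fun β k => C ((-1) ^ (β + k)) * (P β k).comp (C c0 - X)) =
        PowerSeries.evalNegHom (opx B S (H j) (c0 - t0) P) := by
      unfold opx
      rw [map_sum]
      refine Finset.sum_congr rfl fun β _ => ?_
      rw [map_sum]
      refine Finset.sum_congr rfl fun k _ => ?_
      rw [map_mul, map_mul, jet_refl, hH, jet_C]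
      ring
    rw [h1, PowerSeries.evalNegHom, PowerSeries.coeff_rescale, h j m hm, mul_zero]
  · rw [cnx_node_iff _ _ _ _ _ hc] at h ⊢
    intro β hβ r hr
    have h0 : (fun k => C ((-1 : K) ^ (β + k)) * (P β k).comp (C c0 - X)) =
        fun k => C ((-1) ^ β) * (C ((-1) ^ k) * (P β k).comp (C c0 - X)) := by
      funext k
      rw [pow_add, C_mul, mul_assoc]
    rw [h0, rf_C_mul S (fun k => C ((-1) ^ k) * (P β k).comp (C c0 - X)) r ((-1) ^ β),
      rf_refl S (P β) r c0, eval_mul, eval_mul, eval_comp]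
    simp only [eval_sub, eval_C, eval_X]
    rw [h β hβ r hr, mul_zero, mul_zero]

/-- number of conditions -/
noncomputable def kapx (B S a : ℕ) {J : Type*} (H : J → ℕ → ℕ → PowerSeries K)
    (c : Prop) {m : ℕ} (w : Fin m → ℕ → ℕ → K) : ℕ :=
  Module.finrank K (LinearMap.range ((cnx B S a H c (0 : K)) ∘ₗ comb w))

/-- the number of conditions does not depend on the point -/
theorem kapx_eq [CharZero K] (B S a : ℕ) {J : Type*} (H : J → ℕ → ℕ → PowerSeries K)
    (c : Prop) {m : ℕ} (w : Fin m → ℕ → ℕ → K) (t0 : K) :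
    Module.finrank K (LinearMap.range ((cnx B S a H c t0) ∘ₗ comb w)) =
      kapx B S a H c w := by
  let sh : (Fin m → K[X]) →ₗ[K] (Fin m → K[X]) :=
    { toFun := fun f i => (f i).comp (X + C t0)
      map_add' := fun f g => by funext i; simp
      map_smul' := fun x f => by funext i; simp }
  have hsh : LinearMap.range sh = ⊤ := by
    rw [LinearMap.range_eq_top]
    intro f
    refine ⟨fun i => (f i).comp (X - C t0), ?_⟩
    funext i
    show ((f i).comp (X - C t0)).comp (X + C t0) = f i
    rw [comp_assoc]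
    simp
  have h1 : (cnx B S a H c t0) ∘ₗ comb w = ((cnx B S a H c (0 : K)) ∘ₗ comb w) ∘ₗ sh := by
    refine LinearMap.ext fun f => ?_
    simp only [LinearMap.comp_apply]
    have h2 := cnx_shift B S a H c 0 t0 (comb w f)
    rw [zero_add] at h2
    rw [← h2]
    congr 1
    funext β k
    show (∑ i, f i * C (w i β k)).comp (X + C t0) = ∑ i, (f i).comp (X + C t0) * C (w i β k)
    have h3 := map_sum (compRingHom (X + C t0)) (fun i => f i * C (w i β k)) Finset.univ
    simp only [coe_compRingHom_apply] at h3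
    rw [h3]
    refine Finset.sum_congr rfl fun i _ => ?_
    rw [mul_comp, C_comp]
  unfold kapx
  rw [h1, LinearMap.range_comp_of_range_eq_top _ hsh]

theorem kapx_mono (B S a : ℕ) {J : Type*} [Fintype J] (H : J → ℕ → ℕ → PowerSeries K)
    (c : Prop) {m : ℕ} (w : Fin (m + 1) → ℕ → ℕ → K) :
    kapx B S a H c (fun i : Fin m => w i.castSucc) ≤ kapx B S a H c w := by
  unfold kapx
  apply Submodule.finrank_mono
  rintro _ ⟨f, rfl⟩
  refine ⟨Fin.snoc f 0, ?_⟩
  simp only [LinearMap.comp_apply]
  congr 1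
  funext β k
  show ∑ i : Fin (m + 1), (Fin.snoc f 0 : Fin (m + 1) → K[X]) i * C (w i β k) =
    ∑ i : Fin m, f i * C (w i.castSucc β k)
  rw [Fin.sum_univ_castSucc]
  simp

/-- conditions at a node -/
theorem kapx_node_le (B S a : ℕ) {J : Type*} [Fintype J] (H : J → ℕ → ℕ → PowerSeries K)
    (c : Prop) (hc : ¬ c) {m : ℕ} (w : Fin m → ℕ → ℕ → K) :
    kapx B S a H c w ≤ B * (S + 1) := by
  unfold kapx
  have h1 : LinearMap.range ((cnx B S a H c (0 : K)) ∘ₗ comb w) ≤
      LinearMap.range (LinearMap.inl K (Fin B → Fin (S + 1) → K) (J → Fin a → K)) := by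
    rintro _ ⟨f, rfl⟩
    refine ⟨(cnx B S a H c (0 : K) (comb w f)).1, ?_⟩
    refine Prod.ext rfl ?_
    funext j m'
    show (0 : K) = (cnx B S a H c (0 : K) (comb w f)).2 j m'
    simp [cnx, hc]
  refine (Submodule.finrank_mono h1).trans ((LinearMap.finrank_range_le _).trans ?_)
  simp only [Module.finrank_pi_fintype, Module.finrank_self,
    Finset.sum_const, Finset.card_univ, smul_eq_mul, Fintype.card_fin, mul_one]
  exact le_rfl

/-- conditions at a pole -/
theorem kapx_pole_le (B S a W : ℕ) {J : Type*} [Fintype J] (H : J → ℕ → ℕ → PowerSeries K)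
    (hW : ∀ j, ∀ β k, k ≤ S → ∀ m, m + W < a → PowerSeries.coeff m (H j β k) = 0)
    (c : Prop) (hc : c) {m : ℕ} (w : Fin m → ℕ → ℕ → K) :
    kapx B S a H c w ≤ Fintype.card J * W := by
  classical
  unfold kapx
  set s0 : ℕ := a - W with hs0
  let ι : (J → Fin (a - s0) → K) →ₗ[K] ((Fin B → Fin (S + 1) → K) × (J → Fin a → K)) :=
    { toFun := fun x => (0, fun j i => if h : s0 ≤ (i : ℕ) then x j ⟨i - s0, by omega⟩ else 0)
      map_add' := fun x y => by
        refine Prod.ext (by simp) ?_
        funext j i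
        simp only [Prod.snd_add, Pi.add_apply]
        split_ifs <;> simp
      map_smul' := fun s x => by
        refine Prod.ext (by simp) ?_
        funext j i
        simp only [Prod.smul_snd, Pi.smul_apply, RingHom.id_apply]
        split_ifs <;> simp }
  have h0 : ∀ (P : ℕ → ℕ → K[X]) (j : J) (m' : ℕ), m' < s0 →
      PowerSeries.coeff m' (opx B S (H j) 0 P) = 0 := by
    intro P j m' hm'
    unfold opx
    rw [map_sum]
    refine Finset.sum_eq_zero fun β _ => ?_
    rw [map_sum]
    refine Finset.sum_eq_zero fun k hk => ?_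
    rw [Finset.mem_range] at hk
    rw [PowerSeries.coeff_mul]
    refine Finset.sum_eq_zero fun x hx => ?_
    rw [HasAntidiagonal.mem_antidiagonal] at hx
    rw [hW j β k (by omega) x.2 (by omega), mul_zero]
  have h1 : LinearMap.range ((cnx B S a H c (0 : K)) ∘ₗ comb w) ≤ LinearMap.range ι := by
    rintro _ ⟨f, rfl⟩
    refine ⟨fun j i => (cnx B S a H c (0 : K) (comb w f)).2 j ⟨i + s0, by omega⟩, ?_⟩
    refine Prod.ext ?_ ?_
    · funext β r
      show (0 : K) = (cnx B S a H c (0 : K) (comb w f)).1 β r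
      simp [cnx, hc]
    · funext j i
      show (if h : s0 ≤ (i : ℕ) then
        (cnx B S a H c (0 : K) (comb w f)).2 j ⟨i - s0 + s0, by omega⟩ else 0) =
        (cnx B S a H c (0 : K) (comb w f)).2 j i
      split_ifs with h
      · exact congrArg (fun i' : Fin a => (cnx B S a H c (0 : K) (comb w f)).2 j i')
          (Fin.ext (Nat.sub_add_cancel h))
      · have h2 := h0 (comb w f) j i (by omega)
        simp [cnx, hc, h2]
  refine (Submodule.finrank_mono h1).trans ((LinearMap.finrank_range_le ι).trans ?_)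
  simp only [Module.finrank_pi_fintype, Module.finrank_self,
    Finset.sum_const, Finset.card_univ, smul_eq_mul, Fintype.card_fin, mul_one]
  exact Nat.mul_le_mul_left _ (by omega)

end Pool.Agent.SID
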