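import Pool.Agent.SID.ONED
import Pool.Agent.SK.CORSK

/-!
# SID: the core inequality

Logarithm of `sid_one` divided by `M^2`: pattern `SK/CORSK` (now `R = 0` is possible, and there
is the factor `2 ^ R`; `M1 = (a + S + 1) M f0`).
-/

namespace Pool.Agent.SID

open Finset Pool.Agent.ZC Pool.Agent.SI Pool.Agent.SK

private theorem cord_tri (K : ℕ) : ((K * (K - 1) / 2 : ℕ) : ℝ) = ((K : ℝ) ^ 2 - K) / 2 := by
  rw [← Nat.choose_two_right, Nat.cast_choose_two]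
  ring

private theorem cord_alg {δ R W A a G g M κ κ' lD dl lT l256 lf lW lM l2 lQ lc l3 l4 B lB θ l5 t2 : ℝ}
    (hδ : 0 ≤ δ)
    (hRW : R ≤ W * M) (hM : 0 ≤ M) (hW : 0 ≤ W) (hA : 0 ≤ A) (ha : 0 ≤ a)
    (hG : 0 ≤ G) (hg : 0 ≤ g) (hlD : 0 ≤ lD)
    (hdl0 : 0 ≤ dl) (hdl : dl ≤ 2 * M * l256) (hlT0 : 0 ≤ lT) (hlT : lT ≤ B * M * lB)
    (hlW : 0 ≤ lW) (hlM : 0 ≤ lM) (hl2 : 0 ≤ l2) (hlQ : 0 ≤ lQ) (hlc : 0 ≤ lc) (hl3 : 0 ≤ l3)
    (hl4 : 0 ≤ l4) (ht2 : 0 ≤ t2) (hfac : lf ≤ R * (lW + lM))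
    (h0 : 0 ≤ δ * (R * (lD + A * dl + (lT + a * dl)) + (lf + R * (l2 + 4 * (G * (A * M)) * lQ +
      (lc + 3 * (l3 + lM) + g * (A * M) * l4)))) +
      (R * t2 + (((κ * M) ^ 2 - κ * M) / 2 * (-θ) + (κ' * M) * l5))) :
    (κ ^ 2 / 2 * θ - δ * (W * (2 * (A + a) * l256 + B * lB + 4 * G * A * lQ + g * A * l4))) *
        M ^ 2 ≤
      (δ * (W * (lD + lW + l2 + lc + 3 * l3)) + W * t2 + κ' * l5 + κ / 2 * θ) * M +
        (4 * δ * W) * (M * lM) := by
  have e1 : (A + a) * dl ≤ (A + a) * (2 * M * l256) := mul_le_mul_of_nonneg_left hdl (by positivity)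
  have h2 : (lD + A * dl + (lT + a * dl)) + (lW + lM) + (l2 + 4 * (G * (A * M)) * lQ +
      (lc + 3 * (l3 + lM) + g * (A * M) * l4)) ≤
      (lD + lW + l2 + lc + 3 * l3) + 4 * lM +
        (2 * (A + a) * l256 + B * lB + 4 * G * A * lQ + g * A * l4) * M := by linarith
  have h3 : 0 ≤ (lD + A * dl + (lT + a * dl)) + (lW + lM) + (l2 + 4 * (G * (A * M)) * lQ +
      (lc + 3 * (l3 + lM) + g * (A * M) * l4)) := by positivity
  have h4 : R * ((lD + A * dl + (lT + a * dl)) + (lW + lM) + (l2 + 4 * (G * (A * M)) * lQ +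
      (lc + 3 * (l3 + lM) + g * (A * M) * l4))) ≤
      (W * M) * ((lD + lW + l2 + lc + 3 * l3) + 4 * lM +
        (2 * (A + a) * l256 + B * lB + 4 * G * A * lQ + g * A * l4) * M) :=
    mul_le_mul hRW h2 h3 (by positivity)
  have h5 : R * (lD + A * dl + (lT + a * dl)) + (lf + R * (l2 + 4 * (G * (A * M)) * lQ +
      (lc + 3 * (l3 + lM) + g * (A * M) * l4))) ≤
      (W * M) * ((lD + lW + l2 + lc + 3 * l3) + 4 * lM +
        (2 * (A + a) * l256 + B * lB + 4 * G * A * lQ + g * A * l4) * M) := by linarith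
  have h6 := mul_le_mul_of_nonneg_left h5 hδ
  have h7 : R * t2 ≤ (W * M) * t2 := mul_le_mul_of_nonneg_right hRW ht2
  linarith

private theorem cord_size (p j c a : ℕ) (hp : 1 ≤ p) :
    1 + ((p * j : ℕ) : ℝ) * ((c : ℝ) * (2 ^ a * (2 * (p : ℝ) + 1) ^ 2 * 4 ^ p)) ≤
      ((1 + j * (c * 2 ^ a) : ℕ) : ℝ) * (3 * (p : ℝ)) ^ 3 * 4 ^ p := by
  have hp' : (1 : ℝ) ≤ p := by exact_mod_cast hp
  have h4 : (1 : ℝ) ≤ 4 ^ p := one_le_pow₀ (by norm_num)
  have h3 : (1 : ℝ) ≤ (3 * (p : ℝ)) ^ 3 := one_le_pow₀ (by linarith)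
  have h5 : (2 * (p : ℝ) + 1) ^ 2 ≤ (3 * p) ^ 2 := pow_le_pow_left₀ (by positivity) (by linarith) 2
  have h6 : (p : ℝ) * (2 * (p : ℝ) + 1) ^ 2 ≤ (3 * p) ^ 3 := by
    calc (p : ℝ) * (2 * (p : ℝ) + 1) ^ 2 ≤ (3 * p) * (3 * p) ^ 2 :=
          mul_le_mul (by linarith) h5 (by positivity) (by positivity)
      _ = _ := by ring
  push_cast
  calc 1 + (p : ℝ) * j * ((c : ℝ) * (2 ^ a * (2 * (p : ℝ) + 1) ^ 2 * 4 ^ p))
      = 1 + (j * (c * 2 ^ a)) * ((p : ℝ) * (2 * (p : ℝ) + 1) ^ 2) * 4 ^ p := by ring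
    _ ≤ (3 * (p : ℝ)) ^ 3 * 4 ^ p + (j * (c * 2 ^ a)) * (3 * p) ^ 3 * 4 ^ p := by
        have h7 : (1 : ℝ) ≤ (3 * (p : ℝ)) ^ 3 * 4 ^ p := by nlinarith
        have h8 : ((j : ℝ) * (c * 2 ^ a)) * ((p : ℝ) * (2 * (p : ℝ) + 1) ^ 2) * 4 ^ p ≤
          (j * (c * 2 ^ a)) * (3 * p) ^ 3 * 4 ^ p := by gcongr
        linarith
    _ = _ := by ring

/-- logarithm of the determinant inequality -/
private theorem cord_log (D0 A a g j c K K' R M W T δ : ℕ) (Λ Q ρ : ℝ) (hΛ : 1 ≤ Λ)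
    (hD : 1 ≤ D0) (hA : 1 ≤ A)
    (hg : 1 ≤ g) (hc : 1 ≤ c) (hM : 1 ≤ M) (hRW : R ≤ W * M) (hT : 1 ≤ T)
    (hT2 : T ≤ (2 * g * A) ^ (2 * g * A * M)) (hQ : 1 ≤ Q) (hρ0 : 0 < ρ) (hρ1 : ρ < 1)
    (hin : 1 ≤ (((D0 * Nat.lcmUpto (2 * M) ^ A * (T * Nat.lcmUpto (2 * M) ^ a) : ℕ) : ℝ) ^ R *
        ((R.factorial : ℝ) *
        (Λ * Q ^ (4 * ((g + 2) * (A * M))) * (1 + ((g * (A * M) * j : ℕ) : ℝ) *
          ((c : ℝ) * (2 ^ a * (2 * ((g * (A * M) : ℕ) : ℝ) + 1) ^ 2 *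
            4 ^ (g * (A * M)))))) ^ R)) ^ δ *
        (2 ^ R * (ρ ^ ((K * M) * (K * M - 1) / 2) * (1 / (1 - ρ)) ^ (K' * M)))) :
    ((K : ℝ) ^ 2 / 2 * (-Real.log ρ) - δ * (W * (2 * ((A : ℝ) + a) * Real.log 256 +
        (2 * (g : ℝ) * A) * Real.log (2 * g * A) + 4 * ((g : ℝ) + 2) * A * Real.log Q +
        g * A * Real.log 4))) * (M : ℝ) ^ 2 ≤
      (δ * (W * (Real.log D0 + Real.log W + Real.log Λ +
        Real.log ((1 + j * (c * 2 ^ a) : ℕ) : ℝ) +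
        3 * Real.log (3 * g * A))) + W * Real.log 2 + K' * Real.log (1 / (1 - ρ)) +
        K / 2 * (-Real.log ρ)) * M +
      (4 * δ * W) * (M * Real.log M) := by
  have hD' : (1 : ℝ) ≤ D0 := by exact_mod_cast hD
  have hA' : (1 : ℝ) ≤ A := by exact_mod_cast hA
  have hg' : (1 : ℝ) ≤ g := by exact_mod_cast hg
  have hM' : (1 : ℝ) ≤ M := by exact_mod_cast hM
  have hT' : (1 : ℝ) ≤ T := by exact_mod_cast hT
  have hRW' : (R : ℝ) ≤ W * M := by exact_mod_cast hRW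
  have hl0 : 0 < Nat.lcmUpto (2 * M) := Nat.lcmUpto_pos _
  have hl1 : (1 : ℝ) ≤ (Nat.lcmUpto (2 * M) : ℝ) := by exact_mod_cast hl0
  have hρ2 : 0 < 1 - ρ := by linarith
  have hgA : (1 : ℝ) ≤ g * A := by nlinarith
  have hgAM : (1 : ℝ) ≤ g * A * M := by nlinarith
  have hp1 : 1 ≤ g * (A * M) := Nat.mul_pos (by omega) (Nat.mul_pos (by omega) (by omega))
  have hc' : (1 : ℝ) ≤ ((1 + j * (c * 2 ^ a) : ℕ) : ℝ) := by
    have : 1 ≤ 1 + j * (c * 2 ^ a) := by omega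
    exact_mod_cast this
  -- replace the projection factor
  have hsz := cord_size (g * (A * M)) j c a hp1
  have hin2 : 1 ≤ (((D0 * Nat.lcmUpto (2 * M) ^ A * (T * Nat.lcmUpto (2 * M) ^ a) : ℕ) : ℝ) ^ R *
        ((R.factorial : ℝ) *
        (Λ * Q ^ (4 * ((g + 2) * (A * M))) * (((1 + j * (c * 2 ^ a) : ℕ) : ℝ) *
          (3 * ((g * (A * M) : ℕ) : ℝ)) ^ 3 * 4 ^ (g * (A * M)))) ^ R)) ^ δ *
        (2 ^ R * (ρ ^ ((K * M) * (K * M - 1) / 2) * (1 / (1 - ρ)) ^ (K' * M))) := by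
    refine hin.trans ?_
    gcongr
  have hcpos : (0 : ℝ) < ((1 + j * (c * 2 ^ a) : ℕ) : ℝ) := by linarith
  have hppos : (0 : ℝ) < ((g * (A * M) : ℕ) : ℝ) := by exact_mod_cast hp1
  have hTpos : (0 : ℝ) < T := by linarith
  have hDpos : (0 : ℝ) < D0 := by linarith
  have hlpos : (0 : ℝ) < (Nat.lcmUpto (2 * M) : ℝ) := by linarith
  have hQpos : 0 < Q := by linarith
  have hΛpos : 0 < Λ := by linarith
  have hδ : (0 : ℝ) ≤ δ := Nat.cast_nonneg _
  have hin3 : (0 : ℝ) < ((D0 * Nat.lcmUpto (2 * M) ^ A *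
      (T * Nat.lcmUpto (2 * M) ^ a) : ℕ) : ℝ) := by
    push_cast
    positivity
  have hin4 : (0 : ℝ) < (Λ * Q ^ (4 * ((g + 2) * (A * M))) * (((1 + j * (c * 2 ^ a) : ℕ) : ℝ) *
          (3 * ((g * (A * M) : ℕ) : ℝ)) ^ 3 * 4 ^ (g * (A * M)))) := by positivity
  have hlog : Real.log (Λ * Q ^ (4 * ((g + 2) * (A * M))) * (((1 + j * (c * 2 ^ a) : ℕ) : ℝ) *
          (3 * ((g * (A * M) : ℕ) : ℝ)) ^ 3 * 4 ^ (g * (A * M)))) =
      Real.log Λ + ((4 * ((g + 2) * (A * M)) : ℕ) : ℝ) * Real.log Q +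
        (Real.log ((1 + j * (c * 2 ^ a) : ℕ) : ℝ) +
          ((3 : ℕ) : ℝ) * Real.log (3 * ((g * (A * M) : ℕ) : ℝ)) +
          ((g * (A * M) : ℕ) : ℝ) * Real.log 4) := by
    rw [Real.log_mul (by positivity) (by positivity), Real.log_mul hΛpos.ne' (by positivity),
      Real.log_mul (by positivity) (by positivity), Real.log_mul hcpos.ne' (by positivity),
      Real.log_pow, Real.log_pow, Real.log_pow]
  have hlog2 : Real.log (2 ^ R * (ρ ^ ((K * M) * (K * M - 1) / 2) * (1 / (1 - ρ)) ^ (K' * M))) =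
      R * Real.log 2 + ((((K * M) * (K * M - 1) / 2 : ℕ) : ℝ) * Real.log ρ +
        ((K' * M : ℕ) : ℝ) * Real.log (1 / (1 - ρ))) := by
    rw [Real.log_mul (by positivity) (by positivity), Real.log_mul (by positivity) (by positivity),
      Real.log_pow, Real.log_pow, Real.log_pow]
  have h0 := Real.log_le_log one_pos hin2
  rw [Real.log_one, Real.log_mul (by positivity) (by positivity), Real.log_pow,
    Real.log_mul (pow_pos hin3 _).ne' (by positivity), Real.log_pow,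
    Real.log_mul (by positivity) (pow_pos hin4 _).ne', Real.log_pow, hlog, hlog2,
    cord_tri] at h0
  have e1 : Real.log ((D0 * Nat.lcmUpto (2 * M) ^ A * (T * Nat.lcmUpto (2 * M) ^ a) : ℕ) : ℝ) =
      Real.log D0 + A * Real.log (Nat.lcmUpto (2 * M) : ℝ) +
        (Real.log T + a * Real.log (Nat.lcmUpto (2 * M) : ℝ)) := by
    push_cast
    rw [Real.log_mul (by positivity) (by positivity), Real.log_mul (by positivity) (by positivity),
      Real.log_mul (by positivity) (by positivity), Real.log_pow, Real.log_pow]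
  have e2 : Real.log (3 * ((g * (A * M) : ℕ) : ℝ)) = Real.log (3 * g * A) + Real.log M := by
    rw [← Real.log_mul (by positivity) (by positivity)]
    congr 1
    push_cast
    ring
  rw [e1, e2] at h0
  have hfac : Real.log (R.factorial : ℝ) ≤ R * (Real.log W + Real.log M) := by
    rcases Nat.eq_zero_or_pos R with hR | hR
    · subst hR
      simp
    · have hR' : (1 : ℝ) ≤ R := by exact_mod_cast hR
      have hW1 : 1 ≤ W := by
        rcases Nat.eq_zero_or_pos W with h | h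
        · subst h; simp at hRW; omega
        · exact h
      have hW' : (1 : ℝ) ≤ W := by exact_mod_cast hW1
      have h1 : (R.factorial : ℝ) ≤ (R : ℝ) ^ R := by exact_mod_cast Nat.factorial_le_pow R
      have h2 := Real.log_le_log (by positivity) h1
      rw [Real.log_pow] at h2
      refine h2.trans (mul_le_mul_of_nonneg_left ?_ (by positivity))
      rw [← Real.log_mul (by positivity) (by positivity)]
      exact Real.log_le_log (by linarith) hRW'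
  have hdl : Real.log (Nat.lcmUpto (2 * M) : ℝ) ≤ 2 * M * Real.log 256 := by
    have h1 := Real.log_le_log (by positivity) (lcmUpto_le (2 * M))
    rw [Real.log_pow] at h1
    push_cast at h1
    exact h1
  have hlT : Real.log T ≤ (2 * (g : ℝ) * A) * M * Real.log (2 * g * A) := by
    have h1 : (T : ℝ) ≤ ((2 * g * A : ℕ) : ℝ) ^ (2 * g * A * M) := by exact_mod_cast hT2
    have h2 := Real.log_le_log (by positivity) h1
    rw [Real.log_pow] at h2
    push_cast at h2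
    exact h2
  refine cord_alg (R := (R : ℝ)) (dl := Real.log (Nat.lcmUpto (2 * M) : ℝ))
    (lf := Real.log (R.factorial : ℝ)) (lT := Real.log T) hδ hRW'
    (by positivity) (by positivity) (by positivity) (by positivity) (by positivity) (by positivity)
    (Real.log_nonneg hD') (Real.log_nonneg hl1) hdl (Real.log_nonneg hT') hlT
    (Real.log_natCast_nonneg W) (Real.log_nonneg hM')
    (Real.log_nonneg hΛ) (Real.log_nonneg hQ) (Real.log_nonneg hc')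
    (Real.log_nonneg (by linarith)) (Real.log_nonneg (by norm_num))
    (Real.log_nonneg (by norm_num)) hfac ?_
  push_cast at h0 ⊢
  refine h0.trans (le_of_eq ?_)
  ring

private theorem cord_log9 {x : ℝ} (hx : 1 ≤ x) {y : ℝ} (hy0 : 0 < y) (hy : y ≤ 9 * x ^ 2) :
    Real.log y ≤ 3 + 2 * Real.log x := by
  have h2 := Real.log_le_log hy0 hy
  rw [Real.log_mul (by norm_num) (by positivity), Real.log_pow] at h2
  have h3 : Real.log 9 ≤ 3 := by
    rw [Real.log_le_iff_le_exp (by norm_num)]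
    have h4 : Real.exp 3 = Real.exp 1 ^ 3 := by
      rw [← Real.exp_nat_mul]; norm_num
    rw [h4]
    have h5 := Real.exp_one_gt_d9
    have h6 : (2.7182818283 : ℝ) ^ 3 ≤ Real.exp 1 ^ 3 := pow_le_pow_left₀ (by norm_num) h5.le 3
    refine le_trans ?_ h6
    norm_num
  push_cast at h2
  linarith

private theorem cord_final {δ g k0 f w a A Lx CL lg θ l2 l256 lB lQ l4 lC la : ℝ}
    (hδ : 0 ≤ δ) (hg : 1 ≤ g)
    (ha : 0 < a) (hw : 0 ≤ w) (hAa : a ≤ A) (hk : 0 ≤ k0) (hLx : 0 < Lx)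
    (hL : Lx ≤ CL * (1 + lg)) (hla : 0 ≤ la) (hlC : 0 ≤ lC)
    (hθ : θ = l2 / (2 * ((k0 + 1) * Lx))) (hl2 : 1 / 2 ≤ l2)
    (hl : l256 ≤ 6) (hlB : lB ≤ 3 + 2 * la) (hlQ : lQ ≤ lC + (3 + 2 * la)) (hl4 : l4 ≤ 2)
    (hX : (A * f) ^ 2 / 2 * θ -
      δ * ((g * A * w) * (2 * (A + a) * l256 + (2 * g * A) * lB + 4 * (g + 2) * A * lQ +
        g * A * l4)) ≤ 0) :
    f ^ 2 ≤ (8 * CL * (68 + 12 * lC)) * δ * (k0 + 1) * g ^ 2 * (1 + lg) * w * (1 + la) := by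
  have hA0 : 0 < A := by linarith
  have hgA : 0 < g * A := by positivity
  have hAgA : A ≤ g * A := le_mul_of_one_le_left hA0.le hg
  have hc3 : 2 * (A + a) * l256 + (2 * g * A) * lB + 4 * (g + 2) * A * lQ + g * A * l4 ≤
      (g * A) * ((68 + 12 * lC) * (1 + la)) := by
    have e1 : 2 * (A + a) * l256 ≤ 24 * (g * A) := by
      have : 2 * (A + a) * l256 ≤ 2 * (A + a) * 6 := mul_le_mul_of_nonneg_left hl (by positivity)
      linarith
    have e2 : (2 * g * A) * lB ≤ (2 * g * A) * (3 + 2 * la) :=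
      mul_le_mul_of_nonneg_left hlB (by positivity)
    have e3 : 4 * (g + 2) * A * lQ ≤ 12 * (g * A) * (lC + (3 + 2 * la)) := by
      have e4 : 4 * (g + 2) * A * lQ ≤ 4 * (g + 2) * A * (lC + (3 + 2 * la)) :=
        mul_le_mul_of_nonneg_left hlQ (by positivity)
      refine e4.trans (mul_le_mul_of_nonneg_right ?_ (by positivity))
      nlinarith
    have e5 : g * A * l4 ≤ g * A * 2 := mul_le_mul_of_nonneg_left hl4 (by positivity)
    have e6 : 24 * (g * A) + (2 * g * A) * (3 + 2 * la) + 12 * (g * A) * (lC + (3 + 2 * la)) +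
        g * A * 2 ≤ (g * A) * ((68 + 12 * lC) * (1 + la)) := by
      have e7 : (g * A) * ((68 + 12 * lC) * (1 + la)) -
          (24 * (g * A) + (2 * g * A) * (3 + 2 * la) + 12 * (g * A) * (lC + (3 + 2 * la)) +
        g * A * 2) = (g * A) * (40 * la + 12 * lC * la) := by ring
      have e8 : 0 ≤ (g * A) * (40 * la + 12 * lC * la) := by positivity
      linarith
    linarith
  have h1 : (A * f) ^ 2 / 2 * θ = A ^ 2 * (f ^ 2 * l2 / (4 * ((k0 + 1) * Lx))) := by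
    rw [hθ]
    field_simp
    ring
  have h2 : δ * ((g * A * w) * (2 * (A + a) * l256 + (2 * g * A) * lB +
        4 * (g + 2) * A * lQ + g * A * l4)) ≤
        δ * ((g * A * w) * ((g * A) * ((68 + 12 * lC) * (1 + la)))) :=
    mul_le_mul_of_nonneg_left (mul_le_mul_of_nonneg_left hc3 (by positivity)) hδ
  have h3 : A ^ 2 * (f ^ 2 * l2 / (4 * ((k0 + 1) * Lx))) ≤
      A ^ 2 * (δ * (g ^ 2 * w * ((68 + 12 * lC) * (1 + la)))) := by
    rw [← h1]
    have : δ * ((g * A * w) * ((g * A) * ((68 + 12 * lC) * (1 + la)))) =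
      A ^ 2 * (δ * (g ^ 2 * w * ((68 + 12 * lC) * (1 + la)))) := by ring
    rw [← this]
    linarith
  have h4 := le_of_mul_le_mul_left h3 (by positivity)
  rw [div_le_iff₀ (by positivity)] at h4
  have h5 : f ^ 2 * (1 / 2) ≤ f ^ 2 * l2 :=
    mul_le_mul_of_nonneg_left hl2 (by positivity)
  have h6 : δ * (g ^ 2 * w * ((68 + 12 * lC) * (1 + la))) * (4 * ((k0 + 1) * Lx)) ≤
      δ * (g ^ 2 * w * ((68 + 12 * lC) * (1 + la))) * (4 * ((k0 + 1) * (CL * (1 + lg)))) :=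
    mul_le_mul_of_nonneg_left
      (mul_le_mul_of_nonneg_left (mul_le_mul_of_nonneg_left hL (by positivity)) (by norm_num))
      (by positivity)
  calc f ^ 2 = 2 * (f ^ 2 * (1 / 2)) := by ring
    _ ≤ 2 * (δ * (g ^ 2 * w * ((68 + 12 * lC) * (1 + la))) *
        (4 * ((k0 + 1) * (CL * (1 + lg))))) := by
        linarith
    _ = _ := by ring

/-- the core inequality, from the near families -/
theorem sid_core_of (HNR : ∃ Cst CL : ℝ, 100 ≤ Cst ∧ 0 ≤ CL ∧ ∀ g S k0 a : ℕ, 1 ≤ g → 1 ≤ a →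
      ∃ Lx : ℕ, 0 < Lx ∧ (Lx : ℝ) ≤ CL * (1 + Real.log g) ∧ ∃ M0 : ℕ, ∀ M ≥ M0,
        NRfam g S k0 a Lx M
          ((Cst * ((g : ℝ) + 2) * (a + S + 1)) ^ (4 * ((g + 2) * ((a + S + 1) * M))))) :
    ∃ C : ℝ, 0 < C ∧ ∀ (K : Type) [Field K] [NumberField K] (τ : K →+* ℝ) (g S k0 a s f0 : ℕ),
    1 ≤ g → 1 ≤ a → g ≤ a → S ≤ a →
    ∀ (J : Type) [Fintype J] (ψ : J → PowerSeries K) (σ : J → ℕ), (∀ j, σ j ≤ 1) →
    (∀ j, PowerSeries.evalNegHom (ψ j) = PowerSeries.C ((-1 : K) ^ σ j) * ψ j) → ∀ z : ℕ → K,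
    ∀ (J' : Type) [Fintype J'] (v : J' → ℝ) (c : ℕ → J' → K), (∀ i ≤ s, ∀ j, c i j = 0) →
    (g + 2) * (k0 + 2 + Fintype.card J) + f0 + 1 ≤ g * (a - k0) →
    g * (Fintype.card J' * (a + S - s)) + f0 + 1 ≤ (k0 + 1) * (S + 1) →
    ∀ J0 : Finset ℕ, (∀ e ∈ J0, e < a) → (∀ e ∈ J0, ∃ j, σ j = e % 2 ∧ ψ j = PowerSeries.X ^ e) →
    (∀ k ≤ k0, ∃ j, σ j = k % 2 ∧ ψ j = PowerSeries.X ^ k) →
    (∀ k ≤ k0, ∀ r ≤ S, ∃ α : J → ℝ, (∀ j, α j ≠ 0 → σ j = (k + r) % 2) ∧ ∀ m < a,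
      PowerSeries.coeff m (PowerSeries.X ^ k *
        hs ℝ r (zp ℝ (a + S) (fun i => zr i - (τ (z i) + ∑ x, τ (c i x) * v x)))) =
          ∑ j, α j * τ (PowerSeries.coeff m (ψ j))) →
    (f0 : ℝ) ^ 2 ≤
      C * Module.finrank ℚ K * ((k0 : ℝ) + 1) * (g : ℝ) ^ 2 * (1 + Real.log g) *
        (((a : ℝ) - J0.card) + Fintype.card J' * ((a + S - s : ℕ) : ℝ)) * (1 + Real.log a) := by
  obtain ⟨Cst, CL, hCst, hCL, HNR⟩ := HNR
  have hC1 : 1 ≤ Cst := by linarith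
  refine ⟨8 * (CL + 1) * (68 + 12 * Real.log Cst), by
    have := Real.log_nonneg hC1
    positivity, ?_⟩
  intro K _ _ τ g S k0 a s f0 hg ha hga hSa J _ ψ σ hσ hψ z J' _ v c hc hi h1 J0 hJ0 hJ1 H0 H1
  obtain ⟨Lx, hLx, hLx2, hNR⟩ := HNR g S k0 a hg ha
  obtain ⟨D0, hD0, Λ, hΛ, M0, hM0⟩ := sid_one τ g S k0 a s f0 Lx Cst hCst hLx hNR hg ha ψ σ hσ hψ z
    v c hc hi h1 J0 hJ0 hJ1 H0 H1
  have hg' : (1 : ℝ) ≤ g := by exact_mod_cast hg
  have ha' : (1 : ℝ) ≤ a := by exact_mod_cast ha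
  have hga' : (g : ℝ) ≤ a := by exact_mod_cast hga
  have hSa' : (S : ℝ) ≤ a := by exact_mod_cast hSa
  have hk0 : (0 : ℝ) ≤ k0 := by positivity
  have hS0 : (0 : ℝ) ≤ S := by positivity
  have hLx' : (0 : ℝ) < Lx := by exact_mod_cast hLx
  have hJc : J0.card ≤ a := by
    have := card_le_card (fun e he => mem_range.2 (hJ0 e he) : J0 ⊆ range a)
    rwa [card_range] at this
  have hlg : 0 ≤ Real.log g := Real.log_nonneg hg'
  obtain ⟨ρ, hρ⟩ : ∃ ρ : ℝ, ρ = (1 / 2) ^ ((1 : ℝ) / (2 * ((k0 + 1) * Lx : ℕ))) := ⟨_, rfl⟩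
  have hKpos : (0 : ℝ) < ((k0 + 1) * Lx : ℕ) := by
    have : 0 < (k0 + 1) * Lx := by positivity
    exact_mod_cast this
  have hρ0 : 0 < ρ := by
    rw [hρ]
    exact Real.rpow_pos_of_pos (by norm_num) _
  have hρ1 : ρ < 1 := by
    rw [hρ]
    exact Real.rpow_lt_one (by norm_num) (by norm_num) (by positivity)
  have hθ : -Real.log ρ = Real.log 2 / (2 * (((k0 : ℝ) + 1) * Lx)) := by
    rw [hρ, Real.log_rpow (by norm_num), one_div (2 : ℝ), Real.log_inv]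
    push_cast
    ring
  have hX := limit_arg _ _ _ (max M0 1) (fun M hM => by
    have hM1 : 1 ≤ M := (le_max_right _ _).trans hM
    obtain ⟨R, T, hR2, hT1, hT2, hR3⟩ := hM0 M ((le_max_left _ _).trans hM)
    rw [← hρ] at hR3
    refine cord_log D0 (a + S + 1) a g J0.card ((a + 1).factorial * 2 ^ (a + 1))
      ((a + S + 1) * f0) ((k0 + 1) * ((S + 1) * (a + S + 1))) R M
      (g * (a + S + 1) * ((a - J0.card) + Fintype.card J' * (a + S - s))) T
      (Module.finrank ℚ K) Λ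
      (Cst * ((g : ℝ) + 2) * (a + S + 1)) ρ hΛ hD0 (by omega) hg
      (Nat.mul_pos (Nat.factorial_pos _) (by positivity)) hM1 ?_ hT1 ?_ ?_ hρ0 hρ1 ?_
    · refine hR2.trans (le_of_eq ?_)
      ring
    · exact hT2
    · have h1 : 1 * 1 ≤ ((g : ℝ) + 2) * (a + S + 1) :=
        mul_le_mul (by linarith) (by linarith) (by norm_num) (by positivity)
      have h2 : 1 * 1 ≤ Cst * (((g : ℝ) + 2) * (a + S + 1)) :=
        mul_le_mul hC1 (by linarith) (by norm_num) (by positivity)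
      linarith
    · have e1 : (k0 + 1) * ((S + 1) * (a + S + 1)) * M = (k0 + 1) * ((S + 1) * ((a + S + 1) * M)) := by
        ring
      have e2 : (a + S + 1) * f0 * M = ((a + S + 1) * M) * f0 := by ring
      rw [e1, e2]
      exact hR3)
  refine cord_final (θ := -Real.log ρ) (l256 := Real.log 256) (l2 := Real.log 2)
    (l4 := Real.log 4) (lC := Real.log Cst)
    (lB := Real.log (2 * g * ((a : ℝ) + S + 1))) (CL := CL + 1)
    (lQ := Real.log (Cst * ((g : ℝ) + 2) * ((a : ℝ) + S + 1))) (A := (a : ℝ) + S + 1) (Lx := Lx)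
    (a := (a : ℝ)) (f := (f0 : ℝ)) (w := ((a : ℝ) - J0.card) + Fintype.card J' * ((a + S - s : ℕ) : ℝ))
    (Nat.cast_nonneg _) hg' (by linarith) ?_ (by linarith) hk0 hLx' ?_
    (Real.log_nonneg ha') (Real.log_nonneg hC1) hθ ?_ ?_ ?_ ?_ ?_ ?_
  · have h2 : (J0.card : ℝ) ≤ a := by exact_mod_cast hJc
    have h3 : (0 : ℝ) ≤ (Fintype.card J' : ℝ) * ((a + S - s : ℕ) : ℝ) := by positivity
    linarith
  · have : CL * (1 + Real.log g) ≤ (CL + 1) * (1 + Real.log g) :=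
      mul_le_mul_of_nonneg_right (by linarith) (by linarith)
    linarith
  · have := Real.log_two_gt_d9
    linarith
  · have e1 : Real.log 256 = 8 * Real.log 2 := by
      rw [show (256 : ℝ) = 2 ^ 8 by norm_num, Real.log_pow]; norm_num
    rw [e1]
    have := Real.log_two_lt_d9
    linarith
  · exact cord_log9 ha' (by positivity) (by nlinarith)
  · have e1 : Cst * ((g : ℝ) + 2) * ((a : ℝ) + S + 1) = Cst * (((g : ℝ) + 2) * ((a : ℝ) + S + 1)) := by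
      ring
    rw [e1, Real.log_mul (by positivity) (by positivity)]
    have := cord_log9 ha' (y := ((g : ℝ) + 2) * ((a : ℝ) + S + 1)) (by positivity) (by nlinarith)
    linarith
  · have e1 : Real.log 4 = 2 * Real.log 2 := by
      rw [show (4 : ℝ) = 2 ^ 2 by norm_num, Real.log_pow]; norm_num
    rw [e1]
    have := Real.log_two_lt_d9
    linarith
  · push_cast [Nat.cast_sub hJc] at hX
    linarith

end Pool.Agent.SID
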