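import Pool.Agent.DP.CZP

/-!
# SID: the Casorati estimate, companions and conditions together
-/

namespace Pool.Agent.SID

open Polynomial Pool.Agent.ZC Pool.Agent.SI Pool.Agent.DM Pool.Agent.DP

variable {K : Type*} [Field K]

theorem wMat_rowx {ρ d : ℕ} (u : Fin d → K[X]) (den : K[X]) (num : Fin ρ → Fin d → K[X])
    (η : Fin d → ℕ → PowerSeries K) (v : Fin ρ → PowerSeries K) (a L : ℕ)
    (hrel : ∀ l ≤ L, (PowerSeries.X : PowerSeries K) ^ a ∣ ∑ z, loc K l (u z) * η z l)
    (hshift : ∀ l < L, ∀ z, loc K (l + 1) den * (η z l - η z (l + 1)) =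
      ∑ e, v e * loc K (l + 1) (num e z))
    (l : ℕ) (hl : ρ + d ≤ l + 1) (hlL : l ≤ L) (i : Fin ρ ⊕ Fin d) :
    (PowerSeries.X : PowerSeries K) ^ a ∣ ∑ e, loc K l (wMat den u num i (Sum.inl e)) * v e +
      ∑ z : Fin d, loc K l (wMat den u num i (Sum.inr z)) * (loc K l (denK den (ρ + d)) * η z l) := by
  set s : ℕ := ((finSumFinEquiv i : Fin (ρ + d)) : ℕ) with hs
  have hsN : s < ρ + d := (finSumFinEquiv i : Fin (ρ + d)).2
  -- the shift of `η`
  have hη : ∀ z, ∀ s : ℕ, s < ρ + d → loc K l (denK den (ρ + d)) * η z (l - s) =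
      loc K l (denK den (ρ + d)) * η z l +
        ∑ r ∈ Finset.range s, ∑ e, v e * loc K l (numK den (num e z) (ρ + d) r) := by
    intro z s
    induction s with
    | zero => intro _; simp
    | succ s ih =>
      intro hsk
      rw [Finset.sum_range_succ, ← add_assoc, ← ih (by omega)]
      have h2 := hshift (l - (s + 1)) (by omega) z
      have h3 : l - (s + 1) + 1 = l - s := by omega
      rw [h3] at h2
      have h4 : loc K l (denK den (ρ + d)) = loc K (l - s) den *
          loc K l (∏ r' ∈ (Finset.range (ρ + d)).erase s, den.comp (X + C (r' : K))) := by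
        rw [← loc_shift l s (by omega), ← map_mul]
        unfold denK
        rw [Finset.mul_prod_erase (Finset.range (ρ + d)) (fun r' => den.comp (X + C (r' : K)))
          (Finset.mem_range.2 (by omega))]
      have h5 : ∑ e, v e * loc K l (numK den (num e z) (ρ + d) s) =
          loc K l (∏ r' ∈ (Finset.range (ρ + d)).erase s, den.comp (X + C (r' : K))) *
            ∑ e, v e * loc K (l - s) (num e z) := by
        rw [Finset.mul_sum]
        refine Finset.sum_congr rfl fun e _ => ?_
        unfold numK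
        rw [map_mul, loc_shift l s (by omega)]
        ring
      rw [h5, ← h2, h4]
      ring
  have h6 : ∑ e, loc K l (wMat den u num i (Sum.inl e)) * v e +
      ∑ z : Fin d, loc K l (wMat den u num i (Sum.inr z)) *
        (loc K l (denK den (ρ + d)) * η z l) = loc K l (denK den (ρ + d)) *
      ∑ z, loc K (l - s) (u z) * η z (l - s) := by
    simp only [wMat, Matrix.of_apply, Sum.elim_inl, Sum.elim_inr, bcol, map_sum, map_mul]
    rw [← hs]
    have h7 : ∑ e, (∑ z, loc K l ((u z).comp (X + C (s : K))) *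
        ∑ r ∈ Finset.range s, loc K l (numK den (num e z) (ρ + d) r)) * v e =
        ∑ z, loc K l ((u z).comp (X + C (s : K))) *
          ∑ r ∈ Finset.range s, ∑ e, v e * loc K l (numK den (num e z) (ρ + d) r) := by
      simp only [Finset.sum_mul, Finset.mul_sum]
      rw [Finset.sum_comm]
      refine Finset.sum_congr rfl fun z _ => ?_
      rw [Finset.sum_comm]
      refine Finset.sum_congr rfl fun r _ => Finset.sum_congr rfl fun e _ => ?_
      ring
    rw [h7, ← Finset.sum_add_distrib, Finset.mul_sum]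
    refine Finset.sum_congr rfl fun z _ => ?_
    have h8 := hη z s hsN
    rw [loc_shift l s (by omega)]
    linear_combination (-(loc K (l - s) (u z))) * h8
  rw [h6]
  exact Dvd.dvd.mul_left (hrel _ (by omega)) _

/-- the conditions at a pole, together with the relation -/
noncomputable def polemapx {ρ d : ℕ} (a l : ℕ) (v : Fin ρ → PowerSeries K)
    (w : Fin d → PowerSeries K) {Q : Type*}
    [AddCommGroup Q] [Module K Q] (T : (Fin d → K[X]) →ₗ[K] Q) :
    (Fin ρ ⊕ Fin d → K[X]) →ₗ[K] (Fin a → K) × Q where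
  toFun r := (fun m => PowerSeries.coeff (m : ℕ) (∑ e, loc K l (r (Sum.inl e)) * v e +
      ∑ z : Fin d, loc K l (r (Sum.inr z)) * w z), T (fun z => r (Sum.inr z)))
  map_add' r r' := by
    refine Prod.ext ?_ ?_
    · funext m
      simp only [Pi.add_apply, map_add, add_mul, Finset.sum_add_distrib, Prod.fst_add]
      ring
    · rw [Prod.snd_add, ← map_add]
      rfl
  map_smul' c r := by
    have hc : ∀ f : K[X], loc K l (c • f) = PowerSeries.C c * loc K l f := by
      intro f
      rw [smul_eq_C_mul, map_mul, loc_apply, C_comp, Polynomial.coe_C]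
    refine Prod.ext ?_ ?_
    · funext m
      simp only [Pi.smul_apply, hc, mul_assoc, ← Finset.mul_sum, ← mul_add,
        PowerSeries.coeff_C_mul, Prod.smul_fst, smul_eq_mul, RingHom.id_apply]
    · rw [Prod.smul_snd, RingHom.id_apply, ← map_smul]
      rfl

theorem polemapx_fst {ρ d : ℕ} (a l : ℕ) (v : Fin ρ → PowerSeries K) (w : Fin d → PowerSeries K)
    {Q : Type*} [AddCommGroup Q] [Module K Q] (T : (Fin d → K[X]) →ₗ[K] Q)
    (r : Fin ρ ⊕ Fin d → K[X]) :
    (polemapx a l v w T r).1 = 0 ↔ (PowerSeries.X : PowerSeries K) ^ a ∣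
      ∑ e, loc K l (r (Sum.inl e)) * v e + ∑ z : Fin d, loc K l (r (Sum.inr z)) * w z := by
  rw [PowerSeries.X_pow_dvd_iff]
  constructor
  · intro h m hm
    exact congrFun h ⟨m, hm⟩
  · intro h
    funext m
    exact h m m.2

theorem polemapx_rank {ρ d : ℕ} (a l k0 : ℕ) (v : Fin ρ → PowerSeries K) (i0 : Fin ρ)
    (hv : ¬ (PowerSeries.X : PowerSeries K) ^ (k0 + 1) ∣ v i0)
    (w : Fin d → PowerSeries K) {Q : Type*}
    [AddCommGroup Q] [Module K Q] [FiniteDimensional K Q] (T : (Fin d → K[X]) →ₗ[K] Q) :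
    (a - k0) + Module.finrank K (LinearMap.range T) ≤
      Module.finrank K (LinearMap.range (polemapx a l v w T)) := by
  classical
  set V := LinearMap.range (polemapx a l v w T) with hV
  set φ : V →ₗ[K] Q := (LinearMap.snd K (Fin a → K) Q) ∘ₗ V.subtype with hφ
  have h1 := LinearMap.finrank_range_add_finrank_ker φ
  have h2 : Module.finrank K (LinearMap.range T) ≤ Module.finrank K (LinearMap.range φ) := by
    apply Submodule.finrank_mono
    rintro _ ⟨r, rfl⟩
    exact ⟨⟨polemapx a l v w T (Sum.elim 0 r), ⟨_, rfl⟩⟩, rfl⟩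
  have h3 : a - k0 ≤ Module.finrank K (LinearMap.ker φ) := by
    -- the polynomial with prescribed expansion
    let f : (Fin (a - k0) → K) →ₗ[K] K[X] :=
      { toFun := fun c => (∑ m : Fin (a - k0), C (c m) * X ^ (m : ℕ)).comp (X + C (l : K))
        map_add' := fun c c' => by
          rw [← add_comp, ← Finset.sum_add_distrib]
          congr 1
          refine Finset.sum_congr rfl fun m _ => ?_
          rw [Pi.add_apply, C_add, add_mul]
        map_smul' := fun x c => by
          rw [RingHom.id_apply, ← smul_comp, Finset.smul_sum]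
          congr 1
          refine Finset.sum_congr rfl fun m _ => ?_
          rw [Pi.smul_apply, smul_eq_mul, C_mul, smul_eq_C_mul, mul_assoc] }
    have hf : ∀ c, loc K l (f c) =
        ((∑ m : Fin (a - k0), C (c m) * X ^ (m : ℕ) : K[X]) : PowerSeries K) := by
      intro c
      show loc K l ((∑ m : Fin (a - k0), C (c m) * X ^ (m : ℕ)).comp (X + C (l : K))) = _
      rw [loc_apply, comp_assoc]
      have : (X + C (l : K)).comp (X - C (l : K)) = X := by simp
      rw [this, comp_X]
    let g : (Fin (a - k0) → K) →ₗ[K] (Fin ρ ⊕ Fin d → K[X]) :=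
      LinearMap.single K (fun _ : Fin ρ ⊕ Fin d => K[X]) (Sum.inl i0) ∘ₗ f
    have hg1 : ∀ c z, g c (Sum.inr z) = 0 := by
      intro c z
      show (Pi.single (Sum.inl i0) (f c) : Fin ρ ⊕ Fin d → K[X]) (Sum.inr z) = 0
      rw [Pi.single_eq_of_ne (by simp)]
    have hg2 : ∀ c e, g c (Sum.inl e) = if e = i0 then f c else 0 := by
      intro c e
      show (Pi.single (Sum.inl i0) (f c) : Fin ρ ⊕ Fin d → K[X]) (Sum.inl e) = _
      by_cases he : e = i0
      · rw [he, Pi.single_eq_same, if_pos rfl]
      · rw [Pi.single_eq_of_ne (by simpa using he), if_neg he]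
    let G : (Fin (a - k0) → K) →ₗ[K] V :=
      LinearMap.codRestrict V (polemapx a l v w T ∘ₗ g) (fun c => ⟨g c, rfl⟩)
    have hG : ∀ c, φ (G c) = 0 := by
      intro c
      show T (fun z => g c (Sum.inr z)) = 0
      have : (fun z => g c (Sum.inr z)) = 0 := funext fun z => hg1 c z
      rw [this, map_zero]
    refine le_trans (le_of_eq ?_) (LinearMap.finrank_le_finrank_of_injective
      (f := LinearMap.codRestrict (LinearMap.ker φ) G hG) ?_)
    · simp
    · rw [injective_iff_map_eq_zero]
      intro c hc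
      have h4 : (polemapx a l v w T (g c)).1 = 0 := by
        have h5 := congrArg (fun x : LinearMap.ker φ => ((x : V) : (Fin a → K) × Q).1) hc
        exact h5
      rw [polemapx_fst] at h4
      simp only [hg1, hg2, map_zero, zero_mul, Finset.sum_const_zero, add_zero] at h4
      have h5 : ∑ e, loc K l (if e = i0 then f c else 0) * v e = loc K l (f c) * v i0 := by
        rw [Finset.sum_eq_single i0]
        · rw [if_pos rfl]
        · intro e _ he
          rw [if_neg he, map_zero, zero_mul]
        · intro h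
          exact absurd (Finset.mem_univ _) h
      rw [h5, hf] at h4
      have h6 := pow_dvd_left_of_mul h4 hv
      rw [PowerSeries.X_pow_dvd_iff] at h6
      funext m
      have h7 := h6 m m.2
      rw [Polynomial.coeff_coe, finsetSum_coeff] at h7
      simp only [coeff_C_mul, coeff_X_pow] at h7
      rw [Finset.sum_eq_single m] at h7
      · simpa using h7
      · intro j _ hj
        rw [if_neg, mul_zero]
        intro h0
        exact hj (Fin.ext h0.symm)
      · intro h0
        exact absurd (Finset.mem_univ _) h0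
  omega

/-- **Casorati estimate** -/
theorem czx [CharZero K] {ρ d : ℕ} (u : Fin d → K[X]) (hu : LinearIndependent K u) (D : ℕ)
    (hD : ∀ z, (u z).natDegree ≤ D) (η : Fin d → ℕ → PowerSeries K) (v : Fin ρ → PowerSeries K)
    (a L k0 : ℕ) (hrel : ∀ l ≤ L, (PowerSeries.X : PowerSeries K) ^ a ∣
      ∑ z, loc K l (u z) * η z l)
    (den : K[X]) (hden : den ≠ 0) (num : Fin ρ → Fin d → K[X])
    (hnum : ∀ e z, (num e z).natDegree ≤ den.natDegree)
    (hshift : ∀ l < L, ∀ z, loc K (l + 1) den * (η z l - η z (l + 1)) =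
      ∑ e, v e * loc K (l + 1) (num e z))
    (hns : ∀ c : Fin ρ → K, c ≠ 0 → ∀ α : Fin d → FractionRing K[X], ¬ ∀ z,
      ∑ e, emb K (C (c e)) * (emb K (num e z) / emb K den) = α z - shf K (α z))
    (i0 : Fin ρ) (hv : ¬ (PowerSeries.X : PowerSeries K) ^ (k0 + 1) ∣ v i0)
    {Q : Type*} [AddCommGroup Q] [Module K Q] [FiniteDimensional K Q]
    (T : K → (Fin d → K[X]) →ₗ[K] Q)
    (hT1 : ∀ x r, T x r = 0 → T x ((X - C x) • r) = 0)
    (hT2 : ∀ x, ∃ m : ℕ, ∀ r, T x ((X - C x) ^ m • r) = 0)
    (S1 : Finset ℕ) (hS1 : ∀ l ∈ S1, ρ + d ≤ l + 1 ∧ l ≤ L) (S2 : Finset K)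
    (hS12 : ∀ l ∈ S1, -(l : K) ∉ S2)
    (hT3 : ∀ l ∈ S1, ∀ s < ρ + d, T (-(l : K)) (fun z => (u z).comp (X + C (s : K))) = 0)
    (hT4 : ∀ x ∈ S2, ∀ s < ρ + d, T x (fun z => (u z).comp (X + C (s : K))) = 0) :
    ∑ l ∈ S1, ((a - k0) + Module.finrank K (LinearMap.range (T (-(l : K))))) +
      ∑ x ∈ S2, Module.finrank K (LinearMap.range (T x)) ≤
        ρ * ((ρ + d) * den.natDegree + D) + d * D := by
  classical
  have hdet : (wMat den u num).det ≠ 0 := by
    intro h0
    obtain ⟨c, β, hc, hβ⟩ := wMat_det u hu den hden num h0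
    exact hns c hc β hβ
  refine le_trans ?_ (natDegree_wMat_le den u num D hD hnum)
  -- the orders
  have ho1 : ∀ l ∈ S1, (X - C (-(l : K))) ^
      ((a - k0) + Module.finrank K (LinearMap.range (T (-(l : K))))) ∣ (wMat den u num).det := by
    intro l hl
    obtain ⟨m, hm⟩ := hT2 (-(l : K))
    refine (pow_dvd_pow _ (polemapx_rank a l k0 v i0 hv
      (fun z => loc K l (denK den (ρ + d)) * η z l) (T (-(l : K))))).trans ?_
    have hX : ∀ (n : ℕ) (r : Fin ρ ⊕ Fin d → K[X]),
        ∑ e, loc K l (((X - C (-(l : K))) ^ n • r) (Sum.inl e)) * v e +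
        ∑ z : Fin d, loc K l (((X - C (-(l : K))) ^ n • r) (Sum.inr z)) *
          (loc K l (denK den (ρ + d)) * η z l) =
        PowerSeries.X ^ n * (∑ e, loc K l (r (Sum.inl e)) * v e +
          ∑ z : Fin d, loc K l (r (Sum.inr z)) * (loc K l (denK den (ρ + d)) * η z l)) := by
      intro n r
      simp only [Pi.smul_apply, smul_eq_mul, map_mul, map_pow, loc_X_add]
      rw [mul_add, Finset.mul_sum, Finset.mul_sum]
      congr 1
      · refine Finset.sum_congr rfl fun z _ => ?_
        ring
      · refine Finset.sum_congr rfl fun z _ => ?_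
        ring
    refine gl (-(l : K)) _ ?_ (a + m) ?_ _ ?_
    · intro r hr
      have h0 : (polemapx a l v (fun z => loc K l (denK den (ρ + d)) * η z l)
        (T (-(l : K))) r).1 = 0 := by
        rw [hr]; rfl
      have h0' : T (-(l : K)) (fun z => r (Sum.inr z)) = 0 := congrArg Prod.snd hr
      refine Prod.ext ?_ ?_
      · rw [Prod.fst_zero, polemapx_fst]
        rw [polemapx_fst] at h0
        have := hX 1 r
        rw [pow_one] at this
        rw [this]
        exact Dvd.dvd.mul_left h0 _
      · exact hT1 _ _ h0'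
    · intro r
      refine Prod.ext ?_ ?_
      · rw [Prod.fst_zero, polemapx_fst]
        rw [hX, pow_add, mul_assoc]
        exact Dvd.intro _ rfl
      · show T (-(l : K)) (fun z => ((X - C (-(l : K))) ^ (a + m) • r) (Sum.inr z)) = 0
        have : (fun z : Fin d => ((X - C (-(l : K))) ^ (a + m) • r) (Sum.inr z)) =
            (X - C (-(l : K))) ^ m • ((X - C (-(l : K))) ^ a • fun z : Fin d => r (Sum.inr z)) := by
          rw [smul_smul, ← pow_add, add_comm m a]
          rfl
        rw [this]
        exact hm _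
    · intro i
      refine Prod.ext ?_ ?_
      · rw [Prod.fst_zero, polemapx_fst]
        exact wMat_rowx u den num η v a L hrel hshift l (hS1 l hl).1 (hS1 l hl).2 i
      · exact hT3 l hl _ (finSumFinEquiv i : Fin (ρ + d)).2
  have ho2 : ∀ x ∈ S2, (X - C x) ^ (Module.finrank K (LinearMap.range (T x))) ∣
      (wMat den u num).det := by
    intro x hx
    obtain ⟨m, hm⟩ := hT2 x
    set T' : (Fin ρ ⊕ Fin d → K[X]) →ₗ[K] Q := T x ∘ₗ (LinearMap.funLeft K K[X] Sum.inr) with hT'
    have hr : LinearMap.range T' = LinearMap.range (T x) := by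
      rw [hT', LinearMap.range_comp_of_range_eq_top]
      rw [LinearMap.range_eq_top]
      exact LinearMap.funLeft_surjective_of_injective K K[X] _ Sum.inr_injective
    rw [← hr]
    refine gl x T' ?_ m ?_ _ ?_
    · intro r hr
      exact hT1 x _ hr
    · intro r
      exact hm _
    · intro i
      exact hT4 x hx _ (finSumFinEquiv i : Fin (ρ + d)).2
  -- the sum
  set e : K → ℕ := fun x => if x ∈ S2 then Module.finrank K (LinearMap.range (T x)) else
    (a - k0) + Module.finrank K (LinearMap.range (T x)) with he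
  set S1' : Finset K := S1.image fun l : ℕ => -(l : K) with hS1'
  have hinj : Set.InjOn (fun l : ℕ => -(l : K)) S1 := by
    intro x _ y _ hxy
    simp only [neg_inj] at hxy
    exact_mod_cast hxy
  have hdisj : Disjoint S1' S2 := by
    rw [Finset.disjoint_left]
    intro x hx
    rw [hS1', Finset.mem_image] at hx
    obtain ⟨l, hl, rfl⟩ := hx
    exact hS12 l hl
  have h5 := sum_le_natDegree hdet (S1' ∪ S2) e (by
    intro x hx
    rw [Finset.mem_union] at hx
    by_cases hx2 : x ∈ S2
    · rw [he]
      simp only [if_pos hx2]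
      exact ho2 x hx2
    · rcases hx with hx | hx
      · rw [he]
        simp only [if_neg hx2]
        rw [hS1', Finset.mem_image] at hx
        obtain ⟨l, hl, rfl⟩ := hx
        exact ho1 l hl
      · exact absurd hx hx2)
  rw [Finset.sum_union hdisj, hS1', Finset.sum_image hinj] at h5
  refine le_trans (le_of_eq ?_) h5
  congr 1
  · refine Finset.sum_congr rfl fun l hl => ?_
    rw [he]
    simp only [if_neg (hS12 l hl)]
  · refine Finset.sum_congr rfl fun x hx => ?_
    rw [he]
    simp only [if_pos hx]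

end Pool.Agent.SID
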