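import Pool.Agent.SID.FMX
import Pool.Agent.SI.ZES
import Pool.Agent.ZC.CORA

/-!
# SID, zero estimate: dictionary between combinations of rows and operators
-/

namespace Pool.Agent.SID

open Finset Polynomial Pool.Agent.ZC Pool.Agent.SI Pool.Agent.DM

variable {K : Type*} [Field K]

/-- right form of the combination `x` -/
noncomputable def fxx (k0 S P M p q : ℕ) (x : Fin (k0 + 1) × Fin (S + 1) × Fin P → K)
    (β r : ℕ) : K[X] :=
  if h : β < k0 + 1 ∧ r < S + 1 then
    pw p ((β + r) % 2) (Am K M q * ∑ j, C (x (⟨β, h.1⟩, ⟨r, h.2⟩, j)) * Cn K M (j : ℕ)) else 0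

/-- left form of the combination `x` -/
noncomputable def thy (k0 S P M p q : ℕ) (x : Fin (k0 + 1) × Fin (S + 1) × Fin P → K)
    (β k : ℕ) : K[X] :=
  lf S (fxx k0 S P M p q x β) k

theorem Am_const_ne_zero [CharZero K] (M q : ℕ) :
    (2 : K) ^ (2 * q - 1) * ((bf M (2 * q - 1) : ℕ) : K)⁻¹ ≠ 0 :=
  mul_ne_zero (pow_ne_zero _ two_ne_zero)
    (inv_ne_zero (Nat.cast_ne_zero.2 (bf_pos M _).ne'))

theorem Am_ne_zero [CharZero K] (M q : ℕ) : Am K M q ≠ 0 :=
  mul_ne_zero (C_ne_zero.2 (Am_const_ne_zero M q)) (ZES_Ap_ne_zero q)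

private noncomputable def dxx_seq (K : Type*) [Field K] [CharZero K] (M : ℕ) :
    Polynomial.Sequence K where
  elems' := fun j => Cn K M j
  degree_eq' := fun j => Cn_degree K M j

private theorem dxx_sum_eq_zero [CharZero K] (M n : ℕ) (g : Fin n → K)
    (h : ∑ j : Fin n, C (g j) * Cn K M j = 0) : ∀ j, g j = 0 := by
  have h1 : LinearIndependent K (fun j : Fin n => Cn K M j) :=
    (dxx_seq K M).linearIndependent.comp (fun j : Fin n => (j : ℕ)) Fin.val_injective
  exact Fintype.linearIndependent_iff.1 h1 g (by simpa only [Polynomial.smul_eq_C_mul] using h)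

private theorem dxx_ev_mul (p l : ℕ) (f g : K[X]) : ev K p l (f * g) = ev K p l f * ev K p l g := by
  unfold ev
  rw [map_mul]

private theorem dxx_ev_sum {ι : Type*} (s : Finset ι) (p l : ℕ) (f : ι → K[X]) :
    ev K p l (∑ i ∈ s, f i) = ∑ i ∈ s, ev K p l (f i) := by
  unfold ev
  rw [map_sum]

private theorem dxx_pw_add (p e : ℕ) (f g : K[X]) : pw p e (f + g) = pw p e f + pw p e g := by
  unfold pw
  rw [add_comp, mul_add]

private theorem dxx_pw_C_mul (p e : ℕ) (c : K) (f : K[X]) :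
    pw p e (C c * f) = C c * pw p e f := by
  unfold pw
  rw [mul_comp, C_comp]
  ring

private theorem fxx_add (k0 S P M p q : ℕ) (x y : Fin (k0 + 1) × Fin (S + 1) × Fin P → K)
    (β r : ℕ) : fxx k0 S P M p q (x + y) β r = fxx k0 S P M p q x β r + fxx k0 S P M p q y β r := by
  unfold fxx
  split_ifs with h
  · rw [← dxx_pw_add, ← mul_add, ← Finset.sum_add_distrib]
    congr 2
    refine Finset.sum_congr rfl fun j _ => ?_
    rw [Pi.add_apply, C_add, add_mul]
  · rw [add_zero]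

private theorem fxx_smul (k0 S P M p q : ℕ) (c : K)
    (x : Fin (k0 + 1) × Fin (S + 1) × Fin P → K) (β r : ℕ) :
    fxx k0 S P M p q (c • x) β r = c • fxx k0 S P M p q x β r := by
  unfold fxx
  split_ifs with h
  · rw [smul_eq_C_mul, ← dxx_pw_C_mul]
    have key : ∑ j, C ((c • x) (⟨β, h.1⟩, ⟨r, h.2⟩, j)) * Cn K M (j : ℕ) =
        C c * ∑ j, C (x (⟨β, h.1⟩, ⟨r, h.2⟩, j)) * Cn K M (j : ℕ) := by
      rw [Finset.mul_sum]
      refine Finset.sum_congr rfl fun j _ => ?_
      rw [Pi.smul_apply, smul_eq_mul, C_mul, mul_assoc]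
    rw [key, mul_left_comm]
  · rw [smul_zero]

theorem thy_add (k0 S P M p q : ℕ) (x y : Fin (k0 + 1) × Fin (S + 1) × Fin P → K) :
    thy k0 S P M p q (x + y) = thy k0 S P M p q x + thy k0 S P M p q y := by
  funext β k
  simp only [Pi.add_apply, thy, lf, fxx_add, map_add, Finset.sum_add_distrib]

theorem thy_smul (k0 S P M p q : ℕ) (c : K) (x : Fin (k0 + 1) × Fin (S + 1) × Fin P → K) :
    thy k0 S P M p q (c • x) = c • thy k0 S P M p q x := by
  funext β k
  simp only [Pi.smul_apply, thy, lf, fxx_smul, map_smul, Finset.smul_sum]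

theorem thy_inj [CharZero K] (k0 S P M p q : ℕ) (x : Fin (k0 + 1) × Fin (S + 1) × Fin P → K)
    (h : ∀ β < k0 + 1, ∀ k ≤ S, thy k0 S P M p q x β k = 0) : x = 0 := by
  have h1 : ∀ β < k0 + 1, ∀ r ≤ S, fxx k0 S P M p q x β r = 0 := by
    intro β hβ r hr
    rw [← rf_lf S (fxx k0 S P M p q x β) r hr]
    unfold rf
    refine Finset.sum_eq_zero fun k hk => ?_
    rw [mem_Icc] at hk
    have h2 := h β hβ k hk.2
    unfold thy at h2
    rw [h2, map_zero, mul_zero]
  funext y
  obtain ⟨⟨β, hβ⟩, ⟨r, hr⟩, j⟩ := y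
  have h2 := h1 β hβ r (by omega)
  unfold fxx at h2
  rw [dif_pos ⟨hβ, hr⟩] at h2
  have h3 := pw_eq_zero h2
  have h4 := (mul_eq_zero.1 h3).resolve_left (Am_ne_zero M q)
  exact dxx_sum_eq_zero M _ _ h4 j

private theorem dxx_ev [CharZero K] (p l e : ℕ) (f : K[X]) :
    loc K l (pw p e f) = hl K p l ^ e * ev K p l f := by
  unfold pw
  rw [map_mul, map_pow, loc_wpol, ← ev_eq_loc]
  rfl

private theorem dxx_ev_C (p l : ℕ) (c : K) (f : K[X]) :
    ev K p l (C c * f) = PowerSeries.C c * ev K p l f := by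
  unfold ev
  rw [map_mul, Polynomial.aeval_C]
  rfl

/-- combinations of rows -/
theorem thy_row [CharZero K] (k0 S P M p q : ℕ) (x : Fin (k0 + 1) × Fin (S + 1) × Fin P → K)
    (l : ℕ) (G : PowerSeries K) :
    ∑ y : Fin (k0 + 1) × Fin (S + 1) × Fin P, PowerSeries.C (x y) *
      (PowerSeries.X ^ (y.1 : ℕ) * hs K (y.2.1 : ℕ) (hl K p l ^ (((y.1 : ℕ) + (y.2.1 : ℕ)) % 2) *
        ev K p l (Am K M q * Cn K M (y.2.2 : ℕ)) * G)) =
      ∑ β ∈ range (k0 + 1), PowerSeries.X ^ β *
        ∑ k ∈ range (S + 1), loc K l (thy k0 S P M p q x β k) * hs K k G := by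
  have h1 : ∀ β : Fin (k0 + 1), ∑ y : Fin (S + 1) × Fin P,
      PowerSeries.C (x (β, y)) * (PowerSeries.X ^ (β : ℕ) *
        hs K (y.1 : ℕ) (hl K p l ^ (((β : ℕ) + (y.1 : ℕ)) % 2) *
        ev K p l (Am K M q * Cn K M (y.2 : ℕ)) * G)) =
      PowerSeries.X ^ (β : ℕ) *
        ∑ r ∈ range (S + 1), hs K r (loc K l (fxx k0 S P M p q x β r) * G) := by
    intro β
    rw [Fintype.sum_prod_type, Finset.sum_range, Finset.mul_sum]
    refine Finset.sum_congr rfl fun r _ => ?_
    unfold fxx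
    rw [dif_pos ⟨β.2, r.2⟩, dxx_ev, dxx_ev_mul, dxx_ev_sum, Finset.mul_sum, Finset.mul_sum,
      Finset.sum_mul, hs_sum, Finset.mul_sum]
    refine Finset.sum_congr rfl fun j _ => ?_
    rw [dxx_ev_C, mul_left_comm, ← hs_C_mul]
    congr 2
    rw [dxx_ev_mul]
    ring
  rw [Fintype.sum_prod_type, Finset.sum_congr rfl fun β _ => h1 β]
  simp only [sum_hs_loc]
  rw [Finset.sum_range]
  rfl

private theorem dxx_split {M : Type*} [AddCommMonoid M] (N : ℕ) (g : ℕ → M) :
    ∑ i ∈ range (2 * N), g i = ∑ i ∈ range N, (g (2 * i) + g (2 * i + 1)) := by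
  induction N with
  | zero => simp
  | succ N ih =>
    rw [show 2 * (N + 1) = 2 * N + 1 + 1 by ring, Finset.sum_range_succ, Finset.sum_range_succ,
      Finset.sum_range_succ, ih, add_assoc]

private theorem dxx_sum_comp (s : Finset ℕ) (g : ℕ → K[X]) (q : K[X]) :
    (∑ k ∈ s, g k).comp q = ∑ k ∈ s, (g k).comp q := by
  have h := map_sum (compRingHom q) g s
  simpa only [coe_compRingHom_apply] using h

/-- polynomials of parity `e` in `w` -/
private theorem dxx_par [CharZero K] (p e : ℕ) (he : e < 2) (F : K[X])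
    (h : C ((-1) ^ e) * F.comp (C (-(2 * (p : K) - 1)) - X) = F) : ∃ f, F = pw p e f := by
  set L : K[X] := C (1 / 2) * X - C ((2 * (p : K) - 1) / 2) with hL
  set Q := F.comp L with hQ
  have hLw : L.comp (wpol K p) = X := by
    rw [hL, wpol]
    simp only [sub_comp, mul_comp, C_comp, X_comp]
    rw [mul_add, ← mul_assoc, ← C_mul, ← C_mul,
      show (1 / 2 : K) * 2 = 1 by rw [one_div, inv_mul_cancel₀ two_ne_zero], C_1, one_mul,
      show (1 / 2 : K) * (2 * (p : K) - 1) = (2 * (p : K) - 1) / 2 by ring]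
    ring
  have hF : F = Q.comp (wpol K p) := by
    rw [hQ, comp_assoc, hLw, comp_X]
  have hneg : C ((-1) ^ e) * Q.comp (C (-1) * X) = Q := by
    have h1 : Q.comp (C (-1) * X) = (F.comp (C (-(2 * (p : K) - 1)) - X)).comp L := by
      rw [hQ, comp_assoc, comp_assoc]
      congr 1
      rw [hL]
      simp only [sub_comp, mul_comp, C_comp, X_comp]
      rw [show (C (-(2 * (p : K) - 1)) : K[X]) =
        - C ((2 * (p : K) - 1) / 2) - C ((2 * (p : K) - 1) / 2) by
          rw [← C_neg, ← C_sub]; congr 1; ring]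
      rw [show (C (-1) : K[X]) = -1 by rw [C_neg, C_1]]
      ring
    rw [h1]
    have h2 := congrArg (fun q => q.comp L) h
    simp only [mul_comp, C_comp] at h2
    exact h2
  have hco : ∀ i, (-1 : K) ^ e * (Q.coeff i * (-1) ^ i) = Q.coeff i := by
    intro i
    have h2 := congrArg (fun q => q.coeff i) hneg
    simp only [coeff_C_mul, comp_C_mul_X_coeff] at h2
    exact h2
  have hvan : ∀ i, (i + e) % 2 = 1 → Q.coeff i = 0 := by
    intro i hi
    have h2 := hco i
    have h3 : (-1 : K) ^ e * (-1) ^ i = -1 := by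
      rw [← pow_add, add_comm e i]
      exact Odd.neg_one_pow (Nat.odd_iff.2 hi)
    have h4 : (-1 : K) ^ e * (Q.coeff i * (-1) ^ i) = -Q.coeff i := by
      linear_combination (Q.coeff i) * h3
    rw [h4] at h2
    have h5 : (2 : K) * Q.coeff i = 0 := by linear_combination -h2
    exact (mul_eq_zero.1 h5).resolve_left two_ne_zero
  refine ⟨∑ i ∈ range (Q.natDegree + 1), C (Q.coeff (2 * i + e)) * X ^ i, ?_⟩
  have hsum : Q = ∑ i ∈ range (Q.natDegree + 1), C (Q.coeff (2 * i + e)) * X ^ (2 * i + e) := by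
    have h1 : Q = ∑ i ∈ range (2 * (Q.natDegree + 1)), C (Q.coeff i) * X ^ i :=
      Polynomial.as_sum_range_C_mul_X_pow' Q (by omega)
    conv_lhs => rw [h1]
    rw [dxx_split]
    refine Finset.sum_congr rfl fun i _ => ?_
    rcases (show e = 0 ∨ e = 1 by omega) with rfl | rfl
    · rw [hvan (2 * i + 1) (by omega)]; simp
    · rw [hvan (2 * i) (by omega)]; simp
  rw [hF]
  conv_lhs => rw [hsum]
  rw [pw, dxx_sum_comp, dxx_sum_comp, Finset.mul_sum]
  refine Finset.sum_congr rfl fun i _ => ?_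
  simp only [mul_comp, C_comp, pow_comp, X_comp]
  rw [← wpol_sq, ← pow_mul, pow_add]
  ring

/-- divisibility by the multiplier -/
private theorem dxx_Ap [CharZero K] (M q : ℕ) (f : K[X])
    (hz : ∀ μ < q, f.eval ((2 * (μ : K)) ^ 2) = 0) : ∃ g, f = Am K M q * g := by
  have hinj : Function.Injective (fun μ : ℕ => (2 * (μ : K)) ^ 2) := by
    intro i j h
    simp only at h
    have h2 : (2 * i) ^ 2 = (2 * j) ^ 2 := by exact_mod_cast h
    have h3 := Nat.pow_left_injective (n := 2) (by norm_num) h2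
    omega
  have hdvd : Ap K q ∣ f := by
    unfold Ap
    refine Finset.prod_dvd_of_coprime ?_ ?_
    · intro i _ j _ hij
      exact Polynomial.pairwise_coprime_X_sub_C hinj hij
    · intro k hk
      rw [Polynomial.dvd_iff_isRoot]
      exact hz k (mem_range.1 hk)
  obtain ⟨h, hh⟩ := hdvd
  obtain ⟨c, hc⟩ : ∃ c, c = (2 : K) ^ (2 * q - 1) * ((bf M (2 * q - 1) : ℕ) : K)⁻¹ := ⟨_, rfl⟩
  have hc0 : c ≠ 0 := by rw [hc]; exact Am_const_ne_zero M q
  refine ⟨C c⁻¹ * h, ?_⟩
  unfold Am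
  rw [← hc, hh]
  have h1 : (C c : K[X]) * C c⁻¹ = 1 := by rw [← C_mul, mul_inv_cancel₀ hc0, C_1]
  linear_combination (-(Ap K q * h)) * h1

/-- the node `w = 2μ` -/
noncomputable def ndx (K : Type*) [Field K] (p μ : ℕ) : K := (2 * (μ : K) - (2 * (p : K) - 1)) / 2

theorem wpol_ndx [CharZero K] (p μ : ℕ) : (wpol K p).eval (ndx K p μ) = 2 * (μ : K) := by
  rw [wpol, ndx]
  simp only [eval_add, eval_mul, eval_C, eval_X]
  field_simp
  ring

/-- one component -/
private theorem dxx_one [CharZero K] (g P p M e : ℕ)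
    (F : K[X]) (he : e < 2)
    (hpar : C ((-1) ^ e) * F.comp (C (-(2 * (p : K) - 1)) - X) = F)
    (hdeg : F.natDegree < 2 * ((g + 2) * P))
    (hz : ∀ μ < (g + 1) * P, F.eval (ndx K p μ) = 0)
    (hz0 : e = 1 → (derivative F).eval (ndx K p 0) = 0) :
    ∃ x : Fin P → K,
      pw p e (Am K M ((g + 1) * P) * ∑ j, C (x j) * Cn K M (j : ℕ)) = F := by
  obtain ⟨f, hf⟩ := dxx_par p e he F hpar
  have hfz : ∀ μ < (g + 1) * P, f.eval ((2 * (μ : K)) ^ 2) = 0 := by
    intro μ hμ
    have h3 := hz μ hμ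
    rw [hf, pw, eval_mul, eval_pow, wpol_ndx, eval_comp, ← wpol_sq, eval_pow, wpol_ndx] at h3
    rcases mul_eq_zero.1 h3 with h4 | h4
    · rcases (show e = 0 ∨ e = 1 by omega) with rfl | rfl
      · rw [pow_zero] at h4
        exact absurd h4 one_ne_zero
      · rw [pow_one] at h4
        have hμ0 : (μ : K) = 0 := (mul_eq_zero.1 h4).resolve_left two_ne_zero
        have hμ1 : μ = 0 := by exact_mod_cast hμ0
        subst hμ1
        have h5 := hz0 rfl
        rw [hf, pw, pow_one, derivative_mul, eval_add, eval_mul, eval_mul, wpol_ndx] at h5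
        have h6 : (derivative (wpol K p)).eval (ndx K p 0) = 2 := by
          unfold wpol
          simp
        rw [h6, eval_comp, ← wpol_sq, eval_pow, wpol_ndx] at h5
        have h7 : (2 : K) * f.eval ((2 * ((0 : ℕ) : K)) ^ 2) = 0 := by
          linear_combination h5 - (derivative (f.comp (wpol K p ^ 2))).eval (ndx K p 0) *
            (by push_cast; ring : (2 : K) * ((0 : ℕ) : K) = 0)
        exact (mul_eq_zero.1 h7).resolve_left two_ne_zero
    · exact h4
  obtain ⟨h, hh⟩ := dxx_Ap M ((g + 1) * P) f hfz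
  have hhdeg : h ∈ Polynomial.degreeLT K P := by
    rw [Polynomial.mem_degreeLT]
    by_cases hg0 : h = 0
    · rw [hg0, degree_zero]
      exact WithBot.bot_lt_coe _
    have hf0 : f ≠ 0 := by rw [hh]; exact mul_ne_zero (Am_ne_zero M _) hg0
    have hfc : f.comp (tp K p) ≠ 0 := by
      intro h0
      have := comp_tp_injective (K := K) p (show f.comp (tp K p) = (0 : K[X]).comp (tp K p) by
        rw [h0, zero_comp])
      exact hf0 this
    have hFd : F.natDegree = e + 2 * f.natDegree := by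
      rw [hf, pw, natDegree_mul (pow_ne_zero _ (wpol_ne_zero p)) hfc, natDegree_pow,
        natDegree_wpol, natDegree_comp_tp, mul_one]
    have hAm : (Am K M ((g + 1) * P)).natDegree = (g + 1) * P := by
      unfold Am
      rw [natDegree_C_mul (Am_const_ne_zero M _), ZES_Ap_natDegree]
    have hfd : f.natDegree = (g + 1) * P + h.natDegree := by
      rw [hh, natDegree_mul (Am_ne_zero M _) hg0, hAm]
    rw [degree_eq_natDegree hg0]
    have h1 : (g + 2) * P = (g + 1) * P + P := by ring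
    have h3 : h.natDegree < P := by omega
    exact_mod_cast h3
  obtain ⟨x, hx⟩ := exists_comb K M _ h hhdeg
  exact ⟨x, by rw [← hx, ← hh, ← hf]⟩

/-- operators with the right parity and degree which satisfy the conditions -/
theorem thy_surj [CharZero K] (k0 S g P M p : ℕ) (hP : 0 < P) (R : ℕ → ℕ → K[X])
    (hsup : ∀ β k, R β k ≠ 0 → β < k0 + 1 ∧ k ≤ S)
    (hpar : ∀ β k, C ((-1) ^ (β + k)) * (R β k).comp (C (-(2 * (p : K) - 1)) - X) = R β k)
    (hdeg : ∀ β k, (R β k).natDegree < 2 * ((g + 2) * P))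
    (hA : ∀ μ < (g + 1) * P, ∀ β < k0 + 1, ∀ r ≤ S, (rf S (R β) r).eval (ndx K p μ) = 0)
    (hA0 : ∀ β < k0 + 1, ∀ r ≤ S, (β + r) % 2 = 1 →
      (derivative (rf S (R β) r)).eval (ndx K p 0) = 0) :
    ∃ x : Fin (k0 + 1) × Fin (S + 1) × Fin P → K,
      ∀ β k, thy k0 S P M p ((g + 1) * P) x β k = R β k := by
  have key : ∀ (β : Fin (k0 + 1)) (r : Fin (S + 1)), ∃ x : Fin P → K,
      pw p (((β : ℕ) + (r : ℕ)) % 2) (Am K M ((g + 1) * P) * ∑ j, C (x j) * Cn K M (j : ℕ)) =
        rf S (R β) r := by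
    intro β r
    have hr : (r : ℕ) ≤ S := by have := r.2; omega
    refine dxx_one g P p M _ _ (Nat.mod_lt _ (by norm_num)) ?_ ?_ ?_ ?_
    · have h1 := rf_refl S (R β) (r : ℕ) (-(2 * (p : K) - 1))
      have h2 : (-1 : K) ^ (((β : ℕ) + (r : ℕ)) % 2) = (-1) ^ ((β : ℕ) + (r : ℕ)) :=
        (neg_one_pow_eq_pow_mod_two (R := K) _).symm
      have h3 : (fun k => C ((-1) ^ k) * (R β k).comp (C (-(2 * (p : K) - 1)) - X)) =
          fun k => C ((-1) ^ (β : ℕ)) * R β k := by
        funext k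
        have h4 := hpar β k
        conv_rhs => rw [← h4]
        rw [pow_add, C_mul, ← mul_assoc, ← mul_assoc, ← C_mul, ← mul_pow]
        simp
      rw [h3, rf_C_mul S (R β) r] at h1
      rw [h2, pow_add, C_mul, mul_assoc, ← h1, ← mul_assoc, ← C_mul, ← mul_pow]
      simp
    · exact natDegree_rf_lt S (R β) r _ (by positivity) fun k _ => hdeg β k
    · intro μ hμ
      exact hA μ hμ β β.2 r hr
    · intro h
      exact hA0 β β.2 r hr h
  choose x hx using key
  refine ⟨fun y => x y.1 y.2.1 y.2.2, fun β k => ?_⟩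
  by_cases hk : k ≤ S
  · unfold thy
    by_cases hβ : β < k0 + 1
    · have h1 : ∀ r ∈ Icc k S, fxx k0 S P M p ((g + 1) * P) (fun y => x y.1 y.2.1 y.2.2) β r =
          rf S (R β) r := by
        intro r hr
        rw [mem_Icc] at hr
        unfold fxx
        rw [dif_pos ⟨hβ, by omega⟩]
        exact hx ⟨β, hβ⟩ ⟨r, by omega⟩
      have h2 : lf S (fxx k0 S P M p ((g + 1) * P) (fun y => x y.1 y.2.1 y.2.2) β) k =
          lf S (rf S (R β)) k := by
        unfold lf
        exact Finset.sum_congr rfl fun r hr => by rw [h1 r hr]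
      rw [h2, lf_rf S (R β) k hk]
    · have h1 : R β k = 0 := by
        by_contra h
        exact hβ (hsup β k h).1
      rw [h1]
      unfold lf
      refine Finset.sum_eq_zero fun r _ => ?_
      unfold fxx
      rw [dif_neg (fun h => hβ h.1), map_zero]
  · have h1 : R β k = 0 := by
      by_contra h2
      exact hk (hsup β k h2).2
    rw [h1]
    unfold thy lf
    rw [Finset.Icc_eq_empty (by omega), Finset.sum_empty]

end Pool.Agent.SID
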