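import Pool.Agent.SK.ENTSK

/-!
# SID (dimension in short intervals): the extra coordinates

`eRow` is the `F` row `(k, r, j)` with `zp K T c` in place of the functional (`= SK.zRow`).
-/

namespace Pool.Agent.SID

open Finset Pool.Agent.ZC Pool.Agent.SI

/-- extra coordinate of the `F` row `(k, r, j)` at the pole `l`, coefficients `c` -/
noncomputable def eRow (K : Type*) [Field K] (M p q T : ℕ) (c : ℕ → K) (l k r j : ℕ) :
    PowerSeries K :=
  PowerSeries.X ^ k * hs K r (hl K p l ^ ((k + r) % 2) * ev K p l (Am K M q * Cn K M j) *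
    zp K T c)

theorem eRow_eq_zRow (K : Type*) [Field K] (M p q T : ℕ) (c : ℕ → K) (l k r j : ℕ) :
    eRow K M p q T c l k r j = SK.zRow K M p q T c l k r j := rfl

end Pool.Agent.SID
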