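import Mathlib

/-!
# SID: choice of the parameters

`L = δ log s (1 + log (s / W))`, `y = d + 1`: `g = ⌈16 s / W⌉`, `k0 + 1 ~ c min (W / (y L)) (√(s y))`,
`S + 1 ~ C s y / (k0 + 1)`, `f0 ~ g W / 16`, `a = s + W - S`.
-/

namespace Pool.Agent.SID

/-- real parameters `κ`, `μ` with `κ μ ≥ s y` -/
private theorem numd_kappa (C1 e s W y L X : ℝ) (hC1 : 1 ≤ C1) (he : 0 < e) (heC : 4000 * C1 * e ≤ 1)
    (hs : 1 ≤ s) (hW : 0 < W) (hWs : W ≤ s) (hy : 1 ≤ y) (hL : 1 ≤ L) (hX : 0 ≤ X)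
    (h1 : s * y ^ 2 * L ≤ e ^ 2 * W ^ 2) (h2 : X * (s * y ^ 2 * L) ≤ W ^ 2)
    (h3 : X ^ 2 * (s * y) ≤ W ^ 2) :
    ∃ κ μ : ℝ, 1 ≤ κ ∧ κ ≤ μ ∧ s * y ≤ κ * μ ∧ 1 ≤ μ ∧ μ ≤ e * W ∧ X * μ ≤ C1 * W ∧
      κ * (C1 * y * L) ≤ W ∧ κ ≤ s * y := by
  have hs0 : 0 < s := by linarith
  have hy0 : 0 < y := by linarith
  have hL0 : 0 < L := by linarith
  have hC0 : 0 < C1 := by linarith
  have hsy : 1 ≤ s * y := by nlinarith
  have he1 : e ≤ 1 := by nlinarith
  have hr : 0 ≤ Real.sqrt (s * y) := Real.sqrt_nonneg _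
  have hr2 : Real.sqrt (s * y) * Real.sqrt (s * y) = s * y := Real.mul_self_sqrt (by positivity)
  have hr1 : 1 ≤ Real.sqrt (s * y) := by
    rw [show (1 : ℝ) = Real.sqrt 1 by simp]
    exact Real.sqrt_le_sqrt hsy
  have hrs : Real.sqrt (s * y) ≤ s * y := by nlinarith
  have hyL : s * y ≤ s * y ^ 2 * L := by
    have h4 : y * 1 ≤ y * y := mul_le_mul_of_nonneg_left hy hy0.le
    have h5 : y * y * 1 ≤ y * y * L := mul_le_mul_of_nonneg_left hL (by positivity)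
    have h6 : s * y ≤ s * (y * y * L) := mul_le_mul_of_nonneg_left (by linarith) hs0.le
    calc s * y ≤ s * (y * y * L) := h6
      _ = _ := by ring
  have hrW : Real.sqrt (s * y) ≤ e * W := by
    rw [Real.sqrt_le_left (by positivity)]
    calc s * y ≤ s * y ^ 2 * L := hyL
      _ ≤ e ^ 2 * W ^ 2 := h1
      _ = (e * W) ^ 2 := by ring
  have hXr : X * Real.sqrt (s * y) ≤ W := by
    have h4 : (X * Real.sqrt (s * y)) ^ 2 ≤ W ^ 2 := by
      rw [mul_pow, Real.sq_sqrt (by positivity)]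
      exact h3
    exact (pow_le_pow_iff_left₀ (by positivity) hW.le two_ne_zero).1 h4
  have hden : 0 < C1 * y * L := by positivity
  refine ⟨min (W / (C1 * y * L)) (Real.sqrt (s * y)), max (C1 * (s * y ^ 2 * L) / W)
    (Real.sqrt (s * y)), ?_, ?_, ?_, ?_, ?_, ?_, ?_, ?_⟩
  · refine le_min ?_ hr1
    rw [one_le_div hden]
    -- (y L)^2 ≤ e^4 W^2
    have h4 : s * L ≤ s * y ^ 2 * L := by
      have : (1 : ℝ) ≤ y ^ 2 := by nlinarith
      nlinarith [mul_le_mul_of_nonneg_left this (mul_nonneg hs0.le hL0.le)]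
    have h5 : s * L ≤ e ^ 2 * s ^ 2 := by
      have : W ^ 2 ≤ s ^ 2 := pow_le_pow_left₀ hW.le hWs 2
      calc s * L ≤ e ^ 2 * W ^ 2 := h4.trans h1
        _ ≤ e ^ 2 * s ^ 2 := mul_le_mul_of_nonneg_left this (by positivity)
    have h6 : L ≤ e ^ 2 * s := by
      have h7 : s * L ≤ s * (e ^ 2 * s) := by calc
        s * L ≤ e ^ 2 * s ^ 2 := h5
        _ = _ := by ring
      exact le_of_mul_le_mul_left h7 hs0
    have h8 : (y * L) ^ 2 * s ≤ (e ^ 2 * W) ^ 2 * s := by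
      calc (y * L) ^ 2 * s = (s * y ^ 2 * L) * L := by ring
        _ ≤ (e ^ 2 * W ^ 2) * (e ^ 2 * s) := mul_le_mul h1 h6 hL0.le (by positivity)
        _ = _ := by ring
    have h9 : (y * L) ^ 2 ≤ (e ^ 2 * W) ^ 2 := le_of_mul_le_mul_right h8 hs0
    have h10 : y * L ≤ e ^ 2 * W :=
      (pow_le_pow_iff_left₀ (by positivity) (by positivity) two_ne_zero).1 h9
    have h11 : C1 * (y * L) ≤ C1 * (e ^ 2 * W) := mul_le_mul_of_nonneg_left h10 hC0.le
    have h12 : C1 * (e ^ 2 * W) ≤ W := by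
      have : C1 * e ^ 2 ≤ 1 := by nlinarith
      calc C1 * (e ^ 2 * W) = (C1 * e ^ 2) * W := by ring
        _ ≤ 1 * W := mul_le_mul_of_nonneg_right this hW.le
        _ = W := one_mul _
    calc C1 * y * L = C1 * (y * L) := by ring
      _ ≤ W := h11.trans h12
  · exact (min_le_right _ _).trans (le_max_right _ _)
  · rcases min_cases (W / (C1 * y * L)) (Real.sqrt (s * y)) with h | h
    · rw [h.1]
      calc s * y = W / (C1 * y * L) * (C1 * (s * y ^ 2 * L) / W) := by field_simp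
        _ ≤ _ := mul_le_mul_of_nonneg_left (le_max_left _ _) (by positivity)
    · rw [h.1]
      calc s * y = Real.sqrt (s * y) * Real.sqrt (s * y) := hr2.symm
        _ ≤ _ := mul_le_mul_of_nonneg_left (le_max_right _ _) hr
  · exact hr1.trans (le_max_right _ _)
  · refine max_le ?_ hrW
    rw [div_le_iff₀ hW]
    have h4 : C1 * (s * y ^ 2 * L) ≤ C1 * (e ^ 2 * W ^ 2) := mul_le_mul_of_nonneg_left h1 hC0.le
    have h5 : C1 * e ≤ 1 := by nlinarith
    calc C1 * (s * y ^ 2 * L) ≤ C1 * (e ^ 2 * W ^ 2) := h4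
      _ = (C1 * e) * (e * W * W) := by ring
      _ ≤ 1 * (e * W * W) := mul_le_mul_of_nonneg_right h5 (by positivity)
      _ = _ := one_mul _
  · rcases max_cases (C1 * (s * y ^ 2 * L) / W) (Real.sqrt (s * y)) with h | h
    · rw [h.1, mul_div_assoc', div_le_iff₀ hW]
      calc X * (C1 * (s * y ^ 2 * L)) = C1 * (X * (s * y ^ 2 * L)) := by ring
        _ ≤ C1 * W ^ 2 := mul_le_mul_of_nonneg_left h2 hC0.le
        _ = _ := by ring
    · rw [h.1]
      calc X * Real.sqrt (s * y) ≤ W := hXr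
        _ ≤ C1 * W := le_mul_of_one_le_left hW.le hC1
  · calc min (W / (C1 * y * L)) (Real.sqrt (s * y)) * (C1 * y * L)
        ≤ W / (C1 * y * L) * (C1 * y * L) :=
          mul_le_mul_of_nonneg_right (min_le_left _ _) hden.le
      _ = W := by field_simp
  · exact (min_le_right _ _).trans hrs

theorem sid_num (C : ℝ) (hC : 0 < C) : ∃ c > 0, ∃ s0 : ℕ, ∀ s ≥ s0, ∀ W ≤ s, ∀ d m δ : ℕ, 1 ≤ δ →
    ∀ X : ℝ, 0 ≤ X →
    (s : ℝ) * ((d : ℝ) + 1) ^ 2 * (δ * (Real.log s * (1 + Real.log ((s : ℝ) / W)))) ≤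
      c * (W : ℝ) ^ 2 →
    X * ((s : ℝ) * ((d : ℝ) + 1) ^ 2 * (δ * (Real.log s * (1 + Real.log ((s : ℝ) / W))))) ≤
      (W : ℝ) ^ 2 →
    X ^ 2 * ((s : ℝ) * ((d : ℝ) + 1)) ≤ (W : ℝ) ^ 2 →
    (m : ℝ) < c * X →
    ∃ g S k0 a f0 : ℕ, a + S = s + W ∧ 1 ≤ g ∧ 1 ≤ a ∧ g ≤ a ∧ S ≤ a ∧ 1 ≤ s ∧ S ≤ s ∧
      (g + 2) * (k0 + 2 + (s + k0 + m * (S + k0 + 1))) + f0 + 1 ≤ g * (a - k0) ∧
      g * (d * (a + S - s)) + f0 + 1 ≤ (k0 + 1) * (S + 1) ∧
      C * δ * ((k0 : ℝ) + 1) * (g : ℝ) ^ 2 * (1 + Real.log g) *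
        (((d : ℝ) + 1) * ((a + S - s : ℕ) : ℝ)) * (1 + Real.log a) < (f0 : ℝ) ^ 2 := by
  obtain ⟨C1, hC1def⟩ : ∃ C1 : ℝ, C1 = 16384 * max C 1 := ⟨_, rfl⟩
  have hm1 := le_max_right C 1
  have hm2 := le_max_left C 1
  have hC1 : 1 ≤ C1 := by rw [hC1def]; linarith
  have hC10 : 0 < C1 := by linarith
  obtain ⟨e, he⟩ : ∃ e : ℝ, e = 1 / (4000 * C1) := ⟨_, rfl⟩
  have he0 : 0 < e := by rw [he]; positivity
  have heC : 4000 * C1 * e ≤ 1 := by
    rw [he]
    exact (mul_one_div_cancel (by positivity)).le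
  have he1 : 4000 * e ≤ 1 := by nlinarith
  refine ⟨e ^ 2, by positivity, 400, fun s hs W hWs d m δ hδ X hX h1 h2 h3 hm => ?_⟩
  have hsr : (400 : ℝ) ≤ s := by exact_mod_cast hs
  have hs0 : (0 : ℝ) < s := by linarith
  have hWsr : (W : ℝ) ≤ s := by exact_mod_cast hWs
  have hls : 1 ≤ Real.log s := by
    rw [Real.le_log_iff_exp_le hs0]
    have := Real.exp_one_lt_d9
    linarith
  have hX0 : 0 < X := by
    rcases hX.eq_or_lt with h | h
    · rw [← h, mul_zero] at hm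
      exact absurd hm (not_lt.2 (Nat.cast_nonneg m))
    · exact h
  -- `W > 0`
  have hWpos : 0 < W := by
    rcases Nat.eq_zero_or_pos W with h | h
    · exfalso
      subst h
      have h4 : (0 : ℝ) < X ^ 2 * ((s : ℝ) * ((d : ℝ) + 1)) := by positivity
      norm_num at h3
      linarith
    · exact h
  have hW0 : (0 : ℝ) < W := by exact_mod_cast hWpos
  have hδr : (1 : ℝ) ≤ δ := by exact_mod_cast hδ
  have hlq : 0 ≤ Real.log ((s : ℝ) / W) := Real.log_nonneg (by rwa [one_le_div hW0])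
  obtain ⟨L, hLdef⟩ : ∃ L : ℝ, L = δ * (Real.log s * (1 + Real.log ((s : ℝ) / W))) := ⟨_, rfl⟩
  rw [← hLdef] at h1 h2
  have hL : 1 ≤ L := by
    rw [hLdef]
    have h4 : 1 * 1 ≤ Real.log s * (1 + Real.log ((s : ℝ) / W)) :=
      mul_le_mul hls (by linarith) (by norm_num) (by linarith)
    exact one_le_mul_of_one_le_of_one_le hδr (by linarith)
  obtain ⟨y, hydef⟩ : ∃ y : ℝ, y = (d : ℝ) + 1 := ⟨_, rfl⟩
  have hy : 1 ≤ y := by
    rw [hydef]
    have : (0 : ℝ) ≤ d := Nat.cast_nonneg d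
    linarith
  rw [← hydef] at h1 h2 h3 ⊢
  obtain ⟨κ, μ, hκ1, hκμ, hκμ2, hμ1, hμW, hXμ, hκW, hκs⟩ := numd_kappa C1 e s W y L X hC1 he0 heC
    (by linarith) hW0 hWsr hy hL hX h1 h2 h3
  have hκ0 : 0 < κ := by linarith
  -- `W ≥ 4000`
  have hWbig : 4000 ≤ (W : ℝ) := by
    have h4 : 1 ≤ e * W := hμ1.trans hμW
    nlinarith
  -- `g`
  obtain ⟨g, hg⟩ : ∃ g : ℕ, g = ⌈16 * (s : ℝ) / W⌉₊ := ⟨_, rfl⟩
  have hg1 : 16 * (s : ℝ) / W ≤ g := by rw [hg]; exact Nat.le_ceil _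
  have hg2 : (g : ℝ) < 16 * (s : ℝ) / W + 1 := by
    rw [hg]
    exact Nat.ceil_lt_add_one (by positivity)
  have hgW1 : 16 * (s : ℝ) ≤ g * W := by
    rwa [div_le_iff₀ hW0] at hg1
  have hgW2 : (g : ℝ) * W ≤ 17 * s := by
    have h4 : (g : ℝ) * W ≤ (16 * (s : ℝ) / W + 1) * W :=
      mul_le_mul_of_nonneg_right hg2.le hW0.le
    have h5 : (16 * (s : ℝ) / W + 1) * W = 16 * s + W := by field_simp
    linarith
  have hg16 : (16 : ℝ) ≤ g := by
    have h4 : (16 : ℝ) ≤ 16 * s / W := by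
      rw [le_div_iff₀ hW0]
      linarith
    linarith
  have hg16n : 16 ≤ g := by exact_mod_cast hg16
  have hg0 : (0 : ℝ) < g := by linarith
  -- `k = k0 + 1`
  obtain ⟨k, hk⟩ : ∃ k : ℕ, k = ⌊κ⌋₊ := ⟨_, rfl⟩
  have hk1 : 1 ≤ k := by
    rw [hk]
    exact Nat.le_floor (by simpa using hκ1)
  have hkκ : (k : ℝ) ≤ κ := by rw [hk]; exact Nat.floor_le hκ0.le
  have hk1r : (1 : ℝ) ≤ k := by exact_mod_cast hk1
  have hkκ2 : κ ≤ 2 * k := by
    have h4 : κ < (k : ℝ) + 1 := by rw [hk]; exact Nat.lt_floor_add_one κ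
    linarith
  have hk0 : (0 : ℝ) < k := by linarith
  -- `σ = S + 1`
  obtain ⟨σ, hσ⟩ : ∃ σ : ℕ, σ = ⌈(g : ℝ) * W * y / k⌉₊ := ⟨_, rfl⟩
  have hσ1 : (g : ℝ) * W * y ≤ k * σ := by
    have h4 : (g : ℝ) * W * y / k ≤ σ := by rw [hσ]; exact Nat.le_ceil _
    rw [div_le_iff₀ hk0] at h4
    linarith
  have hσ2 : (σ : ℝ) ≤ 35 * μ := by
    have h4 : (σ : ℝ) < (g : ℝ) * W * y / k + 1 := by
      rw [hσ]
      exact Nat.ceil_lt_add_one (by positivity)
    have h5 : (g : ℝ) * W * y / k ≤ 34 * μ := by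
      rw [div_le_iff₀ hk0]
      have h6 : (g : ℝ) * W * y ≤ 17 * s * y := mul_le_mul_of_nonneg_right hgW2 (by linarith)
      have h7 : κ * μ ≤ (2 * k) * μ := mul_le_mul_of_nonneg_right hkκ2 (by linarith)
      nlinarith
    linarith
  have hσ0 : 0 < σ := by
    rw [hσ, Nat.ceil_pos]
    positivity
  obtain ⟨S, rfl⟩ : ∃ S, σ = S + 1 := ⟨σ - 1, by omega⟩
  obtain ⟨k0, rfl⟩ : ∃ k0, k = k0 + 1 := ⟨k - 1, by omega⟩
  push_cast at hkκ hkκ2 hk0 hk1r hσ1 hσ2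
  have hkμ : (k0 : ℝ) + 1 ≤ μ := hkκ.trans hκμ
  have hμ40 : 64 * μ ≤ W / 50 := by nlinarith
  have hk0r : (0 : ℝ) ≤ k0 := Nat.cast_nonneg _
  have hSr : (0 : ℝ) ≤ S := Nat.cast_nonneg _
  have hmr : (0 : ℝ) ≤ m := Nat.cast_nonneg _
  have hSW : (S : ℝ) ≤ W := by linarith
  have hSWn : S ≤ W := by exact_mod_cast hSW
  have hkWn : k0 ≤ W := by
    have : (k0 : ℝ) ≤ W := by linarith
    exact_mod_cast this
  -- the exceptional set
  have hmS : (m : ℝ) * (S + k0 + 1) ≤ W / 16 := by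
    have h4 : (S : ℝ) + k0 + 1 ≤ 36 * μ := by linarith
    have h5 : (m : ℝ) * (S + k0 + 1) ≤ (e ^ 2 * X) * (36 * μ) :=
      mul_le_mul hm.le h4 (by positivity) (by positivity)
    have h6 : (e ^ 2 * X) * (36 * μ) = 36 * e ^ 2 * (X * μ) := by ring
    have h7 : 36 * e ^ 2 * (X * μ) ≤ 36 * e ^ 2 * (C1 * W) :=
      mul_le_mul_of_nonneg_left hXμ (by positivity)
    have h8 : 36 * e ^ 2 * (C1 * W) = (36 * e) * (C1 * e) * W := by ring
    have h9 : C1 * e ≤ 1 := by linarith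
    have h10 : (36 * e) * (C1 * e) ≤ (36 * e) * 1 := mul_le_mul_of_nonneg_left h9 (by positivity)
    have h11 : (36 * e) * (C1 * e) * W ≤ (1 / 16) * W :=
      mul_le_mul_of_nonneg_right (by linarith) hW0.le
    linarith
  -- `f0`
  obtain ⟨f0, hf0⟩ : ∃ f0 : ℕ, f0 = g * W / 16 := ⟨_, rfl⟩
  have hf1 : 16 * (f0 : ℝ) ≤ g * W := by
    have h4 : 16 * f0 ≤ g * W := by rw [hf0]; exact Nat.mul_div_le _ _
    exact_mod_cast h4
  have hf2 : (g : ℝ) * W ≤ 16 * (f0 + 1) := by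
    have h4 : g * W < 16 * (f0 + 1) := by
      rw [hf0]
      exact Nat.lt_mul_div_succ _ (by norm_num)
    have h5 : ((g * W : ℕ) : ℝ) ≤ ((16 * (f0 + 1) : ℕ) : ℝ) := by exact_mod_cast h4.le
    push_cast at h5
    exact h5
  have hgWbig : (6400 : ℝ) ≤ g * W := by linarith
  have haS : s + W - S + S = s + W := by omega
  have haW : s + W - S + S - s = W := by omega
  have hsa : s ≤ s + W - S := by omega
  refine ⟨g, S, k0, s + W - S, f0, haS, by omega, by omega, ?_, by omega, by omega, by omega,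
    ?_, ?_, ?_⟩
  · -- `g ≤ a`
    refine le_trans ?_ hsa
    have h4 : (g : ℝ) ≤ s := by
      have h5 : 16 * (s : ℝ) / W ≤ 16 * s / 4000 := by gcongr
      linarith
    exact_mod_cast h4
  · -- the first condition
    have e1 : s + W - S - k0 + (S + k0) = s + W := by omega
    have e2 : (((s + W - S - k0 : ℕ)) : ℝ) = s + W - (S + k0) := by
      have h4 : ((s + W - S - k0 + (S + k0) : ℕ) : ℝ) = ((s + W : ℕ) : ℝ) := by rw [e1]
      push_cast at h4 ⊢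
      linarith
    have h5 : (((g + 2) * (k0 + 2 + (s + k0 + m * (S + k0 + 1))) + f0 + 1 : ℕ) : ℝ) ≤
        ((g * (s + W - S - k0) : ℕ) : ℝ) := by
      rw [Nat.cast_mul g, e2]
      push_cast
      have h6 : ((g : ℝ) + 2) * (m * (S + k0 + 1)) ≤ (9 / 8 * g) * (W / 16) :=
        mul_le_mul (by linarith) hmS (by positivity) (by positivity)
      have h7 : ((g : ℝ) + 2) * (2 * (k0 + 1)) ≤ (9 / 8 * g) * (W / 16) :=
        mul_le_mul (by linarith) (by linarith) (by positivity) (by positivity)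
      have h8 : (g : ℝ) * (S + k0) ≤ g * (W / 16) :=
        mul_le_mul_of_nonneg_left (by linarith) hg0.le
      have h9 : ((g : ℝ) + 2) * s = g * s + 2 * s := by ring
      calc ((g : ℝ) + 2) * (k0 + 2 + (s + k0 + m * (S + k0 + 1))) + f0 + 1
          = ((g : ℝ) + 2) * s + ((g : ℝ) + 2) * (2 * (k0 + 1)) +
            ((g : ℝ) + 2) * (m * (S + k0 + 1)) + f0 + 1 := by ring
        _ ≤ g * s + g * W - g * (S + k0) := by linarith
        _ = _ := by ring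
    exact_mod_cast h5
  · -- the second condition
    rw [haW]
    have h5 : (((g * (d * W)) + f0 + 1 : ℕ) : ℝ) ≤ (((k0 + 1) * (S + 1) : ℕ) : ℝ) := by
      push_cast
      rw [hydef] at hσ1
      have h6 : (g : ℝ) * W * (d + 1) = g * (d * W) + g * W := by ring
      linarith
    exact_mod_cast h5
  · -- the final inequality
    rw [haW]
    have hap : (0 : ℝ) < ((s + W - S : ℕ) : ℝ) := by
      have : 0 < s + W - S := by omega
      exact_mod_cast this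
    have ha2 : ((s + W - S : ℕ) : ℝ) ≤ 2 * s := by
      have h4 : s + W - S ≤ 2 * s := by omega
      exact_mod_cast h4
    have hla : 1 + Real.log ((s + W - S : ℕ) : ℝ) ≤ 3 * Real.log s := by
      have h4 := Real.log_le_log hap ha2
      rw [Real.log_mul (by norm_num) hs0.ne'] at h4
      have := Real.log_two_lt_d9
      linarith
    have hla0 : 0 ≤ 1 + Real.log ((s + W - S : ℕ) : ℝ) := by
      have h4 : (1 : ℝ) ≤ ((s + W - S : ℕ) : ℝ) := by
        have : 1 ≤ s + W - S := by omega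
        exact_mod_cast this
      have := Real.log_nonneg h4
      linarith
    have hlg0 : 0 ≤ Real.log (g : ℝ) := Real.log_nonneg (by linarith)
    have hlg : 1 + Real.log (g : ℝ) ≤ 4 * (1 + Real.log ((s : ℝ) / W)) := by
      have h4 : (g : ℝ) ≤ 17 * (s / W) := by
        rw [mul_div_assoc', le_div_iff₀ hW0]
        exact hgW2
      have h5 := Real.log_le_log hg0 h4
      have hsW : 0 < (s : ℝ) / W := by positivity
      rw [Real.log_mul (by norm_num) hsW.ne'] at h5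
      have h6 : Real.log 17 ≤ 3 := by
        rw [Real.log_le_iff_le_exp (by norm_num)]
        have h7 : Real.exp 3 = Real.exp 1 ^ 3 := by
          rw [← Real.exp_nat_mul]; norm_num
        rw [h7]
        have h8 := Real.exp_one_gt_d9
        have h9 : (2.7182818283 : ℝ) ^ 3 ≤ Real.exp 1 ^ 3 := pow_le_pow_left₀ (by norm_num) h8.le 3
        refine le_trans ?_ h9
        norm_num
      linarith
    have hf3 : (g : ℝ) * W ≤ 32 * f0 := by linarith
    have hfs : ((g : ℝ) * W) ^ 2 ≤ 1024 * (f0 : ℝ) ^ 2 := by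
      calc ((g : ℝ) * W) ^ 2 ≤ (32 * (f0 : ℝ)) ^ 2 := pow_le_pow_left₀ (by positivity) hf3 2
        _ = _ := by ring
    have hb1 : (1 + Real.log (g : ℝ)) * (1 + Real.log ((s + W - S : ℕ) : ℝ)) ≤
        (4 * (1 + Real.log ((s : ℝ) / W))) * (3 * Real.log s) :=
      mul_le_mul hlg hla hla0 (by linarith)
    have hb2 : (δ : ℝ) * ((1 + Real.log (g : ℝ)) * (1 + Real.log ((s + W - S : ℕ) : ℝ))) ≤
        12 * L := by
      have h4 := mul_le_mul_of_nonneg_left hb1 (show (0 : ℝ) ≤ δ by linarith)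
      rw [hLdef]
      calc _ ≤ (δ : ℝ) * ((4 * (1 + Real.log ((s : ℝ) / W))) * (3 * Real.log s)) := h4
        _ = _ := by ring
    have hkey : 12288 * C * (((k0 : ℝ) + 1) * (y * L)) < W := by
      have h4 : ((k0 : ℝ) + 1) * (C1 * y * L) ≤ W :=
        (mul_le_mul_of_nonneg_right hkκ (by positivity)).trans hκW
      have h5 : 0 < ((k0 : ℝ) + 1) * (y * L) := by positivity
      have h6 : 12288 * C < C1 := by rw [hC1def]; linarith
      calc 12288 * C * (((k0 : ℝ) + 1) * (y * L)) < C1 * (((k0 : ℝ) + 1) * (y * L)) :=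
            mul_lt_mul_of_pos_right h6 h5
        _ = ((k0 : ℝ) + 1) * (C1 * y * L) := by ring
        _ ≤ W := h4
    have hfin : C * δ * ((k0 : ℝ) + 1) * (g : ℝ) ^ 2 * (1 + Real.log g) * (y * (W : ℝ)) *
        (1 + Real.log ((s + W - S : ℕ) : ℝ)) ≤
        (C * ((k0 : ℝ) + 1) * (g : ℝ) ^ 2 * (y * (W : ℝ))) * (12 * L) := by
      calc _ = (C * ((k0 : ℝ) + 1) * (g : ℝ) ^ 2 * (y * (W : ℝ))) *
            ((δ : ℝ) * ((1 + Real.log (g : ℝ)) * (1 + Real.log ((s + W - S : ℕ) : ℝ)))) := by ring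
        _ ≤ _ := mul_le_mul_of_nonneg_left hb2 (by positivity)
    have hg2W : 0 < (g : ℝ) ^ 2 * W := by positivity
    have h10 : 1024 * ((C * ((k0 : ℝ) + 1) * (g : ℝ) ^ 2 * (y * (W : ℝ))) * (12 * L)) <
        ((g : ℝ) * W) ^ 2 := by
      calc 1024 * ((C * ((k0 : ℝ) + 1) * (g : ℝ) ^ 2 * (y * (W : ℝ))) * (12 * L)) =
          (12288 * C * (((k0 : ℝ) + 1) * (y * L))) * ((g : ℝ) ^ 2 * W) := by ring
        _ < W * ((g : ℝ) ^ 2 * W) := mul_lt_mul_of_pos_right hkey hg2W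
        _ = _ := by ring
    linarith

end Pool.Agent.SID
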