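import Pool.Agent.SID.APPD
import Pool.Agent.SID.NUMD
import Pool.Agent.SK.FINSK

/-!
# SID: the dimension theorem on short intervals over number fields, integer parameters
-/

namespace Pool.Agent.SID

open Finset Pool.Agent.ZC Pool.Agent.SI Pool.Agent.SK

/-- `L = δ log s (1 + log (s / W))`, `y = dim_K V + 1` -/
theorem sid_main_of (H : CoreD) : ∃ c > 0, ∃ s0 : ℕ, ∀ (K : IntermediateField ℚ ℝ)
    [FiniteDimensional ℚ K], ∀ s ≥ s0, ∀ W ≤ s, ∀ V : Submodule K ℝ, Module.Finite K V →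
    (s : ℝ) * ((Module.finrank K V : ℝ) + 1) ^ 2 *
      (Module.finrank ℚ K * (Real.log s * (1 + Real.log ((s : ℝ) / W)))) ≤ c * (W : ℝ) ^ 2 →
    ∀ X : ℝ, 0 ≤ X →
    X * ((s : ℝ) * ((Module.finrank K V : ℝ) + 1) ^ 2 *
      (Module.finrank ℚ K * (Real.log s * (1 + Real.log ((s : ℝ) / W))))) ≤ (W : ℝ) ^ 2 →
    X ^ 2 * ((s : ℝ) * ((Module.finrank K V : ℝ) + 1)) ≤ (W : ℝ) ^ 2 →
    c * X ≤ (({i : ℕ | Odd i ∧ s < i ∧ i ≤ s + W ∧ ∀ v ∈ V, ∀ q : K, zr i ≠ q + v} : Set ℕ).ncard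
      : ℝ) := by
  classical
  obtain ⟨C, hC0, hC⟩ := sid_app H
  obtain ⟨c, hc0, s0, hc⟩ := sid_num C hC0
  refine ⟨c, hc0, s0, fun K _ s hs W hW V hfin h1 X hX h2 h3 => ?_⟩
  by_contra hlt
  push Not at hlt
  -- the exceptional set
  set I : Finset ℕ := (oddS (s + W)).filter
    (fun i => s < i ∧ ¬ ∃ v ∈ V, ∃ q : K, zr i = q + v) with hI
  have hsub : (I : Set ℕ) ⊆
      {i : ℕ | Odd i ∧ s < i ∧ i ≤ s + W ∧ ∀ v ∈ V, ∀ q : K, zr i ≠ q + v} := by
    intro i hi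
    rw [Finset.mem_coe, hI, mem_filter] at hi
    obtain ⟨h6, h7, h8⟩ := hi
    simp only [oddS, mem_filter, mem_Icc] at h6
    exact ⟨h6.2, h7, h6.1.2, fun v hv q hq => h8 ⟨v, hv, q, hq⟩⟩
  have hfinite : ({i : ℕ | Odd i ∧ s < i ∧ i ≤ s + W ∧
      ∀ v ∈ V, ∀ q : K, zr i ≠ q + v} : Set ℕ).Finite :=
    (Set.finite_Iic (s + W)).subset fun i hi => hi.2.2.1
  have hIc : (I.card : ℝ) < c * X := by
    have h6 := Set.ncard_le_ncard hsub hfinite
    rw [Set.ncard_coe_finset] at h6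
    exact lt_of_le_of_lt (by exact_mod_cast h6) hlt
  have hδ : 1 ≤ Module.finrank ℚ K := Module.finrank_pos
  obtain ⟨g, S, k0, a, f0, haS, hg, ha, hga, hSa, hs1, hSs, hi, hi1, hii⟩ :=
    hc s hs W hW (Module.finrank K V) I.card (Module.finrank ℚ K) hδ X hX h1 h2 h3 hIc
  obtain ⟨v, z, cc, hz⟩ := FINSK_data K V
  have : NumberField K := FINSK_numberField K
  have hfinal := hC K (algebraMap K ℝ) g S k0 a s (Module.finrank K V) f0 I hg ha hga hSa hs1 hSs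
    (by rw [haS]; exact filter_subset _ _)
    (fun i hi => ((mem_filter.1 hi).2).1) v z cc
    (fun i hi hsi hiI => by
      refine hz i ?_
      by_contra hP
      refine hiI (mem_filter.2 ⟨?_, hsi, hP⟩)
      rw [← haS]
      exact hi) hi hi1
  have hfr : @Module.finrank ℚ K _ _ (DivisionRing.toRatAlgebra : Algebra ℚ K).toModule =
      Module.finrank ℚ K := by
    have h : (DivisionRing.toRatAlgebra : Algebra ℚ K) = IntermediateField.algebra' K :=
      Subsingleton.elim _ _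
    rw [h]
  rw [hfr] at hfinal
  linarith

end Pool.Agent.SID
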