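import Pool.Agent.SID.CNX

/-!
# SID, zero estimate: families of parity `β + k`
-/

namespace Pool.Agent.SID

open Finset Polynomial Pool.Agent.ZC Pool.Agent.SI Pool.Agent.DM

variable {K : Type*} [Field K]

/-- homogeneous independent families -/
def FamX (B S : ℕ) {m : ℕ} (ε : Fin m → ℕ) (w : Fin m → ℕ → ℕ → K) : Prop :=
  LinearIndependent K w ∧ ∀ i β k, w i β k ≠ 0 → β < B ∧ k ≤ S ∧ (β + k) % 2 = ε i

theorem famx_eps_le {B S : ℕ} {m : ℕ} {ε : Fin m → ℕ} {w : Fin m → ℕ → ℕ → K}
    (hw : FamX B S ε w) (i : Fin m) : ε i ≤ 1 := by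
  have h0 := hw.1.ne_zero i
  obtain ⟨β, hβ⟩ := Function.ne_iff.1 h0
  obtain ⟨k, hk⟩ := Function.ne_iff.1 hβ
  have := (hw.2 i β k hk).2.2
  omega

theorem ext_famx [CharZero K] (B S : ℕ) {m : ℕ} (ε : Fin m → ℕ) (w : Fin m → ℕ → ℕ → K)
    (hw : FamX B S ε w) (p n : ℕ) (f : Fin m → K[X]) (hf : ∀ i, f i ∈ degreeLT K n)
    (hne : f ≠ 0) :
    ∃ (ζ : ℕ) (ε' : Fin ζ → ℕ) (w' : Fin ζ → ℕ → ℕ → K) (u : Fin ζ → K[X]),
      0 < ζ ∧ ζ ≤ m ∧ FamX B S ε' w' ∧ LinearIndependent K u ∧
      (∀ z, (u z).natDegree ≤ 2 * n) ∧ comb w' u = comb w (fun i => pw p (ε i) (f i)) := by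
  classical
  set v : Fin m → K[X] := fun i => pw p (ε i) (f i) with hv
  obtain ⟨κ, a, hainj, hspan, hli⟩ := exists_linearIndependent' K v
  have hκ : Finite κ := Finite.of_injective a hainj
  have : Fintype κ := Fintype.ofFinite κ
  set ζ : ℕ := Fintype.card κ with hζ
  set e : Fin ζ ≃ κ := (Fintype.equivFin κ).symm with he
  set b := Module.Basis.span hli with hb
  have hbz : ∀ z, (b z : K[X]) = v (a z) := fun z => by
    rw [hb, Module.Basis.span_apply]
    rfl
  have hmem : ∀ i, v i ∈ Submodule.span K (Set.range (v ∘ a)) := fun i => by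
    rw [hspan]
    exact Submodule.subset_span ⟨i, rfl⟩
  set c : Fin m → κ → K := fun i z => b.repr ⟨v i, hmem i⟩ z with hc
  have hexp : ∀ i, v i = ∑ z, c i z • v (a z) := by
    intro i
    have h1 := congrArg (Subtype.val) (b.sum_repr ⟨v i, hmem i⟩)
    rw [Submodule.coe_sum] at h1
    refine h1.symm.trans (Finset.sum_congr rfl fun z _ => ?_)
    rw [Submodule.coe_smul, hbz]
  have hca : ∀ z z', c (a z) z' = if z = z' then 1 else 0 := by
    intro z z'
    have h1 : (⟨v (a z), hmem (a z)⟩ : Submodule.span K (Set.range (v ∘ a))) = b z :=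
      Subtype.ext (hbz z).symm
    simp only [hc]
    rw [h1, Module.Basis.repr_self, Finsupp.single_apply]
  have hpar : ∀ i z, c i z ≠ 0 → ε i = ε (a z) := by
    intro i
    have h1 : ∑ z, (c i z * ((-1) ^ ε (a z) - (-1) ^ ε i)) • v (a z) = 0 := by
      have h2 := congrArg (fun g : K[X] => g.comp (C (-(2 * (p : K) - 1)) - X)) (hexp i)
      simp only [hv, pw_refl, Polynomial.sum_comp, smul_comp] at h2
      have h3 : C ((-1) ^ ε i) * pw p (ε i) (f i) = ∑ z, (c i z * (-1) ^ ε i) • v (a z) := by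
        have h4 : pw p (ε i) (f i) = ∑ z, c i z • v (a z) := hexp i
        rw [h4, Finset.mul_sum]
        refine Finset.sum_congr rfl fun z _ => ?_
        rw [← smul_eq_C_mul, smul_smul, mul_comm]
      rw [h3] at h2
      have h5 : ∑ z, (c i z * ((-1) ^ ε (a z) - (-1) ^ ε i)) • v (a z) =
          ∑ z, c i z • (C ((-1) ^ ε (a z)) * pw p (ε (a z)) (f (a z))) -
            ∑ z, (c i z * (-1) ^ ε i) • v (a z) := by
        rw [← Finset.sum_sub_distrib]
        refine Finset.sum_congr rfl fun z _ => ?_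
        rw [mul_sub, sub_smul]
        congr 1
        rw [← smul_eq_C_mul, smul_smul]
      rw [h5, ← h2, sub_self]
    intro z hz
    have h2 := Fintype.linearIndependent_iff.1 hli
      (fun z => c i z * ((-1) ^ ε (a z) - (-1) ^ ε i)) h1 z
    have h3 : ((-1 : K) ^ ε (a z) - (-1) ^ ε i) = 0 := by
      rcases mul_eq_zero.1 h2 with h | h
      · exact absurd h hz
      · exact h
    have e1 := famx_eps_le hw i
    have e2 := famx_eps_le hw (a z)
    by_contra hcon
    have h4 : (ε i = 0 ∧ ε (a z) = 1) ∨ (ε i = 1 ∧ ε (a z) = 0) := by omega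
    have h5 : (2 : K) ≠ 0 := two_ne_zero
    rcases h4 with ⟨h6, h7⟩ | ⟨h6, h7⟩
    · rw [h6, h7] at h3
      apply h5
      linear_combination -h3
    · rw [h6, h7] at h3
      apply h5
      linear_combination h3
  refine ⟨ζ, fun z => ε (a (e z)), fun z => ∑ i, c i (e z) • w i, fun z => v (a (e z)),
    ?_, ?_, ⟨?_, ?_⟩, ?_, ?_, ?_⟩
  · rw [hζ, Fintype.card_pos_iff]
    by_contra hemp
    rw [not_nonempty_iff] at hemp
    apply hne
    funext i
    apply pw_eq_zero (p := p) (e := ε i)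
    have := hexp i
    rw [Finset.univ_eq_empty, Finset.sum_empty] at this
    exact this
  · have := Fintype.card_le_of_injective a hainj
    rwa [Fintype.card_fin] at this
  · rw [Fintype.linearIndependent_iff]
    intro g hg z'
    have h1 : ∑ i, (∑ z, g z * c i (e z)) • w i = 0 := by
      rw [← hg]
      simp only [Finset.smul_sum, Finset.sum_smul, smul_smul]
      rw [Finset.sum_comm]
    have h2 := Fintype.linearIndependent_iff.1 hw.1 (fun i => ∑ z, g z * c i (e z)) h1 (a (e z'))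
    rw [Finset.sum_eq_single z'] at h2
    · rw [hca, if_pos rfl, mul_one] at h2
      exact h2
    · intro z _ hz
      rw [hca, if_neg, mul_zero]
      exact fun h => hz (e.injective h).symm
    · intro h
      exact absurd (Finset.mem_univ _) h
  · intro z β k h
    have h' : (∑ i, c i (e z) • w i) β k ≠ 0 := h
    rw [Finset.sum_apply, Finset.sum_apply] at h'
    obtain ⟨i, _, hi⟩ := Finset.exists_ne_zero_of_sum_ne_zero h'
    simp only [Pi.smul_apply, smul_eq_mul] at hi
    have h1 : c i (e z) ≠ 0 := left_ne_zero_of_mul hi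
    have h2 : w i β k ≠ 0 := right_ne_zero_of_mul hi
    obtain ⟨h3, h4, h6⟩ := hw.2 i β k h2
    exact ⟨h3, h4, by rw [h6, hpar i _ h1]⟩
  · exact hli.comp e e.injective
  · intro z
    refine (pw_natDegree_le (famx_eps_le hw _) (hf _)).trans (by omega)
  · funext β k
    rw [comb_apply, comb_apply]
    have h1 : ∀ i, pw p (ε i) (f i) * C (w i β k) =
        ∑ z, v (a (e z)) * (C (c i (e z)) * C (w i β k)) := by
      intro i
      have h2 : pw p (ε i) (f i) = ∑ z, c i z • v (a z) := hexp i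
      rw [h2, ← e.sum_comp, Finset.sum_mul]
      refine Finset.sum_congr rfl fun z _ => ?_
      rw [smul_eq_C_mul]
      ring
    rw [Finset.sum_congr rfl fun i _ => h1 i, Finset.sum_comm]
    refine Finset.sum_congr rfl fun z _ => ?_
    rw [Finset.sum_apply, Finset.sum_apply, map_sum, Finset.mul_sum]
    refine Finset.sum_congr rfl fun i _ => ?_
    simp only [Pi.smul_apply, smul_eq_mul, map_mul]

/-- the family of all unit vectors -/
theorem full_famx (B S : ℕ) : ∃ (ε : Fin (B * (S + 1)) → ℕ)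
    (w : Fin (B * (S + 1)) → ℕ → ℕ → K), FamX B S ε w := by
  classical
  refine ⟨fun i => (((finProdFinEquiv.symm i).1 : ℕ) + ((finProdFinEquiv.symm i).2 : ℕ)) % 2,
    fun i β k => if β = ((finProdFinEquiv.symm i).1 : ℕ) ∧
      k = ((finProdFinEquiv.symm i).2 : ℕ) then 1 else 0, ?_, ?_⟩
  · rw [Fintype.linearIndependent_iff]
    intro g hg i
    have h1 := congrFun (congrFun hg ((finProdFinEquiv.symm i).1 : ℕ))
      ((finProdFinEquiv.symm i).2 : ℕ)
    rw [Finset.sum_apply, Finset.sum_apply, Finset.sum_eq_single i] at h1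
    · simpa using h1
    · intro j _ hji
      simp only [Pi.smul_apply, smul_eq_mul]
      rw [if_neg, mul_zero]
      rintro ⟨h2, h3⟩
      apply hji
      apply finProdFinEquiv.symm.injective
      exact Prod.ext (Fin.ext h2.symm) (Fin.ext h3.symm)
    · intro h
      exact absurd (Finset.mem_univ _) h
  · intro i β k h
    simp only [ne_eq, ite_eq_right_iff, one_ne_zero, imp_false, not_not] at h
    obtain ⟨h1, h2⟩ := h
    have h3 := (finProdFinEquiv.symm i).1.2
    have h4 := (finProdFinEquiv.symm i).2.2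
    refine ⟨by omega, by omega, by rw [h1, h2]⟩

theorem card_famx_le (B S : ℕ) {m : ℕ} (ε : Fin m → ℕ) (w : Fin m → ℕ → ℕ → K)
    (hw : FamX B S ε w) : m ≤ B * (S + 1) := by
  have hli : LinearIndependent K
      (fun (i : Fin m) (x : Fin B × Fin (S + 1)) => w i (x.1 : ℕ) (x.2 : ℕ)) := by
    rw [Fintype.linearIndependent_iff]
    intro g hg
    refine Fintype.linearIndependent_iff.1 hw.1 g ?_
    funext β k
    rw [Finset.sum_apply, Finset.sum_apply]
    by_cases hβ : β < B ∧ k < S + 1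
    · have h1 := congrFun hg (⟨β, hβ.1⟩, ⟨k, hβ.2⟩)
      rw [Finset.sum_apply] at h1
      exact h1
    · refine Finset.sum_eq_zero fun i _ => ?_
      have : w i β k = 0 := by
        by_contra h
        obtain ⟨h1, h3, _⟩ := hw.2 i β k h
        exact hβ ⟨h1, by omega⟩
      simp only [Pi.smul_apply, this, smul_zero]
  have h := hli.fintype_card_le_finrank
  simpa [Module.finrank_fintype_fun_eq_card] using h

/-- the polynomials are determined by the operator -/
theorem combx_inj [CharZero K] (B S : ℕ) {m : ℕ} (ε : Fin m → ℕ) (w : Fin m → ℕ → ℕ → K)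
    (hw : FamX B S ε w) (p : ℕ) (f : Fin m → K[X])
    (h : comb w (fun i => pw p (ε i) (f i)) = 0) : f = 0 := by
  funext i
  apply pw_eq_zero (p := p) (e := ε i)
  ext n
  rw [coeff_zero]
  refine Fintype.linearIndependent_iff.1 hw.1 (fun i => (pw p (ε i) (f i)).coeff n) ?_ i
  funext β k
  have h1 := congrArg (fun g : K[X] => g.coeff n) (congrFun (congrFun h β) k)
  simp only [comb_apply, finsetSum_coeff, coeff_mul_C, Pi.zero_apply, coeff_zero] at h1
  rw [Finset.sum_apply, Finset.sum_apply]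
  exact h1

/-- parity of the coefficients -/
theorem combx_parity [CharZero K] (B S : ℕ) {m : ℕ} (ε : Fin m → ℕ)
    (w : Fin m → ℕ → ℕ → K) (hw : FamX B S ε w) (p : ℕ) (f : Fin m → K[X]) (β k : ℕ) :
    C ((-1) ^ (β + k)) *
      (comb w (fun i => pw p (ε i) (f i)) β k).comp (C (-(2 * (p : K) - 1)) - X) =
      comb w (fun i => pw p (ε i) (f i)) β k := by
  rw [comb_apply, Polynomial.sum_comp, Finset.mul_sum]
  refine Finset.sum_congr rfl fun i _ => ?_
  by_cases h0 : w i β k = 0
  · rw [h0, map_zero, mul_zero, zero_comp, mul_zero]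
  have h1 := (hw.2 i β k h0).2.2
  have h2 : ((-1 : K) ^ (β + k)) = (-1) ^ ε i := by
    rw [← h1]
    exact neg_one_pow_eq_pow_mod_two (R := K) (β + k)
  rw [mul_comp, pw_refl, C_comp, h2, ← mul_assoc, ← mul_assoc, ← map_mul, ← mul_pow, neg_one_mul,
    neg_neg, one_pow, map_one, one_mul]

theorem combx_natDegree [CharZero K] (B S : ℕ) {m : ℕ} (ε : Fin m → ℕ)
    (w : Fin m → ℕ → ℕ → K) (hw : FamX B S ε w) (p n : ℕ) (hn : 0 < n) (f : Fin m → K[X])
    (hf : ∀ i, f i ∈ degreeLT K n) (β k : ℕ) :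
    (comb w (fun i => pw p (ε i) (f i)) β k).natDegree < 2 * n := by
  have h : (comb w (fun i => pw p (ε i) (f i)) β k).natDegree ≤ 2 * n - 1 := by
    rw [comb_apply]
    refine natDegree_sum_le_of_forall_le _ _ fun i _ => ?_
    exact (natDegree_mul_C_le _ _).trans (pw_natDegree_le (famx_eps_le hw i) (hf i))
  omega

theorem combx_support {B S : ℕ} {m : ℕ} {ε : Fin m → ℕ} {w : Fin m → ℕ → ℕ → K}
    (hw : FamX B S ε w) (f : Fin m → K[X]) (β k : ℕ) (h : comb w f β k ≠ 0) :
    β < B ∧ k ≤ S := by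
  by_contra hcon
  apply h
  rw [comb_apply]
  refine Finset.sum_eq_zero fun i _ => ?_
  have h1 : w i β k = 0 := by
    by_contra h2
    have h3 := hw.2 i β k h2
    exact hcon ⟨h3.1, h3.2.1⟩
  rw [h1, C_0, mul_zero]

theorem FamX.castSucc {B S m : ℕ} {ε : Fin (m + 1) → ℕ}
    {w : Fin (m + 1) → ℕ → ℕ → K} (h : FamX B S ε w) :
    FamX B S (fun i : Fin m => ε i.castSucc) (fun i : Fin m => w i.castSucc) :=
  ⟨h.1.comp _ (Fin.castSucc_injective m), fun i β k => h.2 i.castSucc β k⟩

/-- weighted number of conditions -/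
noncomputable def wkx (B S a g : ℕ) {J : Type*} (H : J → ℕ → ℕ → PowerSeries K) {m : ℕ}
    (w : Fin m → ℕ → ℕ → K) : ℕ :=
  (g + 1) * kapx B S a H False w + g * kapx B S a H True w

theorem wkx_mono (B S a g : ℕ) {J : Type*} [Fintype J] (H : J → ℕ → ℕ → PowerSeries K) {m : ℕ}
    (w : Fin (m + 1) → ℕ → ℕ → K) :
    wkx B S a g H (fun i : Fin m => w i.castSucc) ≤ wkx B S a g H w :=
  Nat.add_le_add (Nat.mul_le_mul_left _ (kapx_mono _ _ _ _ _ w))
    (Nat.mul_le_mul_left _ (kapx_mono _ _ _ _ _ w))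

/-- a minimal family -/
theorem min_famx (B S a g n N : ℕ) (hN : 0 < N + n) {J : Type*} [Fintype J]
    (H : J → ℕ → ℕ → PowerSeries K)
    (hfull : ∃ (m : ℕ) (ε : Fin m → ℕ) (w : Fin m → ℕ → ℕ → K), FamX B S ε w ∧
      N + wkx B S a g H w ≤ n * m) :
    ∃ (m : ℕ) (ε : Fin m → ℕ) (w : Fin m → ℕ → ℕ → K), FamX B S ε w ∧
      N + wkx B S a g H w ≤ n * m ∧
      ∀ (ζ : ℕ) (ε' : Fin ζ → ℕ) (w' : Fin ζ → ℕ → ℕ → K), ζ ≤ m → FamX B S ε' w' →
        n * ζ < N + n + wkx B S a g H w' := by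
  classical
  set good : ℕ → Prop := fun m => ∃ (ε : Fin m → ℕ) (w : Fin m → ℕ → ℕ → K),
    FamX B S ε w ∧ N + wkx B S a g H w ≤ n * m with hgood
  have hex : ∃ m, good m := hfull
  have hmin : ∀ m < Nat.find hex, ¬ good m := fun m hm => Nat.find_min hex hm
  obtain ⟨ε, w, hw, hw2⟩ := Nat.find_spec hex
  refine ⟨Nat.find hex, ε, w, hw, hw2, ?_⟩
  intro ζ ε' w' hζ hw'
  rcases lt_or_eq_of_le hζ with hlt | heq
  · have h1 := hmin ζ hlt
    by_contra hcon
    apply h1
    exact ⟨ε', w', hw', by omega⟩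
  · rcases ζ with _ | ζ
    · rw [Nat.mul_zero]; omega
    · have h1 := hmin ζ (by omega)
      have h2 : n * ζ < N + wkx B S a g H (fun i : Fin ζ => w' i.castSucc) := by
        by_contra hcon
        apply h1
        exact ⟨_, _, hw'.castSucc, by omega⟩
      have h3 := wkx_mono B S a g H w'
      have h4 : n * (ζ + 1) = n * ζ + n := by ring
      omega

end Pool.Agent.SID
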