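import Pool.Agent.SID.FIND
import Pool.Agent.SK.HIK

/-!
# SID: the theorem on short intervals over number fields in real variables
-/

namespace Pool.Agent.SID

open Finset Pool.Agent.ZC Pool.Agent.SI Pool.Agent.SK

private theorem hid_X (c s d L W : ℝ) (hc : 0 < c) (hs : 0 ≤ s) (hd : 0 ≤ d) (hL : 1 ≤ L)
    (h1 : s * (d + 1) ^ 2 * L ≤ c * W ^ 2) :
    ∃ X : ℝ, 0 < X ∧ X * (s * (d + 1) ^ 2 * L) ≤ W ^ 2 ∧ X ^ 2 * (s * (d + 1)) ≤ W ^ 2 := by
  have hX : (0 : ℝ) < 1 / (c + 1) := by positivity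
  have hcX : c * (1 / (c + 1)) ≤ 1 := by
    rw [mul_one_div, div_le_one (by positivity)]
    linarith
  have h2 : 1 / (c + 1) * (s * (d + 1) ^ 2 * L) ≤ W ^ 2 := by
    calc 1 / (c + 1) * (s * (d + 1) ^ 2 * L) ≤ 1 / (c + 1) * (c * W ^ 2) :=
          mul_le_mul_of_nonneg_left h1 hX.le
      _ = c * (1 / (c + 1)) * W ^ 2 := by ring
      _ ≤ 1 * W ^ 2 := mul_le_mul_of_nonneg_right hcX (by positivity)
      _ = _ := one_mul _
  refine ⟨1 / (c + 1), hX, h2, ?_⟩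
  have h4 : s * (d + 1) ≤ s * (d + 1) ^ 2 * L := by
    have h5 : (d + 1) * 1 ≤ (d + 1) * (d + 1) := mul_le_mul_of_nonneg_left (by linarith) (by linarith)
    have h6 : (d + 1) ^ 2 * 1 ≤ (d + 1) ^ 2 * L := mul_le_mul_of_nonneg_left hL (by positivity)
    have h7 : s * (d + 1) ≤ s * ((d + 1) ^ 2 * L) :=
      mul_le_mul_of_nonneg_left (by nlinarith) (by linarith)
    linarith
  have h8 : (1 / (c + 1)) ^ 2 ≤ 1 / (c + 1) := by
    have h9 : 1 / (c + 1) ≤ 1 := by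
      rw [div_le_one (by positivity)]
      linarith
    nlinarith
  calc (1 / (c + 1)) ^ 2 * (s * (d + 1)) ≤ 1 / (c + 1) * (s * (d + 1) ^ 2 * L) :=
        mul_le_mul h8 h4 (by positivity) hX.le
    _ ≤ _ := h2

/-- one zeta value outside `K + V` -/
theorem sid_exists (H : CoreD) : ∃ c : ℝ, 0 < c ∧ ∃ s0 : ℕ, ∀ (K : IntermediateField ℚ ℝ)
    [FiniteDimensional ℚ K], ∀ s ≥ s0, ∀ W ≤ s, 0 < W → ∀ V : Submodule K ℝ, Module.Finite K V →
    (s : ℝ) * ((Module.finrank K V : ℝ) + 1) ^ 2 *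
      (Module.finrank ℚ K * (Real.log s * (1 + Real.log ((s : ℝ) / W)))) ≤ c * (W : ℝ) ^ 2 →
    ∃ i : ℕ, Odd i ∧ s < i ∧ i ≤ s + W ∧ ∀ v ∈ V, ∀ q : K, zr i ≠ q + v := by
  obtain ⟨c, hc, s0, hmain⟩ := sid_main_of H
  refine ⟨c, hc, max s0 3, fun K _ s hs W hW hW0 V hV h1 => ?_⟩
  have hs0 : s0 ≤ s := (le_max_left _ _).trans hs
  have hs3 : 3 ≤ s := (le_max_right _ _).trans hs
  have hsr : (3 : ℝ) ≤ s := by exact_mod_cast hs3
  have hWr : (0 : ℝ) < W := by exact_mod_cast hW0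
  have hWsr : (W : ℝ) ≤ s := by exact_mod_cast hW
  have hδ : 1 ≤ Module.finrank ℚ K := Module.finrank_pos
  have hδr : (1 : ℝ) ≤ (Module.finrank ℚ K : ℝ) := by exact_mod_cast hδ
  have hls : 1 ≤ Real.log s := by
    rw [Real.le_log_iff_exp_le (by linarith)]
    have := Real.exp_one_lt_d9
    linarith
  have hlq : 0 ≤ Real.log ((s : ℝ) / W) := Real.log_nonneg (by rwa [one_le_div hWr])
  have hL : 1 ≤ (Module.finrank ℚ K : ℝ) * (Real.log s * (1 + Real.log ((s : ℝ) / W))) := by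
    have h4 : 1 * 1 ≤ Real.log s * (1 + Real.log ((s : ℝ) / W)) :=
      mul_le_mul hls (by linarith) (by norm_num) (by linarith)
    exact one_le_mul_of_one_le_of_one_le hδr (by linarith)
  obtain ⟨X, hX0, hX1, hX2⟩ := hid_X c s (Module.finrank K V) _ W hc (by linarith)
    (Nat.cast_nonneg _) hL h1
  by_contra hno
  push Not at hno
  have hm := hmain K s hs0 W hW V hV h1 X hX0.le hX1 hX2
  have e : ({i : ℕ | Odd i ∧ s < i ∧ i ≤ s + W ∧ ∀ v ∈ V, ∀ q : K, zr i ≠ q + v} : Set ℕ) = ∅ := by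
    ext i
    simp only [Set.mem_ofPred_eq, Set.mem_empty_iff_false, iff_false]
    rintro ⟨h4, h5, h6, h7⟩
    obtain ⟨v, hv, q, hq⟩ := hno i h4 h5 h6
    exact h7 v hv q hq
  rw [e, Set.ncard_empty] at hm
  have : 0 < c * X := by positivity
  simp only [Nat.cast_zero] at hm
  linarith

/-- real variables -/
theorem sid_exists_real (H : CoreD) : ∃ c : ℝ, 0 < c ∧ ∃ x0 : ℝ,
    ∀ (K : IntermediateField ℚ ℝ) [FiniteDimensional ℚ K], ∀ x y l : ℝ, x0 ≤ x → 0 < y → y ≤ x →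
    l = Module.finrank ℚ K * (Real.log x * (1 + Real.log (x / y))) →
    ∀ V : Submodule K ℝ, Module.Finite K V →
    x * ((Module.finrank K V : ℝ) + 1) ^ 2 * l ≤ c * y ^ 2 →
    ∃ i : ℕ, Odd i ∧ x < i ∧ (i : ℝ) ≤ x + y ∧ ∀ v ∈ V, ∀ q : K, zr i ≠ q + v := by
  obtain ⟨c1, hc1, s0, hmain⟩ := sid_exists H
  refine ⟨min 1 (c1 / 8), lt_min one_pos (by positivity), max 64 ((s0 : ℝ) + 1),
    fun K _ x y l hx hy0 hyx hl V hV h1 => ?_⟩
  have hx64 : 64 ≤ x := le_trans (le_max_left _ _) hx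
  have hxs0 : (s0 : ℝ) + 1 ≤ x := le_trans (le_max_right _ _) hx
  have hx0 : 0 < x := by linarith
  have hexp : Real.exp 1 < 2.7182818286 := Real.exp_one_lt_d9
  have hlx : 1 ≤ Real.log x := by
    rw [Real.le_log_iff_exp_le hx0]
    linarith
  have hδ : 1 ≤ Module.finrank ℚ K := Module.finrank_pos
  have hδr : (1 : ℝ) ≤ (Module.finrank ℚ K : ℝ) := by exact_mod_cast hδ
  have hxy1 : 1 ≤ x / y := by rwa [one_le_div hy0]
  have hlxy : 0 ≤ Real.log (x / y) := Real.log_nonneg hxy1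
  have hl1 : 1 ≤ l := by
    have : 1 * 1 ≤ Real.log x * (1 + Real.log (x / y)) :=
      mul_le_mul (by linarith) (by linarith) (by norm_num) (by linarith)
    rw [hl]
    exact one_le_mul_of_one_le_of_one_le hδr (by linarith)
  have hd0 : (0 : ℝ) ≤ (Module.finrank K V : ℝ) := Nat.cast_nonneg _
  obtain ⟨dd, hdd⟩ : ∃ dd : ℝ, dd = ((Module.finrank K V : ℝ) + 1) ^ 2 := ⟨_, rfl⟩
  have hdd1 : 1 ≤ dd := by rw [hdd]; nlinarith
  rw [← hdd] at h1
  have hy8 : 8 ≤ y := by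
    have h2 : min 1 (c1 / 8) * y ^ 2 ≤ 1 * y ^ 2 :=
      mul_le_mul_of_nonneg_right (min_le_left _ _) (by positivity)
    have h3 : x * 1 ≤ x * (dd * l) :=
      mul_le_mul_of_nonneg_left (one_le_mul_of_one_le_of_one_le hdd1 hl1) hx0.le
    have h4 : (64 : ℝ) ≤ y ^ 2 := by
      calc (64 : ℝ) ≤ x * 1 := by linarith
        _ ≤ x * (dd * l) := h3
        _ = x * dd * l := by ring
        _ ≤ _ := h1
        _ ≤ _ := h2
        _ = _ := one_mul _
    nlinarith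
  obtain ⟨s, hs⟩ : ∃ s : ℕ, s = ⌊x⌋₊ := ⟨_, rfl⟩
  obtain ⟨W, hW⟩ : ∃ W : ℕ, W = ⌊y⌋₊ := ⟨_, rfl⟩
  have hsx1 : (s : ℝ) ≤ x := by rw [hs]; exact Nat.floor_le hx0.le
  have hsx2 : x < s + 1 := by rw [hs]; exact Nat.lt_floor_add_one x
  have hWy1 : (W : ℝ) ≤ y := by rw [hW]; exact Nat.floor_le hy0.le
  have hWy2 : y < W + 1 := by rw [hW]; exact Nat.lt_floor_add_one y
  have hWy : y ≤ 2 * W := by linarith
  have hW0 : (0 : ℝ) < W := by linarith
  have hW0n : 0 < W := by exact_mod_cast hW0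
  have hs00 : (0 : ℝ) < s := by linarith
  have hWs : W ≤ s := by rw [hW, hs]; exact Nat.floor_le_floor hyx
  have hWsr : (W : ℝ) ≤ s := by exact_mod_cast hWs
  have hss0 : s0 ≤ s := by
    have h1 : (s0 : ℝ) < s + 1 := by linarith
    have h2 : s0 < s + 1 := by exact_mod_cast h1
    exact Nat.lt_succ_iff.1 h2
  have hlsW : 0 ≤ Real.log ((s : ℝ) / W) := Real.log_nonneg (by rwa [one_le_div hW0])
  have hls0 : 0 ≤ Real.log (s : ℝ) := Real.log_natCast_nonneg s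
  have hll : (Module.finrank ℚ K : ℝ) * (Real.log s * (1 + Real.log ((s : ℝ) / W))) ≤ 2 * l := by
    have h1 : Real.log (s : ℝ) ≤ Real.log x := Real.log_le_log hs00 hsx1
    have h2 : (s : ℝ) / W ≤ 2 * (x / y) := by
      rw [div_le_iff₀ hW0]
      have e : 2 * (x / y) * W = x * (2 * W / y) := by field_simp
      rw [e]
      have h3 : 1 ≤ 2 * (W : ℝ) / y := by rwa [one_le_div hy0]
      nlinarith
    have h4 : Real.log ((s : ℝ) / W) ≤ Real.log (2 * (x / y)) :=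
      Real.log_le_log (by positivity) h2
    rw [Real.log_mul (by norm_num) (by positivity)] at h4
    have h5 := Real.log_two_lt_d9
    have h6 : 1 + Real.log ((s : ℝ) / W) ≤ 2 * (1 + Real.log (x / y)) := by linarith
    calc (Module.finrank ℚ K : ℝ) * (Real.log s * (1 + Real.log ((s : ℝ) / W)))
        ≤ Module.finrank ℚ K * (Real.log x * (2 * (1 + Real.log (x / y)))) :=
          mul_le_mul_of_nonneg_left (mul_le_mul h1 h6 (by positivity) (by linarith)) (by linarith)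
      _ = 2 * l := by rw [hl]; ring
  have hA : (s : ℝ) * ((Module.finrank K V : ℝ) + 1) ^ 2 *
      (Module.finrank ℚ K * (Real.log s * (1 + Real.log ((s : ℝ) / W)))) ≤ c1 * (W : ℝ) ^ 2 := by
    rw [← hdd]
    have h4 : y ^ 2 ≤ 4 * (W : ℝ) ^ 2 := by
      have : y ^ 2 ≤ (2 * (W : ℝ)) ^ 2 := pow_le_pow_left₀ hy0.le hWy 2
      linarith
    calc (s : ℝ) * dd * (Module.finrank ℚ K * (Real.log s * (1 + Real.log ((s : ℝ) / W))))
        ≤ (x * dd) * (2 * l) :=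
          mul_le_mul (mul_le_mul_of_nonneg_right hsx1 (by linarith)) hll (by positivity)
            (by positivity)
      _ = 2 * (x * dd * l) := by ring
      _ ≤ 2 * (min 1 (c1 / 8) * y ^ 2) := by linarith
      _ ≤ 2 * (c1 / 8 * (4 * (W : ℝ) ^ 2)) := by
          have h5 : min 1 (c1 / 8) * y ^ 2 ≤ c1 / 8 * (4 * (W : ℝ) ^ 2) :=
            mul_le_mul (min_le_right _ _) h4 (by positivity) (by positivity)
          linarith
      _ = c1 * (W : ℝ) ^ 2 := by ring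
  obtain ⟨i, hi1, hi2, hi3, hi4⟩ := hmain K s hss0 W hWs hW0n V hV hA
  refine ⟨i, hi1, ?_, ?_, hi4⟩
  · have : (s : ℝ) + 1 ≤ i := by exact_mod_cast hi2
    linarith
  · have : (i : ℝ) ≤ s + W := by exact_mod_cast hi3
    linarith

/-- the count: apply `sid_exists_real` to `V` plus the span of the exceptional values -/
theorem sid_count (H : CoreD) : ∃ c : ℝ, 0 < c ∧ ∃ x0 : ℝ,
    ∀ (K : IntermediateField ℚ ℝ) [FiniteDimensional ℚ K], ∀ x y l : ℝ, x0 ≤ x → 0 < y → y ≤ x →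
    l = Module.finrank ℚ K * (Real.log x * (1 + Real.log (x / y))) → x * l ≤ c * y ^ 2 →
    ∀ V : Submodule K ℝ, Module.Finite K V →
    (Module.finrank K V : ℝ) ≤ c * y / √(x * l) →
    max 1 (c * y / √(x * l)) ≤
      (({i : ℕ | Odd i ∧ x < i ∧ (i : ℝ) ≤ x + y ∧
        ∀ v ∈ V, ∀ q : K, zr i ≠ q + v} : Set ℕ).ncard : ℝ) := by
  classical
  obtain ⟨c1, hc1, x0, hex⟩ := sid_exists_real H
  -- `c = b²`, `3 b ≤ √c1`
  obtain ⟨b, hb⟩ : ∃ b : ℝ, b = min 1 (√c1 / 3) := ⟨_, rfl⟩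
  have hsc : 0 < √c1 := Real.sqrt_pos.2 hc1
  have hb0 : 0 < b := by rw [hb]; exact lt_min one_pos (by positivity)
  have hb1 : b ≤ 1 := by rw [hb]; exact min_le_left _ _
  have hb3 : (3 * b) ^ 2 ≤ c1 := by
    have h1 : 3 * b ≤ √c1 := by
      have : b ≤ √c1 / 3 := by rw [hb]; exact min_le_right _ _
      linarith
    calc (3 * b) ^ 2 ≤ (√c1) ^ 2 := pow_le_pow_left₀ (by positivity) h1 2
      _ = c1 := Real.sq_sqrt hc1.le
  refine ⟨b ^ 2, by positivity, max 3 x0, fun K _ x y l hx hy0 hyx hl hxl V hV hd => ?_⟩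
  have hx3 : 3 ≤ x := (le_max_left _ _).trans hx
  have hxx0 : x0 ≤ x := (le_max_right _ _).trans hx
  have hx0 : 0 < x := by linarith
  have hexp : Real.exp 1 < 2.7182818286 := Real.exp_one_lt_d9
  have hlx : 1 ≤ Real.log x := by
    rw [Real.le_log_iff_exp_le hx0]
    linarith
  have hδ : 1 ≤ Module.finrank ℚ K := Module.finrank_pos
  have hδr : (1 : ℝ) ≤ (Module.finrank ℚ K : ℝ) := by exact_mod_cast hδ
  have hxy1 : 1 ≤ x / y := by rwa [one_le_div hy0]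
  have hlxy : 0 ≤ Real.log (x / y) := Real.log_nonneg hxy1
  have hl1 : 1 ≤ l := by
    have : 1 * 1 ≤ Real.log x * (1 + Real.log (x / y)) :=
      mul_le_mul (by linarith) (by linarith) (by norm_num) (by linarith)
    rw [hl]
    exact one_le_mul_of_one_le_of_one_le hδr (by linarith)
  have hxl0 : 0 < x * l := by positivity
  obtain ⟨r, hr⟩ : ∃ r : ℝ, r = √(x * l) := ⟨_, rfl⟩
  have hr0 : 0 < r := by rw [hr]; exact Real.sqrt_pos.2 hxl0
  have hr2 : r ^ 2 = x * l := by rw [hr]; exact Real.sq_sqrt hxl0.le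
  rw [← hr] at hd ⊢
  obtain ⟨Y, hY⟩ : ∃ Y : ℝ, Y = y / r := ⟨_, rfl⟩
  have hY0 : 0 < Y := by rw [hY]; positivity
  have hYr : Y * r = y := by rw [hY]; field_simp
  have eY : b ^ 2 * y / r = b ^ 2 * Y := by rw [hY]; ring
  rw [eY] at hd ⊢
  -- `1 ≤ b Y`
  have hbY : 1 ≤ b * Y := by
    have h1 : r ^ 2 ≤ (b * y) ^ 2 := by
      calc r ^ 2 = x * l := hr2
        _ ≤ b ^ 2 * y ^ 2 := hxl
        _ = (b * y) ^ 2 := by ring
    have h2 : r ≤ b * y := (pow_le_pow_iff_left₀ hr0.le (by positivity) two_ne_zero).1 h1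
    have h3 : 1 * r ≤ (b * Y) * r := by
      calc 1 * r = r := one_mul r
        _ ≤ b * y := h2
        _ = (b * Y) * r := by rw [← hYr]; ring
    exact le_of_mul_le_mul_right h3 hr0
  -- the exceptional set
  obtain ⟨E, hE⟩ : ∃ E : Set ℕ, E = {i : ℕ | Odd i ∧ x < i ∧ (i : ℝ) ≤ x + y ∧
        ∀ v ∈ V, ∀ q : K, zr i ≠ q + v} := ⟨_, rfl⟩
  rw [← hE]
  have hEfin : E.Finite := by
    rw [hE]
    exact (Set.finite_Iic ⌊x + y⌋₊).subset fun i hi => Nat.le_floor hi.2.2.1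
  by_contra hlt
  rw [not_le] at hlt
  have hEb : (E.ncard : ℝ) ≤ b * Y := by
    rcases lt_max_iff.1 hlt with h | h
    · linarith
    · have h4 : b ^ 2 * Y ≤ b * Y := by
        have : b ^ 2 ≤ b := by nlinarith
        exact mul_le_mul_of_nonneg_right this hY0.le
      linarith
  -- the larger space
  obtain ⟨T, hT⟩ : ∃ T : Finset ℝ, T = hEfin.toFinset.image zr := ⟨_, rfl⟩
  have hTc : T.card ≤ E.ncard := by
    rw [hT, Set.ncard_eq_toFinset_card E hEfin]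
    exact card_image_le
  set V' : Submodule K ℝ := V ⊔ Submodule.span K (T : Set ℝ) with hV'
  have hfs : Module.Finite K (Submodule.span K (T : Set ℝ)) := Module.Finite.span_finset K T
  have hV'f : Module.Finite K V' := by
    rw [hV']
    infer_instance
  have hdim : Module.finrank K V' ≤ Module.finrank K V + T.card := by
    have h1 := Submodule.finrank_add_le_finrank_add_finrank V (Submodule.span K (T : Set ℝ))
    have h2 : Module.finrank K (Submodule.span K (T : Set ℝ)) ≤ T.card := finrank_span_finset_le_card T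
    rw [hV']
    omega
  have hdimr : (Module.finrank K V' : ℝ) ≤ Module.finrank K V + E.ncard := by
    have : Module.finrank K V' ≤ Module.finrank K V + E.ncard := by omega
    exact_mod_cast this
  have hd' : (Module.finrank K V' : ℝ) + 1 ≤ 3 * b * Y := by
    have h4 : b ^ 2 * Y ≤ b * Y := by
      have : b ^ 2 ≤ b := by nlinarith
      exact mul_le_mul_of_nonneg_right this hY0.le
    linarith
  have hcond : x * ((Module.finrank K V' : ℝ) + 1) ^ 2 * l ≤ c1 * y ^ 2 := by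
    have h4 : ((Module.finrank K V' : ℝ) + 1) ^ 2 ≤ (3 * b * Y) ^ 2 :=
      pow_le_pow_left₀ (by positivity) hd' 2
    calc x * ((Module.finrank K V' : ℝ) + 1) ^ 2 * l =
        ((Module.finrank K V' : ℝ) + 1) ^ 2 * (x * l) := by ring
      _ ≤ (3 * b * Y) ^ 2 * (x * l) := mul_le_mul_of_nonneg_right h4 hxl0.le
      _ = (3 * b) ^ 2 * (Y * r) ^ 2 := by rw [← hr2]; ring
      _ = (3 * b) ^ 2 * y ^ 2 := by rw [hYr]
      _ ≤ c1 * y ^ 2 := mul_le_mul_of_nonneg_right hb3 (by positivity)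
  obtain ⟨i, hi1, hi2, hi3, hi4⟩ := hex K x y l hxx0 hy0 hyx hl V' hV'f hcond
  have hiE : i ∈ E := by
    rw [hE]
    refine ⟨hi1, hi2, hi3, fun v hv q => hi4 v ?_ q⟩
    rw [hV']
    exact Submodule.mem_sup_left hv
  refine hi4 (zr i) ?_ 0 (by simp)
  rw [hV']
  refine Submodule.mem_sup_right (Submodule.subset_span ?_)
  rw [Finset.mem_coe, hT]
  exact mem_image_of_mem zr ((Set.Finite.mem_toFinset hEfin).2 hiE)

/-- the final theorem -/
theorem sid_short_of (H : CoreD) (H2 : Core2K) : ∃ c : ℝ, 0 < c ∧ ∃ x0 : ℝ,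
    ∀ (K : IntermediateField ℚ ℝ) [FiniteDimensional ℚ K], ∀ x y l : ℝ, x0 ≤ x → 0 < y → y ≤ x →
    l = Module.finrank ℚ K * Real.log x * (1 + Real.log (x / y)) → x * l ≤ c * y ^ 2 →
    ∀ V : Submodule K ℝ, Module.Finite K V →
    (Module.finrank K V : ℝ) ≤ c * y / √(x * l) →
    max 1 (c * y / √(x * l)) ≤
      (({i : ℕ | Odd i ∧ x < i ∧ (i : ℝ) ≤ x + y ∧
        ∀ v ∈ V, ∀ q : K, zr i ≠ q + v} : Set ℕ).ncard : ℝ) ∧
    ((Module.finrank K V : ℝ) ≤ c * y ^ (5 / 3 : ℝ) / (x ^ 2 * l) ^ (2 / 3 : ℝ) →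
      c * min (y ^ 2 / (x * l)) (y ^ (4 / 3 : ℝ) / (x ^ 2 * l) ^ (1 / 3 : ℝ)) ≤
      (({i : ℕ | Odd i ∧ x < i ∧ (i : ℝ) ≤ x + y ∧
        ∀ v ∈ V, ∀ q : K, zr i ≠ q + v} : Set ℕ).ncard : ℝ)) := by
  obtain ⟨cA, hcA, xA, hA⟩ := sid_count H
  obtain ⟨cB, hcB, xB, hB⟩ := sk_short_of H2
  refine ⟨min cA cB, lt_min hcA hcB, max 1 (max xA xB), fun K _ x y l hx hy0 hyx hl hxl V hV hd => ?_⟩
  have hx1 : 1 ≤ x := (le_max_left _ _).trans hx
  have hxA : xA ≤ x := ((le_max_left _ _).trans (le_max_right _ _)).trans hx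
  have hxB : xB ≤ x := ((le_max_right _ _).trans (le_max_right _ _)).trans hx
  have hx0 : 0 < x := by linarith
  have hl0 : 0 ≤ l := by
    rw [hl]
    have h1 : 0 ≤ Real.log x := Real.log_nonneg hx1
    have h2 : 0 ≤ Real.log (x / y) := Real.log_nonneg (by rwa [one_le_div hy0])
    positivity
  have hcA' : min cA cB ≤ cA := min_le_left _ _
  have hcB' : min cA cB ≤ cB := min_le_right _ _
  generalize min cA cB = c at *
  have hlA : l = Module.finrank ℚ K * (Real.log x * (1 + Real.log (x / y))) := by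
    rw [hl, mul_assoc]
  have hmonoA : c * y / √(x * l) ≤ cA * y / √(x * l) := by gcongr
  refine ⟨?_, fun hd2 => ?_⟩
  · refine le_trans (max_le_max le_rfl hmonoA) ?_
    exact hA K x y l hxA hy0 hyx hlA
      (hxl.trans (mul_le_mul_of_nonneg_right hcA' (by positivity))) V hV (hd.trans hmonoA)
  · have hmonoB : c * y ^ (5 / 3 : ℝ) / (x ^ 2 * l) ^ (2 / 3 : ℝ) ≤
        cB * y ^ (5 / 3 : ℝ) / (x ^ 2 * l) ^ (2 / 3 : ℝ) := by gcongr
    have h1 := hB K x y l hxB hy0 hyx hl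
      (hxl.trans (mul_le_mul_of_nonneg_right hcB' (by positivity))) V hV (hd2.trans hmonoB)
    refine le_trans ?_ ((le_max_right _ _).trans h1)
    refine mul_le_mul_of_nonneg_right hcB' (le_min ?_ ?_) <;> positivity

end Pool.Agent.SID
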