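import Pool.Agent.SID.HID

/-!
# SID: the theorem on short intervals over number fields as one inequality
-/

namespace Pool.Agent.SID

open Finset Pool.Agent.ZC Pool.Agent.SI Pool.Agent.SK

/-- the two auxiliary inequalities between the main terms -/
private theorem one_terms (x y l : ℝ) (hx : 1 ≤ x) (hy : 0 < y) (hyx : y ≤ x) (hl : 1 ≤ l) :
    (y ^ (4 / 3 : ℝ) / (x ^ 2 * l) ^ (1 / 3 : ℝ)) ^ 2 =
      y ^ (5 / 3 : ℝ) / (x ^ 2 * l) ^ (2 / 3 : ℝ) * y ∧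
    (y ^ (4 / 3 : ℝ) / (x ^ 2 * l) ^ (1 / 3 : ℝ)) ^ 2 ≤ y / √(x * l) * y := by
  have hx0 : 0 < x := by linarith
  have hl0 : 0 < l := by linarith
  have hxl : 0 < x ^ 2 * l := by positivity
  have e1 : (y ^ (4 / 3 : ℝ)) ^ 2 = y ^ (8 / 3 : ℝ) := by
    rw [← Real.rpow_natCast, ← Real.rpow_mul hy.le]
    norm_num
  have e2 : ((x ^ 2 * l) ^ (1 / 3 : ℝ)) ^ 2 = (x ^ 2 * l) ^ (2 / 3 : ℝ) := by
    rw [← Real.rpow_natCast, ← Real.rpow_mul hxl.le]
    norm_num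
  have e3 : y ^ (8 / 3 : ℝ) = y ^ (5 / 3 : ℝ) * y := by
    have : y ^ (5 / 3 : ℝ) * y = y ^ (5 / 3 : ℝ) * y ^ (1 : ℝ) := by rw [Real.rpow_one]
    rw [this, ← Real.rpow_add hy]
    norm_num
  refine ⟨?_, ?_⟩
  · rw [div_pow, e1, e2, e3]
    ring
  · rw [div_pow, e1, e2, div_mul_eq_mul_div]
    have hs : 0 < √(x * l) := Real.sqrt_pos.2 (by positivity)
    have hq : 0 < (x ^ 2 * l) ^ (2 / 3 : ℝ) := by positivity
    rw [div_le_div_iff₀ hq hs]
    have e4 : y ^ (8 / 3 : ℝ) = y * y * y ^ (2 / 3 : ℝ) := by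
      have : y * y * y ^ (2 / 3 : ℝ) = y ^ (2 : ℝ) * y ^ (2 / 3 : ℝ) := by
        rw [Real.rpow_two]
        ring
      rw [this, ← Real.rpow_add hy]
      norm_num
    rw [e4, mul_assoc (y * y)]
    refine mul_le_mul_of_nonneg_left ?_ (by positivity)
    have e5 : (x ^ 2 * l) ^ (2 / 3 : ℝ) = x ^ (4 / 3 : ℝ) * l ^ (2 / 3 : ℝ) := by
      rw [Real.mul_rpow (by positivity) hl0.le, ← Real.rpow_natCast, ← Real.rpow_mul hx0.le]
      norm_num
    have e6 : √(x * l) = x ^ (1 / 2 : ℝ) * l ^ (1 / 2 : ℝ) := by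
      rw [Real.sqrt_eq_rpow, Real.mul_rpow hx0.le hl0.le]
    rw [e5, e6]
    have h1 : y ^ (2 / 3 : ℝ) ≤ x ^ (2 / 3 : ℝ) := Real.rpow_le_rpow hy.le hyx (by norm_num)
    have h2 : x ^ (2 / 3 : ℝ) * x ^ (1 / 2 : ℝ) ≤ x ^ (4 / 3 : ℝ) := by
      rw [← Real.rpow_add hx0]
      exact Real.rpow_le_rpow_of_exponent_le hx (by norm_num)
    have h3 : l ^ (1 / 2 : ℝ) ≤ l ^ (2 / 3 : ℝ) :=
      Real.rpow_le_rpow_of_exponent_le hl (by norm_num)
    calc y ^ (2 / 3 : ℝ) * (x ^ (1 / 2 : ℝ) * l ^ (1 / 2 : ℝ))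
        ≤ x ^ (2 / 3 : ℝ) * (x ^ (1 / 2 : ℝ) * l ^ (1 / 2 : ℝ)) :=
          mul_le_mul_of_nonneg_right h1 (by positivity)
      _ = x ^ (2 / 3 : ℝ) * x ^ (1 / 2 : ℝ) * l ^ (1 / 2 : ℝ) := by ring
      _ ≤ x ^ (4 / 3 : ℝ) * l ^ (2 / 3 : ℝ) := mul_le_mul h2 h3 (by positivity) (by positivity)

/-- the case distinction -/
private theorem one_cases (c A E B y d N : ℝ) (hc : 0 < c) (hA : 0 ≤ A) (hB : 0 ≤ B) (hy : 0 < y)
    (hN : 0 ≤ N) (hd : 0 ≤ d) (hE : B ^ 2 ≤ E * y) (hAB : B ^ 2 ≤ A * y)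
    (h : d ≤ c * A → max 1 (c * A) ≤ N ∧ (d ≤ c * E → c * B ≤ N)) :
    max (min c 1 * A - d) (min c 1 * B - √(d * y)) ≤ N := by
  have hc1 : min c 1 ≤ c := min_le_left _ _
  have hc2 : min c 1 ≤ 1 := min_le_right _ _
  have hc0 : 0 < min c 1 := lt_min hc one_pos
  have hs0 : 0 ≤ √(d * y) := Real.sqrt_nonneg _
  have key : c * B ^ 2 ≤ d * y → min c 1 * B - √(d * y) ≤ N := by
    intro h1
    have h2 : min c 1 * B ≤ √(d * y) := by
      apply Real.le_sqrt_of_sq_le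
      calc (min c 1 * B) ^ 2 = (min c 1 * min c 1) * B ^ 2 := by ring
        _ ≤ (c * 1) * B ^ 2 :=
            mul_le_mul_of_nonneg_right (mul_le_mul hc1 hc2 hc0.le hc.le) (by positivity)
        _ = c * B ^ 2 := by ring
        _ ≤ _ := h1
    linarith
  apply max_le
  · by_cases h1 : d ≤ c * A
    · have h2 := (le_max_right _ _).trans (h h1).1
      have h3 : min c 1 * A ≤ c * A := mul_le_mul_of_nonneg_right hc1 hA
      linarith
    · push Not at h1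
      have h3 : min c 1 * A ≤ c * A := mul_le_mul_of_nonneg_right hc1 hA
      linarith
  · by_cases h1 : d ≤ c * A
    · by_cases h2 : d ≤ c * E
      · have h3 := (h h1).2 h2
        have h4 : min c 1 * B ≤ c * B := mul_le_mul_of_nonneg_right hc1 hB
        linarith
      · push Not at h2
        apply key
        calc c * B ^ 2 ≤ c * (E * y) := mul_le_mul_of_nonneg_left hE hc.le
          _ = c * E * y := by ring
          _ ≤ d * y := mul_le_mul_of_nonneg_right h2.le hy.le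
    · push Not at h1
      apply key
      calc c * B ^ 2 ≤ c * (A * y) := mul_le_mul_of_nonneg_left hAB hc.le
        _ = c * A * y := by ring
        _ ≤ d * y := mul_le_mul_of_nonneg_right h1.le hy.le

theorem sid_one_of (H : CoreD) (H2 : Core2K) : ∃ c : ℝ, 0 < c ∧ ∃ x0 : ℝ,
    ∀ (K : IntermediateField ℚ ℝ) [FiniteDimensional ℚ K], ∀ x y l : ℝ, x0 ≤ x → 0 < y → y ≤ x →
    l = Module.finrank ℚ K * Real.log x * (1 + Real.log (x / y)) → x * l ≤ c * y ^ 2 →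
    ∀ V : Submodule K ℝ, Module.Finite K V →
    max (c * (y / √(x * l)) - Module.finrank K V)
        (c * min (y ^ 2 / (x * l)) (y ^ (4 / 3 : ℝ) / (x ^ 2 * l) ^ (1 / 3 : ℝ)) -
          √(Module.finrank K V * y)) ≤
      (({i : ℕ | Odd i ∧ x < i ∧ (i : ℝ) ≤ x + y ∧
        ∀ v ∈ V, ∀ q : K, (∑' n : ℕ, 1 / ((n : ℝ) + 1) ^ i) ≠ q + v} : Set ℕ).ncard : ℝ) := by
  obtain ⟨c, hc, x0, hmain⟩ := sid_short_of H H2
  refine ⟨min c 1, lt_min hc one_pos, max x0 3, fun K _ x y l hx hy hyx hl hxl V hV => ?_⟩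
  have hx0 : x0 ≤ x := le_trans (le_max_left _ _) hx
  have hx3 : 3 ≤ x := le_trans (le_max_right _ _) hx
  have hx1 : 1 ≤ x := by linarith
  have hxp : 0 < x := by linarith
  have hlx : 1 ≤ Real.log x := by
    rw [Real.le_log_iff_exp_le hxp]
    have := Real.exp_one_lt_d9
    linarith
  have hδ : 1 ≤ Module.finrank ℚ K := Module.finrank_pos
  have hδr : (1 : ℝ) ≤ (Module.finrank ℚ K : ℝ) := by exact_mod_cast hδ
  have hlq : 0 ≤ Real.log (x / y) := Real.log_nonneg (by rwa [one_le_div hy])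
  have hl1 : 1 ≤ l := by
    rw [hl]
    exact one_le_mul_of_one_le_of_one_le (one_le_mul_of_one_le_of_one_le hδr hlx) (by linarith)
  have hlp : 0 < l := by linarith
  have hxlc : x * l ≤ c * y ^ 2 :=
    hxl.trans (mul_le_mul_of_nonneg_right (min_le_left _ _) (by positivity))
  have h := hmain K x y l hx0 hy hyx hl hxlc V hV
  obtain ⟨t1, t2⟩ := one_terms x y l hx1 hy hyx hl1
  have hB0 : 0 ≤ min (y ^ 2 / (x * l)) (y ^ (4 / 3 : ℝ) / (x ^ 2 * l) ^ (1 / 3 : ℝ)) :=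
    le_min (by positivity) (by positivity)
  have hBB : (min (y ^ 2 / (x * l)) (y ^ (4 / 3 : ℝ) / (x ^ 2 * l) ^ (1 / 3 : ℝ))) ^ 2 ≤
      (y ^ (4 / 3 : ℝ) / (x ^ 2 * l) ^ (1 / 3 : ℝ)) ^ 2 :=
    pow_le_pow_left₀ hB0 (min_le_right _ _) 2
  refine one_cases c (y / √(x * l)) (y ^ (5 / 3 : ℝ) / (x ^ 2 * l) ^ (2 / 3 : ℝ)) _ y _ _ hc
    (by positivity) hB0 hy (Nat.cast_nonneg _) (Nat.cast_nonneg _) (by rw [← t1]; exact hBB)
    (hBB.trans t2) ?_
  rw [← mul_div_assoc, ← mul_div_assoc]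
  exact h

end Pool.Agent.SID
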