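import Pool.Agent.DK.JIN
import Pool.Agent.SK.PRJSK

/-!
# SID: joint determinant inequality over a number field with the columns in `J` projected away

`jd_ineq_projK`: `DK/JIN.jd_ineq` applied to the projected rows (`SK/PRJSK.prL`); the extra
coordinates are not projected. `jd_ineq_pi`: the form with columns `l < p`, `m < a`.
-/

namespace Pool.Agent.SID

open Finset Module Pool.Agent.ZC Pool.Agent.SI Pool.Agent.DK Pool.Agent.SK

theorem jd_ineq_projK {K : Type} [Field K] [NumberField K] (τ : K →+* ℝ) {Cc Fi CL CH Ex : Type}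
    [Fintype Cc] [Fintype Fi] [Fintype CL] [Fintype CH] [Fintype Ex] [DecidableEq CL]
    (v : Cc ⊕ Fi → CL ⊕ CH → K) (x : Fi → Ex → K) (M1 : ℕ) (SS : Submodule K (Fi → K))
    (hK : M1 ≤ finrank K SS) (hK0 : ∀ f ∈ SS, ∀ e, ∑ j, f j * x j e = 0)
    (hmod : ∀ f ∈ SS, ∀ c : Cc → K,
      (∀ y, ∑ i, c i * v (.inl i) y + ∑ j, f j * v (.inr j) y = 0) → f = 0)
    (ω : CL → CH → ℚ)
    (hK2 : ∀ x0, ∃ β : Cc → K,
      (∀ x, ∑ i, β i * v (.inl i) (.inl x) = if x = x0 then 1 else 0) ∧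
      ∀ y, ∑ i, β i * v (.inl i) (.inr y) = (ω x0 y : K))
    (D1 D2 : ℕ) (hD1 : 0 < D1) (hD2 : 0 < D2)
    (hint1 : ∀ r x, IsIntegral ℤ ((D1 : K) * v r x))
    (hintx : ∀ j e, IsIntegral ℤ ((D1 : K) * x j e))
    (hint2 : ∀ x y, ∃ w : ℤ, (D2 : ℚ) * ω x y = w)
    (N Ω t : ℝ) (hN : 0 ≤ N) (hΩ : 0 ≤ Ω) (ht0 : 0 ≤ t) (ht1 : t < 1)
    (hω : ∀ x y, |(ω x y : ℝ)| ≤ Ω)
    (γ : Fi → ℕ → ℝ) (u : ℕ → CL ⊕ CH → ℝ)
    (h1 : ∀ (ρ : K →+* ℂ) i x, ‖ρ (v (.inl i) x)‖ ≤ N)
    (h1x : ∀ (ρ : K →+* ℂ) j e, ‖ρ (x j e)‖ ≤ N)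
    (hc : ∀ (ρ : K →+* ℂ) j, ∃ α : Cc → ℂ, ∀ x,
      ‖ρ (v (.inr j) x) - ∑ i, α i * ρ (v (.inl i) x)‖ ≤ N)
    (h2 : ∀ j k x, |γ j k * u k x| ≤ N * t ^ (2 * k)) (σ : Ex → CL ⊕ CH → ℝ)
    (h3 : ∀ j, ∃ α : Cc → ℝ, ∀ y, HasSum (fun k => γ j k * u k y)
      (τ (v (.inr j) y) + ∑ e, σ e y * τ (x j e) - ∑ i, α i * τ (v (.inl i) y))) :
    ∃ R : ℕ, R ≤ Fintype.card CH + Fintype.card Ex ∧
      1 ≤ (((D1 * D2 : ℕ) : ℝ) ^ R * ((R.factorial : ℝ) *
        (N * (1 + Fintype.card CL * Ω)) ^ R)) ^ finrank ℚ K *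
        (2 ^ R * (t ^ (M1 * (M1 - 1) / 2) * (1 / (1 - t)) ^ Fintype.card Fi)) := by
  classical
  choose β0 hβ1 hβ2 using hK2
  have hmapc : ∀ (ρ : K →+* ℂ), (fun x y => ρ ((ω x y : ℚ) : K)) =
      fun (x : CL) (y : CH) => ((ω x y : ℚ) : ℂ) := by
    intro ρ
    funext x y
    exact map_ratCast ρ _
  have hmapr : (fun x y => τ ((ω x y : ℚ) : K)) =
      fun (x : CL) (y : CH) => ((ω x y : ℚ) : ℝ) := by
    funext x y
    exact map_ratCast τ _
  have hNp : N ≤ N * (1 + Fintype.card CL * Ω) := by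
    have : 0 ≤ (Fintype.card CL : ℝ) * Ω := by positivity
    nlinarith
  have hτn : ∀ q : K, |τ q| = ‖(Complex.ofRealHom.comp τ) q‖ := by
    intro q
    rw [RingHom.comp_apply, Complex.ofRealHom_eq_coe, Complex.norm_real, Real.norm_eq_abs]
  obtain ⟨R, -, hR2, hR3⟩ := jd_ineq τ (Cc := Cc) (Fi := Fi) (Col := CH) (Ex := Ex)
    (fun r y => prL (fun x y => ((ω x y : ℚ) : K)) (v r) y) x M1 SS hK hK0
    (by
      intro f hf c hcf
      set V : CL ⊕ CH → K := fun x => ∑ i, c i * v (.inl i) x + ∑ j, f j * v (.inr j) x with hV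
      have hVr : ∀ y, V (.inr y) = ∑ x, V (.inl x) * (ω x y : K) := by
        intro y
        have h := hcf y
        simp only [prL] at h
        have e1 : ∑ x, V (.inl x) * (ω x y : K) = ∑ i, c i *
            (∑ x, v (.inl i) (.inl x) * (ω x y : K)) +
            ∑ j, f j * (∑ x, v (.inr j) (.inl x) * (ω x y : K)) := by
          simp only [hV, add_mul, sum_add_distrib, sum_mul, mul_sum]
          congr 1
          · rw [sum_comm]
            exact sum_congr rfl fun i _ => sum_congr rfl fun x _ => by ring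
          · rw [sum_comm]
            exact sum_congr rfl fun i _ => sum_congr rfl fun x _ => by ring
        rw [e1]
        simp only [hV]
        simp only [mul_sub, sum_sub_distrib] at h
        linear_combination h
      refine hmod f hf (fun i => c i - ∑ x0, V (.inl x0) * β0 x0 i) ?_
      have e3 : ∀ x, ∑ i, (∑ x0, V (.inl x0) * β0 x0 i) * v (.inl i) x =
          ∑ x0, V (.inl x0) * ∑ i, β0 x0 i * v (.inl i) x := by
        intro x
        simp only [sum_mul, mul_sum]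
        rw [sum_comm]
        exact sum_congr rfl fun i _ => sum_congr rfl fun x _ => by ring
      intro x
      simp only [sub_mul, sum_sub_distrib]
      rw [e3]
      have e4 : ∑ i, c i * v (.inl i) x + ∑ j, f j * v (.inr j) x = V x := rfl
      rcases x with x | y
      · simp only [hβ1]
        have e5 : ∑ x0, V (.inl x0) * (if x = x0 then (1 : K) else 0) = V (.inl x) := by
          simp
        rw [e5]
        linear_combination e4
      · simp only [hβ2]
        rw [← hVr]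
        linear_combination e4)
    (D1 * D2) (by positivity)
    (by
      intro r y
      have e1 : ((D1 * D2 : ℕ) : K) * prL (fun x y => ((ω x y : ℚ) : K)) (v r) y =
          (D2 : K) * ((D1 : K) * v r (.inr y)) -
            ∑ x, ((D1 : K) * v r (.inl x)) * ((D2 : K) * ((ω x y : ℚ) : K)) := by
        simp only [prL, mul_sub, mul_sum]
        push_cast
        congr 1
        · ring
        · exact sum_congr rfl fun x _ => by ring
      rw [e1]
      refine IsIntegral.sub (IsIntegral.mul (isIntegral_natCast _) (hint1 _ _))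
        (IsIntegral.sum _ fun x _ => IsIntegral.mul (hint1 _ _) ?_)
      obtain ⟨w, hw⟩ := hint2 x y
      have e2 : (D2 : K) * ((ω x y : ℚ) : K) = (w : K) := by
        have := congrArg (fun q : ℚ => (q : K)) hw
        push_cast at this
        exact this
      rw [e2]
      exact isIntegral_intCast _)
    (by
      intro j e
      have e1 : ((D1 * D2 : ℕ) : K) * x j e = (D2 : K) * ((D1 : K) * x j e) := by
        push_cast
        ring
      rw [e1]
      exact IsIntegral.mul (isIntegral_natCast _) (hintx _ _))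
    (N * (1 + Fintype.card CL * Ω)) t (by positivity) ht0 ht1 γ
    (fun k => prL (fun x y => ((ω x y : ℚ) : ℝ)) (u k))
    (by
      intro i y
      rw [hτn, prL_map, hmapc]
      exact prL_bd ω N Ω _ hN (fun x => h1 _ i x) hω y)
    (by
      intro j e
      rw [hτn]
      exact (h1x _ j e).trans hNp)
    (by
      intro j k y
      rw [← prL_mul]
      have := LAP_bd (γ j k * u k (.inr y)) (N * t ^ (2 * k)) Ω (fun x => γ j k * u k (.inl x))
        (fun x => (ω x y : ℝ)) (by positivity) (h2 _ _ _) (fun x => h2 _ _ _) (fun x => hω _ _)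
      refine this.trans (le_of_eq ?_)
      ring)
    (fun e => prL (fun x y => ((ω x y : ℚ) : ℝ)) (σ e))
    (by
      intro j
      obtain ⟨α, h⟩ := h3 j
      refine ⟨α, fun y => ?_⟩
      have h5 : HasSum (fun k => prL (fun x y => ((ω x y : ℚ) : ℝ)) (fun x => γ j k * u k x) y)
          (prL (fun x y => ((ω x y : ℚ) : ℝ))
            (fun y => τ (v (.inr j) y) + ∑ e, σ e y * τ (x j e) -
              ∑ i, α i * τ (v (.inl i) y)) y) := by
        simp only [prL]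
        exact (h (.inr y)).sub (hasSum_sum fun x _ => (h (.inl x)).mul_right _)
      convert h5 using 1
      · funext k
        rw [prL_mul]
      · rw [prL_sub_sum]
        have e1 : prL (fun x y => ((ω x y : ℚ) : ℝ))
            (fun y => τ (v (.inr j) y) + ∑ e, σ e y * τ (x j e)) y =
            prL (fun x y => ((ω x y : ℚ) : ℝ)) (fun y => τ (v (.inr j) y)) y +
              ∑ e, prL (fun x y => ((ω x y : ℚ) : ℝ)) (σ e) y * τ (x j e) := by
          have e2 := prL_sub_sum (fun x y => ((ω x y : ℚ) : ℝ)) univ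
            (fun y => τ (v (.inr j) y)) (fun e => -τ (x j e)) σ y
          have e3 : (fun y => τ (v (.inr j) y) + ∑ e, σ e y * τ (x j e)) =
              fun y => τ (v (.inr j) y) - ∑ e, -τ (x j e) * σ e y := by
            funext y
            rw [← sub_eq_zero]
            have e4 : ∑ e, -τ (x j e) * σ e y = -∑ e, σ e y * τ (x j e) := by
              rw [← sum_neg_distrib]
              exact sum_congr rfl fun e _ => by ring
            rw [e4]
            ring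
          rw [e3, e2]
          have e4 : ∑ e, -τ (x j e) * prL (fun x y => ((ω x y : ℚ) : ℝ)) (σ e) y =
              -∑ e, prL (fun x y => ((ω x y : ℚ) : ℝ)) (σ e) y * τ (x j e) := by
            rw [← sum_neg_distrib]
            exact sum_congr rfl fun e _ => by ring
          rw [e4]
          ring
        rw [e1, prL_map, hmapr]
        congr 1
        refine sum_congr rfl fun i _ => ?_
        rw [prL_map, hmapr])
    (by
      intro ρ
      refine ⟨fun i y => ?_, fun j e => ?_, fun j => ?_⟩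
      · rw [prL_map, hmapc]
        exact prL_bd ω N Ω _ hN (fun x => h1 ρ i x) hω y
      · exact (h1x ρ j e).trans hNp
      · obtain ⟨α, hα⟩ := hc ρ j
        refine ⟨α, fun y => ?_⟩
        have e : ρ (prL (fun x y => ((ω x y : ℚ) : K)) (v (.inr j)) y) -
            ∑ i, α i * ρ (prL (fun x y => ((ω x y : ℚ) : K)) (v (.inl i)) y) =
            prL (fun x y => ((ω x y : ℚ) : ℂ))
              (fun x => ρ (v (.inr j) x) - ∑ i, α i * ρ (v (.inl i) x)) y := by
          rw [prL_sub_sum, prL_map, hmapc]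
          congr 1
          refine sum_congr rfl fun i _ => ?_
          rw [prL_map, hmapc]
        rw [e]
        exact prL_bd ω N Ω _ hN hα hω y)
  exact ⟨R, hR2, hR3⟩

theorem jd_ineq_pi {K : Type} [Field K] [NumberField K] (τ : K →+* ℝ) {Cc Fi Ex : Type}
    [Fintype Cc] [Fintype Fi] [Fintype Ex] (p a B M d : ℕ) (J : Finset ℕ)
    (hp : 1 ≤ p) (hJ : ∀ e ∈ J, e < a) (hM : 0 < M) (hd0 : 0 < d)
    (hd : ∀ q : ℕ, 1 ≤ q → q ≤ M → q ∣ d)
    (hB : 2 * p = B * M) (v : Cc ⊕ Fi → ℕ → ℕ → K) (x : Fi → Ex → K) (M1 : ℕ)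
    (SS : Submodule K (Fi → K)) (hK : M1 ≤ finrank K SS)
    (hK0 : ∀ f ∈ SS, ∀ e, ∑ j, f j * x j e = 0)
    (hmod : ∀ f ∈ SS, ∀ b : Cc → K,
      (∀ l < p, ∀ m < a, ∑ i, b i * v (.inl i) l m + ∑ j, f j * v (.inr j) l m = 0) → f = 0)
    (hV : ∀ e ∈ J, ∀ f ∈ Polynomial.degreeLT K p, ∃ β : Cc → K, ∀ l < p, ∀ m < a,
      ∑ i, β i * v (.inl i) l m =
        PowerSeries.coeff m (PowerSeries.X ^ e * (hl K p l ^ (e % 2) * ev K p l f)))
    (D : ℕ) (hD : 0 < D)
    (hint : ∀ r, ∀ l < p, ∀ m < a, IsIntegral ℤ ((D : K) * v r l m))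
    (hintx : ∀ j e, IsIntegral ℤ ((D : K) * x j e))
    (N t : ℝ) (hN : 0 ≤ N) (ht0 : 0 ≤ t) (ht1 : t < 1) (γ : Fi → ℕ → ℝ) (u : ℕ → ℕ → ℕ → ℝ)
    (h1 : ∀ (ρ : K →+* ℂ) i, ∀ l < p, ∀ m < a, ‖ρ (v (.inl i) l m)‖ ≤ N)
    (h1x : ∀ (ρ : K →+* ℂ) j e, ‖ρ (x j e)‖ ≤ N)
    (hc : ∀ (ρ : K →+* ℂ) j, ∃ α : Cc → ℂ, ∀ l < p, ∀ m < a,
      ‖ρ (v (.inr j) l m) - ∑ i, α i * ρ (v (.inl i) l m)‖ ≤ N)
    (h2 : ∀ j k, ∀ l < p, ∀ m < a, |γ j k * u k l m| ≤ N * t ^ (2 * k))
    (σ : Ex → ℕ → ℕ → ℝ)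
    (h3 : ∀ j, ∃ α : Cc → ℝ, ∀ l < p, ∀ m < a, HasSum (fun k => γ j k * u k l m)
      (τ (v (.inr j) l m) + ∑ e, σ e l m * τ (x j e) - ∑ i, α i * τ (v (.inl i) l m))) :
    ∃ R T : ℕ, R ≤ p * (a - J.card) + Fintype.card Ex ∧ 1 ≤ T ∧ T ≤ B ^ (B * M) ∧
      1 ≤ (((D * (T * d ^ a) : ℕ) : ℝ) ^ R * ((R.factorial : ℝ) *
        (N * (1 + ((p * J.card : ℕ) : ℝ) * (((a + 1).factorial * 2 ^ (a + 1) : ℕ) *
          (2 ^ a * (2 * p + 1) ^ 2 * 4 ^ p)))) ^ R)) ^ finrank ℚ K *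
        (2 ^ R * (t ^ (M1 * (M1 - 1) / 2) * (1 / (1 - t)) ^ Fintype.card Fi)) := by
  classical
  obtain ⟨T, ω, hT0, hT1, hω1, hω2, hω3⟩ := pi_gen J a hJ B M d p hM hd hB hp
  obtain ⟨R, hR2, hR3⟩ := jd_ineq_projK τ (CL := Fin p × {e // e ∈ J})
    (CH := Fin p × {m // m ∈ range a \ J})
    (fun r x => match x with
      | .inl x => v r x.1 x.2.1
      | .inr y => v r y.1 y.2.1) x M1 SS hK hK0
    (by
      intro f hf b hbf
      refine hmod f hf b fun l hl m hm => ?_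
      by_cases h : m ∈ J
      · exact hbf (.inl (⟨l, hl⟩, ⟨m, h⟩))
      · exact hbf (.inr (⟨l, hl⟩, ⟨m, mem_sdiff.2 ⟨mem_range.2 hm, h⟩⟩)))
    (fun x y => ω x.1 x.2.1 y.1 y.2.1)
    (by
      rintro ⟨l0, k0⟩
      obtain ⟨Q, hQ, hQe⟩ := hω1 l0 l0.2 k0.1 k0.2
      choose! β hβ using hV
      have hQm : ∀ e, (Q e).map (Rat.castHom K) ∈ Polynomial.degreeLT K p := by
        intro e
        rw [Polynomial.mem_degreeLT]
        exact lt_of_le_of_lt Polynomial.degree_map_le (Polynomial.mem_degreeLT.1 (hQ e))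
      have e1 : ∀ l < p, ∀ m < a,
          ∑ i, (∑ e ∈ J, β e ((Q e).map (Rat.castHom K)) i) * v (Sum.inl i) l m =
            ((PowerSeries.coeff m
              (∑ e ∈ J, PowerSeries.X ^ e * (hl ℚ p l ^ (e % 2) * ev ℚ p l (Q e))) : ℚ) : K) := by
        intro l hl' m hm
        simp only [sum_mul]
        rw [sum_comm, map_sum, Rat.cast_sum]
        refine sum_congr rfl fun e he => ?_
        rw [hβ e he _ (hQm e) l hl' m hm]
        have e2 : PowerSeries.map (Rat.castHom K)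
            (PowerSeries.X ^ e * (hl ℚ p l ^ (e % 2) * ev ℚ p l (Q e))) =
            PowerSeries.X ^ e * (hl K p l ^ (e % 2) * ev K p l ((Q e).map (Rat.castHom K))) := by
          rw [map_mul, map_mul, map_pow, map_pow, pc_hl, pc_ev, PowerSeries.map_X]
        rw [← e2, PowerSeries.coeff_map]
        rfl
      refine ⟨fun i => ∑ e ∈ J, β e ((Q e).map (Rat.castHom K)) i, ?_, ?_⟩
      · rintro ⟨l, k⟩
        simp only
        rw [e1 l l.2 k.1 (hJ _ k.2), hQe l l.2 k.1 (hJ _ k.2), if_pos k.2]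
        simp only [Prod.mk.injEq, Fin.ext_iff, Subtype.ext_iff]
        split_ifs <;> simp
      · rintro ⟨l, ⟨m, hm⟩⟩
        simp only
        rw [mem_sdiff, mem_range] at hm
        rw [e1 l l.2 m hm.1, hQe l l.2 m hm.1, if_neg hm.2])
    D (T * d ^ a) hD (by positivity)
    (by
      rintro r (⟨l, k⟩ | ⟨l, ⟨m, hm⟩⟩)
      · exact hint r l l.2 k (hJ _ k.2)
      · exact hint r l l.2 m (mem_range.1 (mem_sdiff.1 hm).1))
    hintx
    (by
      rintro ⟨l, k⟩ ⟨l', ⟨m, hm⟩⟩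
      rw [mem_sdiff, mem_range] at hm
      exact hω2 l l.2 k.1 k.2 l' l'.2 m hm.1 hm.2)
    N (((a + 1).factorial * 2 ^ (a + 1) : ℕ) * (2 ^ a * (2 * p + 1) ^ 2 * 4 ^ p)) t hN
    (by positivity) ht0 ht1
    (by
      rintro ⟨l, k⟩ ⟨l', ⟨m, hm⟩⟩
      rw [mem_sdiff, mem_range] at hm
      exact hω3 l l.2 k.1 k.2 l' l'.2 m hm.1 hm.2)
    γ
    (fun k x => match x with
      | .inl x => u k x.1 x.2.1
      | .inr y => u k y.1 y.2.1)
    (by
      rintro ρ i (⟨l, k⟩ | ⟨l, ⟨m, hm⟩⟩)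
      · exact h1 ρ i l l.2 k (hJ _ k.2)
      · exact h1 ρ i l l.2 m (mem_range.1 (mem_sdiff.1 hm).1))
    h1x
    (by
      intro ρ j
      obtain ⟨α, hα⟩ := hc ρ j
      refine ⟨α, ?_⟩
      rintro (⟨l, k⟩ | ⟨l, ⟨m, hm⟩⟩)
      · exact hα l l.2 k (hJ _ k.2)
      · exact hα l l.2 m (mem_range.1 (mem_sdiff.1 hm).1))
    (by
      rintro j κ (⟨l, k⟩ | ⟨l, ⟨m, hm⟩⟩)
      · exact h2 j κ l l.2 k (hJ _ k.2)
      · exact h2 j κ l l.2 m (mem_range.1 (mem_sdiff.1 hm).1))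
    (fun e x => match x with
      | .inl x => σ e x.1 x.2.1
      | .inr y => σ e y.1 y.2.1)
    (by
      intro j
      obtain ⟨α, hα⟩ := h3 j
      refine ⟨α, ?_⟩
      rintro (⟨l, k⟩ | ⟨l, ⟨m, hm⟩⟩)
      · exact hα l l.2 k (hJ _ k.2)
      · exact hα l l.2 m (mem_range.1 (mem_sdiff.1 hm).1))
  have hcH : (range a \ J).card = a - J.card := by
    rw [card_sdiff_of_subset (fun e he => mem_range.2 (hJ e he)), card_range]
  refine ⟨R, T, ?_, hT0, hT1, ?_⟩
  · simpa only [Fintype.card_prod, Fintype.card_fin, Fintype.card_coe, hcH] using hR2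
  · simpa only [Fintype.card_prod, Fintype.card_fin, Fintype.card_coe] using hR3

end Pool.Agent.SID
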