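import Pool.Agent.SID.ZESD
import Pool.Agent.SID.PJX
import Pool.Agent.SK.ONESK

/-!
# SID: the determinant inequality for fixed data and `M` large

Pattern `SK/ONESK.si_one2K`, with `sid_ze` in place of `one_modK` and `jd_ineq_pi` in place of
`det_ineq_piK`: `Cc = J × Fin n`, `Fi = Fin (k0+1) × Fin (S+1) × Fin P`,
`Ex = J' × Fin p × {m // m ∈ Ico (s - S) a}` (the coordinates `m < s - S` of `eRow` vanish by
`hc`), shear `σ (j', l, m) l' m' = v j'` if `(l, m) = (l', m')` and `0` otherwise. The real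
coordinate `fRow zr = fRow z + ∑ v j' eRow (c j') + zp-part of the residue` (`H1`).
-/

namespace Pool.Agent.SID

open Finset Pool.Agent.ZC Pool.Agent.SI Pool.Agent.SK

/-! ### the extra rows -/

theorem zp_split (T : ℕ) {J' : Type} [Fintype J'] (f : ℕ → ℝ) (c : ℕ → J' → ℝ) (v : J' → ℝ) :
    zp ℝ T (fun i => zr i - f i) = zp ℝ T (fun i => zr i - (f i + ∑ x, c i x * v x)) +
      ∑ x, PowerSeries.C (v x) * zp ℝ T (fun i => c i x) := by
  have h1 : ∑ x, PowerSeries.C (v x) * zp ℝ T (fun i => c i x) =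
      ∑ i ∈ oddS T, PowerSeries.C (2 * ((2 : ℝ) ^ i - 1) * ∑ x, c i x * v x) *
        PowerSeries.X ^ (i - 1) := by
    simp only [zp, mul_sum]
    rw [sum_comm]
    refine sum_congr rfl fun i _ => ?_
    rw [map_sum, sum_mul]
    refine sum_congr rfl fun x _ => ?_
    rw [← mul_assoc, ← map_mul]
    congr 2
    ring
  rw [h1, zp, zp, ← sum_add_distrib]
  refine sum_congr rfl fun i _ => ?_
  rw [← add_mul, ← map_add]
  congr 2
  ring

theorem eRow_lin (K : Type) [Field K] (M p q T : ℕ) (c : ℕ → K) (l k r j m : ℕ) :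
    PowerSeries.coeff m (eRow K M p q T c l k r j) =
      ∑ i ∈ oddS T, c i * PowerSeries.coeff m (zRow1 K M p q T i l k r j) := by
  rw [eRow_eq_zRow, zRow_lin, map_sum]
  exact sum_congr rfl fun i _ => PowerSeries.coeff_C_mul _ _ _

theorem eRow_intK {K : Type} [Field K] [CharZero K] {d M a S : ℕ} (hM : 0 < M)
    (hd : ∀ q : ℕ, 1 ≤ q → q ≤ 2 * M → q ∣ d)
    (T : ℕ) (c : ℕ → K) (D0 : ℕ) (hz : ∀ i ∈ oddS T, IsIntegral ℤ ((D0 : K) * c i)) (p l q : ℕ)
    (hl : l < p) (hq : p ≤ q) (k r j m : ℕ) (hr : r ≤ S) (hm : m < a) :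
    IsIntegral ℤ (((D0 * d ^ (a + S + 1) : ℕ) : K) *
      PowerSeries.coeff m (eRow K M p q T c l k r j)) := by
  rw [eRow_eq_zRow, sk_lin_z, mul_sum]
  refine IsIntegral.sum _ fun i hi => ?_
  have h1 := sk_cast_int K (zRow_int (a := a) (S := S) hM hd T i p l q hl hq k r j m hr hm)
  have e : ((D0 * d ^ (a + S + 1) : ℕ) : K) * (c i *
      ((PowerSeries.coeff m (zRow ℚ M p q T (Pi.single i 1) l k r j) : ℚ) : K)) =
      ((D0 : K) * c i) * (((1 * d ^ (a + S + 1) : ℕ) : K) *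
      ((PowerSeries.coeff m (zRow ℚ M p q T (Pi.single i 1) l k r j) : ℚ) : K)) := by
    push_cast
    ring
  rw [e]
  exact (hz i hi).mul h1

theorem eRow_bd {K : Type} [Field K] [CharZero K] (ρ : K →+* ℂ) (M p q T : ℕ) (c : ℕ → K)
    (l k r j m : ℕ) (N : ℝ)
    (hz : ∀ i ∈ oddS T, |PowerSeries.coeff m (zRow1 ℝ M p q T i l k r j)| ≤ N) :
    ‖ρ (PowerSeries.coeff m (eRow K M p q T c l k r j))‖ ≤ (∑ i ∈ oddS T, ‖ρ (c i)‖) * N := by
  have e3 : ∀ i, ρ (PowerSeries.coeff m (zRow1 K M p q T i l k r j)) =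
      ((PowerSeries.coeff m (zRow1 ℝ M p q T i l k r j) : ℝ) : ℂ) := by
    intro i
    have h1 := congrArg (PowerSeries.coeff m) (mk_zRow1 ℝ Complex.ofRealHom M p q T i l k r j)
    have h2 := congrArg (PowerSeries.coeff m) (mk_zRow1 K ρ M p q T i l k r j)
    rw [PowerSeries.coeff_map] at h1 h2
    rw [h2]
    exact h1.symm
  rw [eRow_lin, map_sum, sum_mul]
  refine (norm_sum_le _ _).trans (sum_le_sum fun i hi => ?_)
  rw [map_mul, e3, norm_mul, Complex.norm_real, Real.norm_eq_abs]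
  exact mul_le_mul_of_nonneg_left (hz i hi) (norm_nonneg _)

theorem eRow_low (K : Type) [Field K] (M p q T s S : ℕ) (c : ℕ → K) (hc : ∀ i ≤ s, c i = 0)
    (l k r j m : ℕ) (hr : r ≤ S) (hm : m < s - S) :
    PowerSeries.coeff m (eRow K M p q T c l k r j) = 0 := by
  have h1 : (PowerSeries.X : PowerSeries K) ^ s ∣ zp K T c := by
    rw [zp]
    refine dvd_sum fun i _ => ?_
    by_cases h : i ≤ s
    · rw [hc i h, mul_zero, map_zero, zero_mul]
      exact dvd_zero _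
    · exact Dvd.dvd.mul_left (pow_dvd_pow _ (by omega)) _
  have h2 : (PowerSeries.X : PowerSeries K) ^ s ∣
      hl K p l ^ ((k + r) % 2) * ev K p l (Am K M q * Cn K M j) * zp K T c := Dvd.dvd.mul_left h1 _
  rw [PowerSeries.X_pow_dvd_iff] at h2
  rw [eRow, PowerSeries.coeff_X_pow_mul']
  split_ifs
  · rw [hs, PowerSeries.coeff_mk, h2 _ (by omega), mul_zero]
  · rfl

theorem tau_eRow {K : Type} [Field K] (τ : K →+* ℝ) (M p q T : ℕ) (c : ℕ → K) (l k r j m : ℕ) :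
    τ (PowerSeries.coeff m (eRow K M p q T c l k r j)) =
      PowerSeries.coeff m (eRow ℝ M p q T (fun i => τ (c i)) l k r j) := by
  have h : PowerSeries.map τ (eRow K M p q T c l k r j) =
      eRow ℝ M p q T (fun i => τ (c i)) l k r j := by
    rw [eRow, eRow, map_mul, map_pow, PowerSeries.map_X, mk_hs, map_mul,
      map_mul, map_pow, mk_hl, mk_ev, Polynomial.map_mul, mk_Am, mk_Cn, mk_zp]
  rw [← h, PowerSeries.coeff_map]

theorem den_all {K : Type} [Field K] [NumberField K] (a T : ℕ) {J J' : Type} [Fintype J]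
    [Fintype J'] (ψ : J → PowerSeries K) (z : ℕ → K) (c : ℕ → J' → K) :
    ∃ D0 : ℕ, 0 < D0 ∧ (∀ i ∈ oddS T, IsIntegral ℤ ((D0 : K) * z i)) ∧
      (∀ j, ∀ m < a, IsIntegral ℤ ((D0 : K) * PowerSeries.coeff m (ψ j))) ∧
      ∀ x, ∀ i ∈ oddS T, IsIntegral ℤ ((D0 : K) * c i x) := by
  obtain ⟨D1, hD1, h1, h2⟩ := ONE_denK a T ψ z
  have h3 : ∀ x, ∃ D : ℕ, 0 < D ∧ ∀ i ∈ oddS T, IsIntegral ℤ ((D : K) * c i x) := by
    intro x
    obtain ⟨D, hD, h4, -⟩ := ONE_denK a T ψ (fun i => c i x)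
    exact ⟨D, hD, h4⟩
  choose D hD h4 using h3
  refine ⟨D1 * ∏ x, D x, Nat.mul_pos hD1 (Finset.prod_pos fun x _ => hD x), ?_, ?_, ?_⟩
  · intro i hi
    have e : ((D1 * ∏ x, D x : ℕ) : K) * z i = ((∏ x, D x : ℕ) : K) * ((D1 : K) * z i) := by
      push_cast
      ring
    rw [e]
    exact IsIntegral.mul (isIntegral_natCast _) (h1 i hi)
  · intro j m hm
    have e : ((D1 * ∏ x, D x : ℕ) : K) * PowerSeries.coeff m (ψ j) =
        ((∏ x, D x : ℕ) : K) * ((D1 : K) * PowerSeries.coeff m (ψ j)) := by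
      push_cast
      ring
    rw [e]
    exact IsIntegral.mul (isIntegral_natCast _) (h2 j m hm)
  · intro x i hi
    classical
    have e : ((D1 * ∏ x, D x : ℕ) : K) * c i x =
        ((D1 * ∏ y ∈ univ.erase x, D y : ℕ) : K) * ((D x : K) * c i x) := by
      rw [← Finset.mul_prod_erase univ D (mem_univ x)]
      push_cast
      ring
    rw [e]
    exact IsIntegral.mul (isIntegral_natCast _) (h4 x i hi)

/-- for fixed data and `M` large: the determinant inequality with `d` extra vectors -/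
theorem sid_one {K : Type} [Field K] [NumberField K] (τ : K →+* ℝ) (g S k0 a s f0 Lx : ℕ)
    (Cst : ℝ) (hCst : 100 ≤ Cst) (hL : 0 < Lx)
    (hNR : ∃ M0 : ℕ, ∀ M ≥ M0, NRfam g S k0 a Lx M
      ((Cst * ((g : ℝ) + 2) * (a + S + 1)) ^ (4 * ((g + 2) * ((a + S + 1) * M)))))
    (hg : 1 ≤ g) (ha : 1 ≤ a) {J : Type} [Fintype J]
    (ψ : J → PowerSeries K) (σ : J → ℕ) (hσ : ∀ j, σ j ≤ 1)
    (hψ : ∀ j, PowerSeries.evalNegHom (ψ j) = PowerSeries.C ((-1 : K) ^ σ j) * ψ j) (z : ℕ → K)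
    {J' : Type} [Fintype J'] (v : J' → ℝ) (c : ℕ → J' → K) (hc : ∀ i ≤ s, ∀ j, c i j = 0)
    (hi : (g + 2) * (k0 + 2 + Fintype.card J) + f0 + 1 ≤ g * (a - k0))
    (h1 : g * (Fintype.card J' * (a + S - s)) + f0 + 1 ≤ (k0 + 1) * (S + 1))
    (J0 : Finset ℕ) (hJ0 : ∀ e ∈ J0, e < a)
    (hJ1 : ∀ e ∈ J0, ∃ j, σ j = e % 2 ∧ ψ j = PowerSeries.X ^ e)
    (H0 : ∀ k ≤ k0, ∃ j, σ j = k % 2 ∧ ψ j = PowerSeries.X ^ k)
    (H1 : ∀ k ≤ k0, ∀ r ≤ S, ∃ α : J → ℝ, (∀ j, α j ≠ 0 → σ j = (k + r) % 2) ∧ ∀ m < a,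
      PowerSeries.coeff m (PowerSeries.X ^ k *
        hs ℝ r (zp ℝ (a + S) (fun i => zr i - (τ (z i) + ∑ x, τ (c i x) * v x)))) =
          ∑ j, α j * τ (PowerSeries.coeff m (ψ j))) :
    ∃ D0 : ℕ, 0 < D0 ∧ ∃ Λ : ℝ, 1 ≤ Λ ∧ ∃ M0 : ℕ, ∀ M ≥ M0, ∃ R T : ℕ,
      R ≤ g * ((a + S + 1) * M) * ((a - J0.card) + Fintype.card J' * (a + S - s)) ∧
      1 ≤ T ∧ T ≤ (2 * g * (a + S + 1)) ^ (2 * g * (a + S + 1) * M) ∧
      1 ≤ (((D0 * Nat.lcmUpto (2 * M) ^ (a + S + 1) *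
          (T * Nat.lcmUpto (2 * M) ^ a) : ℕ) : ℝ) ^ R *
        ((R.factorial : ℝ) *
        (Λ * (Cst * ((g : ℝ) + 2) * (a + S + 1)) ^ (4 * ((g + 2) * ((a + S + 1) * M))) *
          (1 + ((g * ((a + S + 1) * M) * J0.card : ℕ) : ℝ) *
            (((a + 1).factorial * 2 ^ (a + 1) : ℕ) *
              (2 ^ a * (2 * (g * ((a + S + 1) * M) : ℕ) + 1) ^ 2 *
                4 ^ (g * ((a + S + 1) * M)))))) ^ R)) ^ (Module.finrank ℚ K) *
        (2 ^ R * (((1 / 2) ^ ((1 : ℝ) / (2 * ((k0 + 1) * Lx : ℕ)))) ^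
          ((((a + S + 1) * M) * f0) * ((((a + S + 1) * M) * f0) - 1) / 2) *
        (1 / (1 - (1 / 2) ^ ((1 : ℝ) / (2 * ((k0 + 1) * Lx : ℕ))))) ^
          ((k0 + 1) * ((S + 1) * ((a + S + 1) * M))))) := by
  classical
  obtain ⟨D0, hD0, hDz, hDψ, hDc⟩ := den_all a (a + S) ψ z c
  obtain ⟨P0, hP0⟩ := sid_ze K g S k0 a (a + S) s f0 hg ψ σ hσ hψ z c hc hi h1
  obtain ⟨M1, hM1⟩ := bd_cRow g S a hg ha (J := Fin 2) (fun _ => (1 : PowerSeries ℝ))
    (fun s => (s : ℕ)) (fun s => by have := s.2; omega)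
  obtain ⟨M3, hM3⟩ := sk_bd_z g S a hg ha
  obtain ⟨M2, hM2⟩ := hNR
  -- the constant
  set Wψ : (K →+* ℂ) → ℝ := fun ρ => ∑ j, ∑ x ∈ range a, ‖ρ (PowerSeries.coeff x (ψ j))‖ with hWψ
  set Wz : (K →+* ℂ) → ℝ := fun ρ => ∑ i ∈ oddS (a + S), (‖ρ (z i)‖ + |zr i|) with hWz
  set Wc : (K →+* ℂ) → ℝ := fun ρ => ∑ x, ∑ i ∈ oddS (a + S), ‖ρ (c i x)‖ with hWc
  have hWc0 : ∀ ρ, 0 ≤ Wc ρ := fun ρ => by
    rw [hWc]
    exact Finset.sum_nonneg fun j _ => Finset.sum_nonneg fun x _ => norm_nonneg _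
  have hWψ0 : ∀ ρ, 0 ≤ Wψ ρ := fun ρ => by
    rw [hWψ]
    exact Finset.sum_nonneg fun j _ => Finset.sum_nonneg fun x _ => norm_nonneg _
  have hWz0 : ∀ ρ, 0 ≤ Wz ρ := fun ρ => by
    rw [hWz]
    exact Finset.sum_nonneg fun j _ => by positivity
  set Λ : ℝ := 2 + 2 * Lx + ∑ ρ : K →+* ℂ, (Wψ ρ + Wz ρ + Wc ρ) with hΛ
  have hΛs : ∀ ρ, Wψ ρ + Wz ρ + Wc ρ ≤ ∑ ρ : K →+* ℂ, (Wψ ρ + Wz ρ + Wc ρ) := fun ρ =>
    Finset.single_le_sum (f := fun ρ => Wψ ρ + Wz ρ + Wc ρ)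
      (fun ρ _ => add_nonneg (add_nonneg (hWψ0 ρ) (hWz0 ρ)) (hWc0 ρ)) (Finset.mem_univ ρ)
  have hΛ0 : 0 ≤ ∑ ρ : K →+* ℂ, (Wψ ρ + Wz ρ + Wc ρ) :=
    Finset.sum_nonneg fun ρ _ => add_nonneg (add_nonneg (hWψ0 ρ) (hWz0 ρ)) (hWc0 ρ)
  have hLx0 : (0 : ℝ) ≤ Lx := Nat.cast_nonneg _
  have hΛ2 : 2 ≤ Λ := by rw [hΛ]; linarith
  have hΛc : ∀ ρ, Wc ρ ≤ Λ := fun ρ => by
    have := hΛs ρ
    have := hWz0 ρ
    have := hWψ0 ρ
    rw [hΛ]; linarith
  have hΛψ : ∀ ρ, Wψ ρ ≤ Λ := fun ρ => by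
    have := hΛs ρ
    have := hWz0 ρ
    have := hWc0 ρ
    rw [hΛ]; linarith
  have hΛz : ∀ ρ, Wz ρ + 2 * Lx ≤ Λ := fun ρ => by
    have := hΛs ρ
    have := hWψ0 ρ
    have := hWc0 ρ
    rw [hΛ]; linarith
  refine ⟨D0, hD0, Λ, by linarith, P0 + M1 + M2 + M3 + 1, fun M hM => ?_⟩
  have hMP0 : P0 ≤ M := by omega
  have hMM1 : M1 ≤ M := by omega
  have hMM2 : M2 ≤ M := by omega
  have hMM3 : M3 ≤ M := by omega
  have hMpos : 0 < M := by omega
  obtain ⟨P, hP⟩ : ∃ P, P = (a + S + 1) * M := ⟨_, rfl⟩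
  have hPM : M ≤ P := by rw [hP]; exact Nat.le_mul_of_pos_left _ (by omega)
  have hPpos : 0 < P := by omega
  have hcr := hM1 M hMM1
  have hzr := hM3 M hMM3
  obtain ⟨U, γ, hfam, hbd⟩ := hM2 M hMM2
  obtain ⟨SS, hSS1, hSS2⟩ := hP0 P (by omega) M hMpos
  have hB : 2 * (g * ((a + S + 1) * M)) = 2 * g * (a + S + 1) * M := by ring
  rw [← hP] at hcr hfam hbd hB hzr ⊢
  set d := Nat.lcmUpto (2 * M) with hd
  have hd0 : 0 < d := Nat.lcmUpto_pos _
  have hdd : ∀ q : ℕ, 1 ≤ q → q ≤ 2 * M → q ∣ d := fun q h1 h2 => dvd_lcmUpto h1 h2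
  set p := g * P with hp
  set q := (g + 1) * P with hq
  set n := (g + 2) * P with hn
  have hpq : q = p + P := by rw [hq, hp]; ring
  have hqn : n = q + P := by rw [hn, hq]; ring
  have hpn : p ≤ n := by omega
  have hp1 : 1 ≤ p := Nat.mul_pos (by omega) hPpos
  set N0 : ℝ := (Cst * ((g : ℝ) + 2) * (a + S + 1)) ^ (4 * n) with hN0
  have hN0pos : 0 ≤ N0 := by positivity
  have hN0' : (100 * ((g : ℝ) + 2) * (a + S + 1)) ^ (4 * n) ≤ N0 := by
    rw [hN0]
    gcongr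
  have hNN : 2 * N0 ≤ Λ * N0 := mul_le_mul_of_nonneg_right hΛ2 hN0pos
  set Kx := (k0 + 1) * Lx with hKx
  have hKpos : 0 < Kx := by positivity
  set t : ℝ := (1 / 2) ^ ((1 : ℝ) / (2 * (Kx : ℕ))) with ht
  have hKr : (0 : ℝ) < Kx := by exact_mod_cast hKpos
  have htpos : 0 ≤ t := Real.rpow_nonneg (by norm_num) _
  have ht1 : t < 1 := Real.rpow_lt_one (by norm_num) (by norm_num) (by positivity)
  have htk : t ^ (2 * Kx) = 1 / 2 := by
    rw [ht, ← Real.rpow_natCast, ← Real.rpow_mul (by norm_num)]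
    have : (1 : ℝ) / (2 * (Kx : ℕ)) * ((2 * Kx : ℕ) : ℝ) = 1 := by
      push_cast
      field_simp
    rw [this, Real.rpow_one]
  have hf : ∀ j < P, (Am ℝ M q * Cn ℝ M j) ∈ Polynomial.degreeLT ℝ n := fun j hj => by
    rw [hqn]
    exact ONE_Am_mem ℝ M q P _ (ONE_Cn_mem ℝ M j P hj)
  -- the rational companions are bounded
  have hcb : ∀ l < p, ∀ i < n, ∀ s ≤ 1, ∀ m < a,
      |PowerSeries.coeff m (hl ℝ p l ^ s * ev ℝ p l (Cn ℝ M i))| ≤ N0 := by
    intro l hlp i hi s hs m hm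
    have h1 := hcr l hlp i hi ⟨s, by omega⟩ m hm
    rw [cRow, one_mul] at h1
    exact h1.trans hN0'
  have hzb : ∀ l < p, ∀ j < P, ∀ k, ∀ r ≤ S, ∀ i ∈ oddS (a + S), ∀ m < a,
      |PowerSeries.coeff m (zRow1 ℝ M p q (a + S) i l k r j)| ≤ N0 := by
    intro l hlp j hj k r hr i hi m hm
    exact (hzr l hlp j hj k r hr i hi m hm).trans hN0'
  -- the real rows
  set ψr : J → PowerSeries ℝ := fun j => PowerSeries.map τ (ψ j) with hψr
  obtain ⟨R, T, hR2, hT1, hT2, hR3⟩ := jd_ineq_pi (K := K) τ (Cc := J × Fin n)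
    (Fi := Fin (k0 + 1) × Fin (S + 1) × Fin P) (Ex := J' × Fin p × {m // m ∈ Ico (s - S) a}) p a (2 * g * (a + S + 1)) M d J0 hp1 hJ0
    hMpos hd0
    (fun x h1 h2 => hdd x h1 (by omega)) hB
    (fun r l m => match r with
      | .inl x => PowerSeries.coeff m (cRow K M p ψ σ l x.1 x.2)
      | .inr x => PowerSeries.coeff m (fRow K M p q (a + S) z l x.1 x.2.1 x.2.2))
    (fun y e => PowerSeries.coeff (e.2.2 : ℕ)
      (eRow K M p q (a + S) (fun i => c i e.1) e.2.1 y.1 y.2.1 y.2.2))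
    (P * f0) SS hSS1
    (fun f hf e => (hSS2 f hf).1 e.1 e.2.1 e.2.1.2 e.2.2 (mem_Ico.1 e.2.2.2).2)
    (fun f hf b hb => (hSS2 f hf).2 b fun l hl m hm => by
      rw [add_comm]
      exact hb l hl m hm)
    (by
      intro e he f hfe
      obtain ⟨je, hje1, hje2⟩ := hJ1 e he
      obtain ⟨β, hβ⟩ := exists_comb K M p f hfe
      refine ⟨fun y => if y.1 = je then (if h : (y.2 : ℕ) < p then β ⟨y.2, h⟩ else 0) else 0,
        fun l _ m _ => ?_⟩
      rw [Fintype.sum_prod_type, Finset.sum_eq_single je]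
      · simp only [if_true]
        have e1 : PowerSeries.X ^ e * (hl K p l ^ (e % 2) * ev K p l f) =
            ∑ i : Fin p, PowerSeries.C (β i) * cRow K M p ψ σ l je i := by
          rw [hβ, ONE_ev_sum, mul_sum, mul_sum]
          refine sum_congr rfl fun i _ => ?_
          rw [cRow, hje1, hje2, ONE_ev_mul, ONE_ev_C]
          ring
        rw [e1, map_sum]
        simp only [PowerSeries.coeff_C_mul]
        have e2 : ∀ F : ℕ → K, ∑ i : Fin n, (if h : (i : ℕ) < p then β ⟨i, h⟩ else 0) * F i =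
            ∑ i : Fin p, β i * F i := by
          intro F
          have e3 := Fin.sum_univ_eq_sum_range
            (fun i => (if h : i < p then β ⟨i, h⟩ else 0) * F i) n
          have e4 := Fin.sum_univ_eq_sum_range
            (fun i => (if h : i < p then β ⟨i, h⟩ else 0) * F i) p
          rw [e3, ← Finset.sum_subset (range_mono hpn)]
          · rw [← e4]
            exact sum_congr rfl fun i _ => by rw [dif_pos i.2]
          · intro i _ hi
            rw [mem_range, not_lt] at hi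
            rw [dif_neg (by omega), zero_mul]
        exact e2 fun i => PowerSeries.coeff m (cRow K M p ψ σ l je i)
      · intro j _ hj
        simp [hj]
      · intro h
        exact absurd (mem_univ _) h)
    (D0 * d ^ (a + S + 1)) (by positivity)
    (by
      rintro (x | x) l hl m hm
      · have hw := cRow_intK K hMpos hdd ψ σ D0 p l x.1 (hDψ x.1) x.2 m hm
        have hd' : IsIntegral ℤ (((d ^ (S + 1) : ℕ) : K)) := by
          rw [← map_natCast (algebraMap ℤ K)]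
          exact isIntegral_algebraMap
        have e : (((D0 * d ^ (a + S + 1) : ℕ)) : K) *
            PowerSeries.coeff m (cRow K M p ψ σ l x.1 x.2) =
            ((d ^ (S + 1) : ℕ) : K) * (((D0 * d ^ a : ℕ) : K) *
              PowerSeries.coeff m (cRow K M p ψ σ l x.1 x.2)) := by
          push_cast
          ring
        show IsIntegral ℤ ((((D0 * d ^ (a + S + 1) : ℕ)) : K) *
            PowerSeries.coeff m (cRow K M p ψ σ l x.1 x.2))
        rw [e]
        exact hd'.mul hw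
      · exact fRow_intK K hMpos hdd (a + S) z D0 hDz p l q hl (by omega) x.1 x.2.1 x.2.2 m
          (Nat.lt_succ_iff.1 x.2.1.2) hm)
    (fun y e => eRow_intK hMpos hdd (a + S) (fun i => c i e.1) D0 (hDc e.1) p e.2.1 q e.2.1.2
      (by omega) y.1 y.2.1 y.2.2 e.2.2 (Nat.lt_succ_iff.1 y.2.1.2) (mem_Ico.1 e.2.2.2).2)
    (Λ * N0) t (by positivity) htpos ht1
    (fun x κ' => if κ' % Kx / Lx = (x.1 : ℕ) then
      γ (κ' % Kx % Lx) x.1 x.2.1 x.2.2 (κ' / Kx) else 0)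
    (fun κ' l m => PowerSeries.coeff m (U (κ' % Kx % Lx) (κ' % Kx / Lx) l (κ' / Kx)))
    (by
      intro ρ x l hl m hm
      have h1 := conj_cRow_bd ρ M p a ψ σ l x.1 (x.2 : ℕ) m hm N0 hN0pos
        (fun m hm => hcb l hl x.2 x.2.2 (σ x.1) (hσ x.1) m hm)
      refine h1.trans (mul_le_mul_of_nonneg_right ?_ hN0pos)
      refine le_trans ?_ (hΛψ ρ)
      exact Finset.single_le_sum
        (f := fun j => ∑ x ∈ range a, ‖ρ (PowerSeries.coeff x (ψ j))‖)
        (fun j _ => Finset.sum_nonneg fun x _ => norm_nonneg _) (Finset.mem_univ x.1))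
    (by
      intro ρ y e
      have h1 := eRow_bd ρ M p q (a + S) (fun i => c i e.1) e.2.1 y.1 y.2.1 y.2.2 e.2.2 N0
        (fun i hi => hzb e.2.1 e.2.1.2 y.2.2 y.2.2.2 y.1 y.2.1 (Nat.lt_succ_iff.1 y.2.1.2) i hi
          e.2.2 (mem_Ico.1 e.2.2.2).2)
      refine h1.trans (mul_le_mul_of_nonneg_right (le_trans ?_ (hΛc ρ)) hN0pos)
      exact Finset.single_le_sum (f := fun x => ∑ i ∈ oddS (a + S), ‖ρ (c i x)‖)
        (fun j _ => Finset.sum_nonneg fun x _ => norm_nonneg _) (Finset.mem_univ e.1))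
    (by
      intro ρ x
      obtain ⟨Q, hQ, hser⟩ := hfam x.1 (Nat.lt_succ_iff.1 x.1.2) x.2.1
        (Nat.lt_succ_iff.1 x.2.1.2) x.2.2 x.2.2.2
      obtain ⟨j0, hj0, hj0'⟩ := H0 x.1 (Nat.lt_succ_iff.1 x.1.2)
      obtain ⟨β, hβ⟩ := exists_comb ℝ M n Q hQ
      refine ⟨fun y => if y.1 = j0 then ((β y.2 : ℝ) : ℂ) else 0, fun l hlp m hm => ?_⟩
      -- the combination of the companions
      have hT : ∑ y : J × Fin n, (if y.1 = j0 then ((β y.2 : ℝ) : ℂ) else 0) *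
          ρ (PowerSeries.coeff m (cRow K M p ψ σ l y.1 y.2)) =
          ((PowerSeries.coeff m (PowerSeries.X ^ (x.1 : ℕ) *
            (hl ℝ p l ^ ((x.1 : ℕ) % 2) * ev ℝ p l Q)) : ℝ) : ℂ) := by
        rw [Fintype.sum_prod_type, Finset.sum_eq_single j0]
        · simp only [if_true]
          have e1 : ∀ i : Fin n, ρ (PowerSeries.coeff m (cRow K M p ψ σ l j0 i)) =
              ((PowerSeries.coeff m (PowerSeries.X ^ (x.1 : ℕ) *
                (hl ℝ p l ^ ((x.1 : ℕ) % 2) * ev ℝ p l (Cn ℝ M i))) : ℝ) : ℂ) := by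
            intro i
            have h1 : ρ (PowerSeries.coeff m (cRow K M p ψ σ l j0 i)) =
                PowerSeries.coeff m (PowerSeries.X ^ (x.1 : ℕ) *
                  (hl ℂ p l ^ ((x.1 : ℕ) % 2) * ev ℂ p l (Cn ℂ M i))) := by
              rw [← PowerSeries.coeff_map, mk_cRow, cRow, hj0', hj0, map_pow, PowerSeries.map_X]
            have h2 := congrArg (PowerSeries.coeff m) (show PowerSeries.map Complex.ofRealHom
              (PowerSeries.X ^ (x.1 : ℕ) *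
                (hl ℝ p l ^ ((x.1 : ℕ) % 2) * ev ℝ p l (Cn ℝ M i))) =
                PowerSeries.X ^ (x.1 : ℕ) *
                  (hl ℂ p l ^ ((x.1 : ℕ) % 2) * ev ℂ p l (Cn ℂ M i)) by
              rw [map_mul, map_pow, PowerSeries.map_X, map_mul, map_pow, mk_hl, mk_ev, mk_Cn])
            rw [PowerSeries.coeff_map] at h2
            rw [h1, ← h2]
            rfl
          have e2 : PowerSeries.X ^ (x.1 : ℕ) * (hl ℝ p l ^ ((x.1 : ℕ) % 2) * ev ℝ p l Q) =
              ∑ i : Fin n, PowerSeries.C (β i) * (PowerSeries.X ^ (x.1 : ℕ) *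
                (hl ℝ p l ^ ((x.1 : ℕ) % 2) * ev ℝ p l (Cn ℝ M i))) := by
            rw [hβ, ONE_ev_sum, mul_sum, mul_sum]
            refine sum_congr rfl fun i _ => ?_
            rw [ONE_ev_mul, ONE_ev_C]
            ring
          rw [e2, map_sum, Complex.ofReal_sum]
          refine sum_congr rfl fun i _ => ?_
          rw [e1, PowerSeries.coeff_C_mul, Complex.ofReal_mul]
        · intro j _ hj
          simp [hj]
        · intro h
          exact absurd (mem_univ _) h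
      show ‖ρ (PowerSeries.coeff m (fRow K M p q (a + S) z l x.1 x.2.1 x.2.2)) -
        ∑ y : J × Fin n, (if y.1 = j0 then ((β y.2 : ℝ) : ℂ) else 0) *
          ρ (PowerSeries.coeff m (cRow K M p ψ σ l y.1 y.2))‖ ≤ Λ * N0
      rw [hT]
      have h1 := conj_fRow_bd ρ M p q (a + S) z l x.1 x.2.1 x.2.2 m N0
        (fun i hi => hzb l hlp x.2.2 x.2.2.2 x.1 x.2.1 (Nat.lt_succ_iff.1 x.2.1.2) i hi m hm)
      obtain ⟨sf, hs1, hs2⟩ := hser l hlp m hm
      have h2 : |PowerSeries.coeff m (fRow ℝ M p q (a + S) zr l x.1 x.2.1 x.2.2) -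
          PowerSeries.coeff m (PowerSeries.X ^ (x.1 : ℕ) *
            (hl ℝ p l ^ ((x.1 : ℕ) % 2) * ev ℝ p l Q))| ≤ 2 * Lx * N0 := by
        have e3 : PowerSeries.coeff m (fRow ℝ M p q (a + S) zr l x.1 x.2.1 x.2.2) -
          PowerSeries.coeff m (PowerSeries.X ^ (x.1 : ℕ) *
            (hl ℝ p l ^ ((x.1 : ℕ) % 2) * ev ℝ p l Q)) = ∑ x' ∈ range Lx, sf x' := by
          rw [hs2]
          rfl
        rw [e3]
        refine (abs_sum_le_sum_abs _ _).trans ?_
        have h4 : ∀ x' ∈ range Lx, |sf x'| ≤ N0 * 2 := by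
          intro x' hx'
          rw [mem_range] at hx'
          rw [← (hs1 x' hx').tsum_eq, ← Real.norm_eq_abs]
          have hgeo : HasSum (fun κ : ℕ => N0 * (1 / 2 : ℝ) ^ κ) (N0 * 2) :=
            hasSum_geometric_two.mul_left N0
          exact tsum_of_norm_bounded hgeo fun κ => by
            rw [Real.norm_eq_abs]
            exact hbd x' hx' x.1 (Nat.lt_succ_iff.1 x.1.2) x.2.1 (Nat.lt_succ_iff.1 x.2.1.2)
              x.2.2 x.2.2.2 l hlp m hm κ
        refine (sum_le_sum h4).trans (le_of_eq ?_)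
        rw [sum_const, card_range, nsmul_eq_mul]
        ring
      have h5 : ρ (PowerSeries.coeff m (fRow K M p q (a + S) z l x.1 x.2.1 x.2.2)) -
          ((PowerSeries.coeff m (PowerSeries.X ^ (x.1 : ℕ) *
            (hl ℝ p l ^ ((x.1 : ℕ) % 2) * ev ℝ p l Q)) : ℝ) : ℂ) =
          (ρ (PowerSeries.coeff m (fRow K M p q (a + S) z l x.1 x.2.1 x.2.2)) -
            ((PowerSeries.coeff m (fRow ℝ M p q (a + S) zr l x.1 x.2.1 x.2.2) : ℝ) : ℂ)) +
          ((PowerSeries.coeff m (fRow ℝ M p q (a + S) zr l x.1 x.2.1 x.2.2) -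
            PowerSeries.coeff m (PowerSeries.X ^ (x.1 : ℕ) *
              (hl ℝ p l ^ ((x.1 : ℕ) % 2) * ev ℝ p l Q)) : ℝ) : ℂ) := by
        rw [Complex.ofReal_sub]
        ring
      rw [h5]
      refine (norm_add_le _ _).trans ?_
      rw [Complex.norm_real, Real.norm_eq_abs]
      have h6 : (∑ i ∈ oddS (a + S), (‖ρ (z i)‖ + |zr i|)) * N0 + 2 * Lx * N0 ≤ Λ * N0 := by
        rw [← add_mul]
        exact mul_le_mul_of_nonneg_right (hΛz ρ) hN0pos
      linarith)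
    (by
      intro x κ' l hl m hm
      split_ifs with hκ
      · rw [hκ]
        refine (hbd (κ' % Kx % Lx) (Nat.mod_lt _ hL) x.1 (Nat.lt_succ_iff.1 x.1.2) x.2.1
          (Nat.lt_succ_iff.1 x.2.1.2) x.2.2 x.2.2.2 l hl m hm (κ' / Kx)).trans ?_
        have h3 := ONE2_rate t Kx κ' hKpos htpos ht1.le htk
        have h4 := mul_le_mul_of_nonneg_left h3 hN0pos
        have h5 : 2 * N0 * t ^ (2 * κ') ≤ Λ * N0 * t ^ (2 * κ') :=
          mul_le_mul_of_nonneg_right hNN (by positivity)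
        linarith
      · rw [zero_mul, abs_zero]
        positivity)
    (fun e l m => if (e.2.1 : ℕ) = l ∧ ((e.2.2 : ℕ)) = m then v e.1 else 0)
    (by
      intro x
      obtain ⟨Q, hQ, hser⟩ := hfam x.1 (Nat.lt_succ_iff.1 x.1.2) x.2.1
        (Nat.lt_succ_iff.1 x.2.1.2) x.2.2 x.2.2.2
      -- the companion part
      have hE := rspan_E M p a n x.1 x.2.1 ψr σ
        (zp ℝ (a + S) (fun i => zr i - (τ (z i) + ∑ x, τ (c i x) * v x)))
        (fun r' hr' => by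
          obtain ⟨α, hα1, hα2⟩ := H1 x.1 (Nat.lt_succ_iff.1 x.1.2) r'
            (hr'.trans (Nat.lt_succ_iff.1 x.2.1.2))
          refine ⟨α, hα1, fun m hm => ?_⟩
          rw [hα2 m hm]
          refine sum_congr rfl fun j _ => ?_
          rw [hψr, PowerSeries.coeff_map])
        (Am ℝ M q * Cn ℝ M x.2.2) (hf _ x.2.2.2)
      obtain ⟨j0, hj0, hj0'⟩ := H0 x.1 (Nat.lt_succ_iff.1 x.1.2)
      have hQm := rspan_psi M p a n ψr σ j0 Q hQ
      have hψj : ψr j0 = PowerSeries.X ^ (x.1 : ℕ) := by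
        simp only [hψr]
        rw [hj0', map_pow, PowerSeries.map_X]
      rw [hj0, hψj] at hQm
      have hV := Submodule.sub_mem _ hQm hE
      rw [rspan, Submodule.mem_span_range_iff_exists_fun] at hV
      obtain ⟨α, hα⟩ := hV
      refine ⟨α, fun l hlp m hm => ?_⟩
      have hαc := congrFun hα (⟨l, hlp⟩, ⟨m, hm⟩)
      rw [Finset.sum_apply] at hαc
      simp only [Pi.smul_apply, smul_eq_mul, Pi.sub_apply, ONE_jet] at hαc
      obtain ⟨sf, hs1, hs2⟩ := hser l hlp m hm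
      have h5 := ONE2_hasSum k0 x.1 Lx (Nat.lt_succ_iff.1 x.1.2) hL _ _ hs1
      rw [hs2] at h5
      have h6 : (fun κ' : ℕ => (if κ' % Kx / Lx = (x.1 : ℕ) then
          γ (κ' % Kx % Lx) x.1 x.2.1 x.2.2 (κ' / Kx) else 0) *
          PowerSeries.coeff m (U (κ' % Kx % Lx) (κ' % Kx / Lx) l (κ' / Kx))) =
          fun κ' : ℕ => if κ' % Kx / Lx = (x.1 : ℕ) then
            γ (κ' % Kx % Lx) x.1 x.2.1 x.2.2 (κ' / Kx) *
            PowerSeries.coeff m (U (κ' % Kx % Lx) x.1 l (κ' / Kx)) else 0 := by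
        funext κ'
        split_ifs with hκ
        · rw [hκ]
        · rw [zero_mul]
      rw [h6]
      have hsum : ∑ e : J' × Fin p × {m // m ∈ Ico (s - S) a}, (if (e.2.1 : ℕ) = l ∧ ((e.2.2 : ℕ)) = m then v e.1 else 0) *
          τ (PowerSeries.coeff (e.2.2 : ℕ)
            (eRow K M p q (a + S) (fun i => c i e.1) e.2.1 x.1 x.2.1 x.2.2)) =
          ∑ y : J', v y * PowerSeries.coeff m
            (eRow ℝ M p q (a + S) (fun i => τ (c i y)) l x.1 x.2.1 x.2.2) := by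
        rw [Fintype.sum_prod_type]
        refine sum_congr rfl fun y _ => ?_
        by_cases hms : m < s - S
        · rw [eRow_low ℝ M p q (a + S) s S (fun i => τ (c i y))
            (fun i hi => by rw [hc i hi, map_zero]) l x.1 x.2.1 x.2.2 m
            (Nat.lt_succ_iff.1 x.2.1.2) hms, mul_zero]
          refine sum_eq_zero fun e _ => ?_
          rw [if_neg, zero_mul]
          rintro ⟨-, h⟩
          have h3 : ((e.2 : {m // m ∈ Ico (s - S) a}) : ℕ) = m := h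
          have h4 := (mem_Ico.1 e.2.2).1
          rw [h3] at h4
          omega
        · have hmI : m ∈ Ico (s - S) a := mem_Ico.2 ⟨by omega, hm⟩
          rw [sum_eq_single ((⟨l, hlp⟩, ⟨m, hmI⟩) : Fin p × {m // m ∈ Ico (s - S) a})]
          · simp only [and_self, if_true]
            rw [tau_eRow]
          · rintro ⟨l', m'⟩ _ hne
            rw [if_neg, zero_mul]
            rintro ⟨h1, h2⟩
            exact hne (Prod.ext (Fin.ext h1) (Subtype.ext h2))
          · intro h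
            exact absurd (mem_univ _) h
      convert h5 using 1
      have h7 : τ (PowerSeries.coeff m (fRow K M p q (a + S) z l x.1 x.2.1 x.2.2)) =
          PowerSeries.coeff m (PowerSeries.X ^ (x.1 : ℕ) * hs ℝ x.2.1
            (hl ℝ p l ^ (((x.1 : ℕ) + x.2.1) % 2) * ev ℝ p l (Am ℝ M q * Cn ℝ M x.2.2) *
              Gh ℝ p l (a + S) (fun i => τ (z i)))) := by
        rw [← PowerSeries.coeff_map, mk_fRow, fRow]
      have h8 : PowerSeries.coeff m (PowerSeries.X ^ (x.1 : ℕ) * hs ℝ x.2.1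
            (hl ℝ p l ^ (((x.1 : ℕ) + x.2.1) % 2) * ev ℝ p l (Am ℝ M q * Cn ℝ M x.2.2) *
              Gh ℝ p l (a + S) zr)) =
          PowerSeries.coeff m (PowerSeries.X ^ (x.1 : ℕ) * hs ℝ x.2.1
            (hl ℝ p l ^ (((x.1 : ℕ) + x.2.1) % 2) * ev ℝ p l (Am ℝ M q * Cn ℝ M x.2.2) *
              Gh ℝ p l (a + S) (fun i => τ (z i)))) +
          (∑ y : J', v y * PowerSeries.coeff m
            (eRow ℝ M p q (a + S) (fun i => τ (c i y)) l x.1 x.2.1 x.2.2) +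
          PowerSeries.coeff m (PowerSeries.X ^ (x.1 : ℕ) * hs ℝ x.2.1
            (hl ℝ p l ^ (((x.1 : ℕ) + x.2.1) % 2) * ev ℝ p l (Am ℝ M q * Cn ℝ M x.2.2) *
              zp ℝ (a + S) (fun i => zr i - (τ (z i) + ∑ x, τ (c i x) * v x))))) := by
        rw [ONE_Gh_split p l (a + S) (fun i => τ (z i)), mul_add, hs_add, mul_add, map_add,
          zp_split (a + S) (fun i => τ (z i)) (fun i x => τ (c i x)) v, mul_add, hs_add, mul_add,
          map_add]
        congr 1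
        rw [add_comm]
        congr 1
        rw [mul_sum, hs_sum, mul_sum, map_sum]
        refine sum_congr rfl fun y _ => ?_
        rw [eRow, ← PowerSeries.coeff_C_mul]
        congr 1
        rw [mul_left_comm, skhs_C]
        ring
      rw [h8]
      show τ (PowerSeries.coeff m (fRow K M p q (a + S) z l x.1 x.2.1 x.2.2)) +
        ∑ e : J' × Fin p × {m // m ∈ Ico (s - S) a}, (if (e.2.1 : ℕ) = l ∧ ((e.2.2 : ℕ)) = m then v e.1 else 0) *
          τ (PowerSeries.coeff (e.2.2 : ℕ)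
            (eRow K M p q (a + S) (fun i => c i e.1) e.2.1 x.1 x.2.1 x.2.2)) -
        ∑ y : J × Fin n, α y * τ (PowerSeries.coeff m (cRow K M p ψ σ l y.1 y.2)) = _
      rw [h7, hsum]
      have h9 : ∑ y : J × Fin n, α y * τ (PowerSeries.coeff m (cRow K M p ψ σ l y.1 y.2)) =
          PowerSeries.coeff m (PowerSeries.X ^ (x.1 : ℕ) *
            (hl ℝ p l ^ ((x.1 : ℕ) % 2) * ev ℝ p l Q)) -
          PowerSeries.coeff m (PowerSeries.X ^ (x.1 : ℕ) * hs ℝ x.2.1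
            (hl ℝ p l ^ (((x.1 : ℕ) + x.2.1) % 2) * ev ℝ p l (Am ℝ M q * Cn ℝ M x.2.2) *
              zp ℝ (a + S) (fun i => zr i - (τ (z i) + ∑ x, τ (c i x) * v x)))) := by
        rw [← hαc]
        refine sum_congr rfl fun y _ => ?_
        rw [← PowerSeries.coeff_map, mk_cRow]
      rw [h9]
      ring)
  have hcardF : Fintype.card (Fin (k0 + 1) × Fin (S + 1) × Fin P) = (k0 + 1) * ((S + 1) * P) := by
    simp only [Fintype.card_prod, Fintype.card_fin]
  have hcardE : Fintype.card (J' × Fin p × {m // m ∈ Ico (s - S) a}) =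
      Fintype.card J' * (p * (a - (s - S))) := by
    simp only [Fintype.card_prod, Fintype.card_fin, Fintype.card_coe, Nat.card_Ico]
  rw [hcardF] at hR3
  refine ⟨R, T, ?_, hT1, hT2, hR3⟩
  refine hR2.trans ?_
  rw [hcardE, mul_add]
  refine Nat.add_le_add_left ?_ _
  have h2 : a - (s - S) ≤ a + S - s := by omega
  calc Fintype.card J' * (p * (a - (s - S))) ≤ Fintype.card J' * (p * (a + S - s)) :=
        Nat.mul_le_mul_left _ (Nat.mul_le_mul_left _ h2)
    _ = p * (Fintype.card J' * (a + S - s)) := by ring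

end Pool.Agent.SID
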