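import Pool.Agent.SID.FMX
import Pool.Agent.SID.CZX
import Pool.Agent.SI.ZEL
import Pool.Agent.ZC.ZEK

/-!
# SID, zero estimate: a relation gives a family with few conditions
-/

namespace Pool.Agent.SID

open Finset Polynomial Pool.Agent.ZC Pool.Agent.SI Pool.Agent.DM

variable {K : Type*} [Field K]

theorem exists_ext_basis {K V : Type*} [Field K] [AddCommGroup V] [Module K V] {A J : Type*}
    [Fintype A] [Fintype J] (v : A → V) (hE : LinearIndependent K v) (w : J → V) :
    ∃ (dO : ℕ) (bO : Fin dO → J), dO ≤ Fintype.card J ∧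
      LinearIndependent K (Sum.elim v (fun o => w (bO o))) ∧
      (∃ (c : J → A → K) (c' : J → Fin dO → K),
        ∀ j, w j = ∑ e, c j e • v e + ∑ o, c' j o • w (bO o)) := by
  classical
  set W := Submodule.span K (Set.range v) with hW
  obtain ⟨κ', a', ha', hsp', hli'⟩ :=
    exists_linearIndependent' K (fun j => (Submodule.Quotient.mk (w j) : V ⧸ W))
  have : Finite κ' := Finite.of_injective a' ha'
  have := Fintype.ofFinite κ'
  set f' := Fintype.equivFin κ' with hf'
  have hmem : ∀ i, v i ∈ W := fun i => Submodule.subset_span ⟨i, rfl⟩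
  have hspE : ∀ x ∈ W, ∃ c : A → K, x = ∑ e, c e • v e := by
    intro x hx
    obtain ⟨c, hc⟩ := (Submodule.mem_span_range_iff_exists_fun K).1 hx
    exact ⟨c, hc.symm⟩
  refine ⟨Fintype.card κ', fun o => a' (f'.symm o), Fintype.card_le_of_injective a' ha', ?_, ?_⟩
  · have h1 : LinearIndependent K (fun e => (⟨v e, hmem _⟩ : W)) := by
      apply LinearIndependent.of_comp W.subtype
      exact hE
    have h2 : LinearIndependent K (Submodule.Quotient.mk (p := W) ∘ fun o => w (a' (f'.symm o))) :=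
      hli'.comp f'.symm f'.symm.injective
    exact LinearIndependent.sumElim_of_quotient h1 _ h2
  · have h3 : ∀ j, ∃ (c : A → K) (c' : Fin (Fintype.card κ') → K),
        w j = ∑ e, c e • v e + ∑ o, c' o • w (a' (f'.symm o)) := by
      intro j
      have h4 : (Submodule.Quotient.mk (w j) : V ⧸ W) ∈
          Submodule.span K (Set.range ((fun j => (Submodule.Quotient.mk (w j) : V ⧸ W)) ∘ a')) := by
        rw [hsp']; exact Submodule.subset_span ⟨j, rfl⟩
      obtain ⟨c', hc'⟩ := (Submodule.mem_span_range_iff_exists_fun K).1 h4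
      have h5 : w j - ∑ o, c' (f'.symm o) • w (a' (f'.symm o)) ∈ W := by
        rw [← Submodule.Quotient.mk_eq_zero, Submodule.Quotient.mk_sub, sub_eq_zero, ← hc']
        rw [Equiv.sum_comp f'.symm (fun o => c' o • w (a' o))]
        rw [← Submodule.mkQ_apply, map_sum]
        simp only [map_smul, Submodule.mkQ_apply, Function.comp_apply]
      obtain ⟨c, hc⟩ := hspE _ h5
      refine ⟨c, fun o => c' (f'.symm o), ?_⟩
      rw [← hc, sub_add_cancel]
    choose c c' hcc using h3
    exact ⟨c, c', hcc⟩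

theorem combx_smul {m : ℕ} (w : Fin m → ℕ → ℕ → K) (g : K[X])
    (f : Fin m → K[X]) : comb w (g • f) = fun β k => g * comb w f β k := by
  funext β k
  simp only [comb, LinearMap.coe_mk, AddHom.coe_mk, Pi.smul_apply, smul_eq_mul, Finset.mul_sum,
    mul_assoc]

theorem combx_comp {m : ℕ} (w : Fin m → ℕ → ℕ → K) (g : K[X])
    (f : Fin m → K[X]) : comb w (fun i => (f i).comp g) = fun β k => (comb w f β k).comp g := by
  funext β k
  simp only [comb, LinearMap.coe_mk, AddHom.coe_mk, Polynomial.sum_comp, mul_comp, C_comp]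

/-- the nodes `w = 2 (i - (q - 1))` -/
noncomputable def nodx (K : Type*) [Field K] (p q i : ℕ) : K :=
  -((2 * (p : K) - 1) / 2) - ((q : K) - 1) + (i : K)

theorem nodx_add (p q i s : ℕ) : nodx K p q i + (s : K) = nodx K p q (i + s) := by
  unfold nodx
  push_cast
  ring

theorem nodx_inj [CharZero K] (p q : ℕ) : Function.Injective (nodx K p q) := by
  intro i j hij
  unfold nodx at hij
  have h := add_left_cancel hij
  exact_mod_cast h

theorem nodx_ne [CharZero K] (p q i l : ℕ) : -(l : K) ≠ nodx K p q i := by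
  intro hi
  unfold nodx at hi
  have h1 : ((2 * l + 2 * i + 1 : ℕ) : K) + 1 = ((2 * p + 2 * q : ℕ) : K) - 1 := by
    push_cast
    linear_combination (-2 : K) * hi
  have h2 : ((2 * l + 2 * i + 1 + 1 + 1 : ℕ) : K) = ((2 * p + 2 * q : ℕ) : K) := by
    push_cast at h1 ⊢
    linear_combination h1
  have h3 : 2 * l + 2 * i + 1 + 1 + 1 = 2 * p + 2 * q := by exact_mod_cast h2
  omega

/-- constant in the estimate -/
def cRx (k0 S a cJ cJ' : ℕ) : ℕ :=
  ((k0 + 1) * (S + 2) + cJ) * (1 + a + cJ' * a + (k0 + 1) * (S + 1)) +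
    (k0 + 1) * (((k0 + 1) * (S + 2) + cJ) * (2 * (S + 1))) + 1

theorem relx_est [CharZero K] (k0 S a g P : ℕ) (hg : 1 ≤ g) {J : Type*} [Fintype J]
    {J' : Type*} [Fintype J'] (hP : cRx k0 S a (Fintype.card J) (Fintype.card J') ≤ P)
    (H : J' → ℕ → ℕ → PowerSeries K) (ψ : J → PowerSeries K) (q : J → K[X])
    (hq : ∀ j, (q j).natDegree ≤ 2 * ((g + 2) * P)) (G : ℕ → PowerSeries K)
    (hG : ∀ l < 2 * (g * P) - 1, G l - G (l + 1) =
      (PowerSeries.C ((2 * (l : K) + 1) / 2) - PowerSeries.X)⁻¹ -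
      (PowerSeries.C ((2 * (((2 * (g * P) - 1 : ℕ) : K) - l - 1) + 1) / 2) + PowerSeries.X)⁻¹)
    {m : ℕ} (ε : Fin m → ℕ) (w : Fin m → ℕ → ℕ → K) (hw : FamX (k0 + 1) S ε w)
    (f : Fin m → K[X]) (hf : ∀ i, f i ∈ degreeLT K ((g + 2) * P)) (hne : f ≠ 0)
    (hK : ∀ l ≤ 2 * (g * P) - 1, cnx (k0 + 1) S a H True (-(l : K))
      (comb w (fun i => pw (g * P) (ε i) (f i))) = 0)
    (hA : ∀ i < 2 * ((g + 1) * P) - 1, cnx (k0 + 1) S a H False
      (nodx K (g * P) ((g + 1) * P) i) (comb w (fun i => pw (g * P) (ε i) (f i))) = 0)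
    (hrel : ∀ l ≤ 2 * (g * P) - 1, (PowerSeries.X : PowerSeries K) ^ a ∣
      ∑ j, ψ j * loc K l (q j) + ∑ β ∈ range (k0 + 1), PowerSeries.X ^ β *
        ∑ k ∈ range (S + 1), loc K l (comb w (fun i => pw (g * P) (ε i) (f i)) β k) *
          hs K k (G l)) :
    ∃ (ζ : ℕ) (ε' : Fin ζ → ℕ) (w' : Fin ζ → ℕ → ℕ → K), ζ ≤ m ∧ FamX (k0 + 1) S ε' w' ∧
      g * (a - k0) + wkx (k0 + 1) S a g H w' ≤ (g + 2) * (k0 + 1 + ζ + Fintype.card J) := by
  classical
  obtain ⟨ζ, ε', w', u, hζ0, hζm, hw', hu, huD, hcomb⟩ :=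
    ext_famx (k0 + 1) S ε w hw (g * P) ((g + 2) * P) f hf hne
  refine ⟨ζ, ε', w', hζm, hw', ?_⟩
  have hζB := card_famx_le (k0 + 1) S ε' w' hw'
  set R := comb w (fun i => pw (g * P) (ε i) (f i)) with hR
  obtain ⟨p, hp⟩ : ∃ p, p = g * P := ⟨_, rfl⟩
  obtain ⟨q0, hq0⟩ : ∃ q0, q0 = (g + 1) * P := ⟨_, rfl⟩
  obtain ⟨n, hn⟩ : ∃ n, n = (g + 2) * P := ⟨_, rfl⟩
  rw [← hp] at hK hA hrel hG
  rw [← hq0] at hA
  rw [← hn] at huD hq
  set L := 2 * p - 1 with hL
  -- the basis of the companions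
  obtain ⟨dO, bO, hdO, hli, c1, c2, hc12⟩ := exists_ext_basis u hu q
  set U : Fin (ζ + dO) → K[X] := fun y => Sum.elim u (fun o => q (bO o))
    (finSumFinEquiv.symm y) with hU
  have hUli : LinearIndependent K U := hli.comp _ finSumFinEquiv.symm.injective
  have hUD : ∀ y, (U y).natDegree ≤ 2 * n := by
    intro y
    simp only [hU]
    rcases finSumFinEquiv.symm y with e | o
    · exact huD _
    · exact hq _
  set W : Fin (ζ + dO) → ℕ → ℕ → K := fun y => Sum.elim w' (fun _ => 0)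
    (finSumFinEquiv.symm y) with hWdef
  set cq : J → Fin (ζ + dO) → K := fun j y => Sum.elim (c1 j) (c2 j)
    (finSumFinEquiv.symm y) with hcq
  have hsum : ∀ (g : Fin ζ ⊕ Fin dO → K[X]), ∑ y, g (finSumFinEquiv.symm y) =
      ∑ e, g (Sum.inl e) + ∑ o, g (Sum.inr o) := by
    intro g
    rw [Equiv.sum_comp finSumFinEquiv.symm g, Fintype.sum_sum_type]
  have hcW : ∀ f : Fin (ζ + dO) → K[X], comb W f =
      comb w' (fun z => f (finSumFinEquiv (Sum.inl z))) := by
    intro f
    funext β k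
    rw [comb_apply, comb_apply]
    have h1 := hsum (fun y => f (finSumFinEquiv y) * C ((Sum.elim w' (fun _ => 0) y : ℕ → ℕ → K) β k))
    simp only [Equiv.apply_symm_apply, Sum.elim_inl, Sum.elim_inr, Pi.zero_apply, C_0, mul_zero,
      Finset.sum_const_zero, add_zero] at h1
    exact h1
  have hWU : comb W U = R := by
    rw [hcW, ← hcomb]
    congr 1
    funext z
    simp only [hU, Equiv.symm_apply_apply, Sum.elim_inl]
  have hqe : ∀ j, q j = ∑ y, C (cq j y) * U y := by
    intro j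
    set g : Fin ζ ⊕ Fin dO → K[X] := fun y => C (Sum.elim (c1 j) (c2 j) y) *
        Sum.elim u (fun o => q (bO o)) y with hg
    have h1 : ∑ y, C (cq j y) * U y = ∑ y, g (finSumFinEquiv.symm y) := rfl
    rw [h1, hsum g]
    have h2 := hc12 j
    simp only [smul_eq_C_mul] at h2
    simp only [hg, Sum.elim_inl, Sum.elim_inr]
    exact h2
  -- the basis of the levels
  obtain ⟨ρ, _, bE, _, hρB, _, hliE, ⟨c, hc, hcb⟩, _⟩ :=
    exists_two_basis (K := K) (fun (β : Fin (k0 + 1)) (z : Fin ζ) (k : Fin (S + 1)) =>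
      w' z (β : ℕ) (k : ℕ)) (fun j : Fin 0 => j.elim0)
  rw [Fintype.card_fin] at hρB
  have hliE' : LinearIndependent K (fun (e : Fin ρ) (z : Fin ζ) (k : Fin (S + 1)) =>
      w' z (bE e : ℕ) (k : ℕ)) := hliE.comp Sum.inl Sum.inl_injective
  have hexpw : ∀ (β : Fin (k0 + 1)) (z : Fin ζ) (k : ℕ), k ≤ S →
      w' z β k = ∑ e, c β e * w' z (bE e) k := by
    intro β z k hk
    have h1 := congrFun (congrFun (hc β) z) ⟨k, by omega⟩
    simp only [Finset.sum_apply, Pi.smul_apply, smul_eq_mul] at h1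
    exact h1
  have hexp : ∀ (β : Fin (k0 + 1)) (y : Fin (ζ + dO)) (k : ℕ), k ≤ S →
      W y β k = ∑ e, c β e * W y (bE e) k := by
    intro β y k hk
    simp only [hWdef]
    rcases finSumFinEquiv.symm y with z | o
    · simp only [Sum.elim_inl]
      exact hexpw β z k hk
    · simp
  have hρ0 : 0 < ρ := by
    by_contra h0
    have hρ00 : ρ = 0 := by omega
    subst hρ00
    have h1 := hw'.1.ne_zero ⟨0, hζ0⟩
    apply h1
    funext β k
    by_contra hcon
    have h3 := hw'.2 _ β k hcon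
    apply hcon
    have h4 := hexpw ⟨β, h3.1⟩ ⟨0, hζ0⟩ k h3.2.1
    simpa using h4
  set i0 : Fin ρ := ⟨0, hρ0⟩ with hi0
  set χ : Fin ρ → PowerSeries K := fun e =>
    ∑ β : Fin (k0 + 1), PowerSeries.C (c β e) * PowerSeries.X ^ (β : ℕ) with hχ
  have hχ0 : ¬ (PowerSeries.X : PowerSeries K) ^ (k0 + 1) ∣ χ i0 := by
    intro hdvd
    rw [PowerSeries.X_pow_dvd_iff] at hdvd
    have h1 := hdvd (bE i0) (bE i0).2
    simp only [hχ, map_sum, PowerSeries.coeff_C_mul, PowerSeries.coeff_X_pow] at h1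
    rw [Finset.sum_eq_single (bE i0)] at h1
    · rw [hcb i0 i0] at h1
      simp at h1
    · intro k _ hk
      rw [if_neg, mul_zero]
      intro h2
      exact hk (Fin.ext h2.symm)
    · intro h2; exact absurd (Finset.mem_univ _) h2
  -- the data of the Casorati estimate
  set η : Fin (ζ + dO) → ℕ → PowerSeries K := fun y l => ∑ j, PowerSeries.C (cq j y) * ψ j +
    ∑ β ∈ range (k0 + 1), PowerSeries.X ^ β *
      ∑ k ∈ range (S + 1), PowerSeries.C (W y β k) * hs K k (G l) with hη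
  set num : Fin ρ → Fin (ζ + dO) → K[X] := fun e y =>
    ∑ k ∈ range (S + 1), C (W y (bE e) k) * nmS K L S k with hnum
  have hrel' : ∀ l ≤ L, (PowerSeries.X : PowerSeries K) ^ a ∣ ∑ y, loc K l (U y) * η y l := by
    intro l hl
    have h1 : ∑ y, loc K l (U y) * η y l = ∑ j, ψ j * loc K l (q j) +
        ∑ β ∈ range (k0 + 1), PowerSeries.X ^ β *
        ∑ k ∈ range (S + 1), loc K l (R β k) * hs K k (G l) := by
      simp only [hη, mul_add, Finset.sum_add_distrib]
      congr 1
      · simp only [Finset.mul_sum]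
        rw [Finset.sum_comm]
        refine Finset.sum_congr rfl fun j _ => ?_
        rw [hqe j, map_sum, Finset.mul_sum]
        refine Finset.sum_congr rfl fun z _ => ?_
        rw [map_mul, loc_C]
        ring
      · simp only [Finset.mul_sum]
        rw [Finset.sum_comm]
        refine Finset.sum_congr rfl fun β _ => ?_
        rw [Finset.sum_comm]
        refine Finset.sum_congr rfl fun k hk => ?_
        rw [← hWU, comb_apply, map_sum, Finset.sum_mul, Finset.mul_sum]
        refine Finset.sum_congr rfl fun z _ => ?_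
        rw [map_mul, loc_C]
        ring
    rw [h1]
    exact hrel l hl
  have hsh := shift_hs L S G hG
  have hshift : ∀ l < L, ∀ y, loc K (l + 1) (dnS K L S) * (η y l - η y (l + 1)) =
      ∑ e, χ e * loc K (l + 1) (num e y) := by
    intro l hl y
    have h1 : η y l - η y (l + 1) = ∑ β ∈ range (k0 + 1), PowerSeries.X ^ β *
        ∑ k ∈ range (S + 1), PowerSeries.C (W y β k) * (hs K k (G l) - hs K k (G (l + 1))) := by
      simp only [hη]
      rw [add_sub_add_left_eq_sub, ← Finset.sum_sub_distrib]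
      refine Finset.sum_congr rfl fun i _ => ?_
      rw [← mul_sub, ← Finset.sum_sub_distrib]
      congr 1
      exact Finset.sum_congr rfl fun k _ => by ring
    have h2 : loc K (l + 1) (dnS K L S) * (η y l - η y (l + 1)) =
        ∑ β ∈ range (k0 + 1), PowerSeries.X ^ β *
          ∑ k ∈ range (S + 1), PowerSeries.C (W y β k) * loc K (l + 1) (nmS K L S k) := by
      rw [h1, Finset.mul_sum]
      refine Finset.sum_congr rfl fun β _ => ?_
      rw [mul_left_comm, Finset.mul_sum]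
      congr 1
      refine Finset.sum_congr rfl fun k hk => ?_
      rw [Finset.mem_range] at hk
      rw [← hsh l hl k (by omega)]
      ring
    rw [h2, Finset.sum_range (n := k0 + 1)]
    simp only [hχ, hnum, map_sum, map_mul, loc_C, Finset.sum_mul]
    rw [Finset.sum_comm]
    refine Finset.sum_congr rfl fun β _ => ?_
    have h3 : ∀ k ∈ range (S + 1), PowerSeries.C (W y (β : ℕ) k) * loc K (l + 1) (nmS K L S k) =
        ∑ e, PowerSeries.C (c β e) * (PowerSeries.C (W y (bE e) k) *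
          loc K (l + 1) (nmS K L S k)) := by
      intro k hk
      rw [Finset.mem_range] at hk
      rw [hexp β y k (by omega), map_sum, Finset.sum_mul]
      refine Finset.sum_congr rfl fun e _ => ?_
      rw [map_mul, mul_assoc]
    rw [Finset.sum_congr rfl h3, Finset.sum_comm, Finset.mul_sum]
    refine Finset.sum_congr rfl fun e _ => ?_
    rw [← Finset.mul_sum]
    ring
  have hnumD : ∀ e y, (num e y).natDegree ≤ (dnS K L S).natDegree := by
    intro e y
    refine Polynomial.natDegree_sum_le_of_forall_le _ _ fun k _ => ?_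
    exact (natDegree_C_mul_le _ _).trans (natDegree_nmS_le L S k)
  have hns : ∀ γ : Fin ρ → K, γ ≠ 0 → ∀ α : Fin (ζ + dO) → FractionRing K[X], ¬ ∀ y,
      ∑ e, emb K (C (γ e)) * (emb K (num e y) / emb K (dnS K L S)) = α y - shf K (α y) := by
    intro γ hγ α hα
    apply hγ
    have h1 : ∀ y, ∀ k ≤ S, ∑ e, γ e * W y (bE e) k = 0 := by
      intro y
      apply nm_indep L S (fun k => ∑ e, γ e * W y (bE e) k) (α y)
      rw [← hα y]
      simp only [map_sum, Finset.sum_mul, map_mul, hnum, Finset.sum_div, Finset.mul_sum]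
      rw [Finset.sum_comm]
      refine Finset.sum_congr rfl fun i _ => Finset.sum_congr rfl fun k _ => ?_
      ring
    have h2 : ∑ e, γ e • (fun (z : Fin ζ) (k : Fin (S + 1)) => w' z (bE e : ℕ) (k : ℕ)) = 0 := by
      funext z k
      simp only [Finset.sum_apply, Pi.smul_apply, smul_eq_mul, Pi.zero_apply]
      have h3 := h1 (finSumFinEquiv (Sum.inl z)) k (Nat.lt_succ_iff.1 k.2)
      simp only [hWdef, Equiv.symm_apply_apply, Sum.elim_inl] at h3
      exact h3
    funext e
    exact Fintype.linearIndependent_iff.1 hliE' γ h2 e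
  -- the conditions
  obtain ⟨N0, hN0⟩ : ∃ N0, N0 = (k0 + 1) * (S + 2) + Fintype.card J := ⟨_, rfl⟩
  have hN0' : ρ + (ζ + dO) ≤ N0 := by
    have : (k0 + 1) * (S + 2) = (k0 + 1) + (k0 + 1) * (S + 1) := by ring
    omega
  have hN0pos : 1 ≤ N0 := by
    have : 1 ≤ (k0 + 1) * (S + 2) := Nat.mul_pos (by omega) (by omega)
    omega
  set S2 : Finset K := (Finset.range (2 * q0 - N0)).image (nodx K p q0) with hS2
  have hS2card : S2.card = 2 * q0 - N0 := by
    rw [hS2, Finset.card_image_of_injective _ (nodx_inj p q0), Finset.card_range]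
  have hS12 : ∀ l : ℕ, -(l : K) ∉ S2 := by
    intro l hl
    rw [hS2, Finset.mem_image] at hl
    obtain ⟨i, _, hi⟩ := hl
    exact nodx_ne p q0 i l hi.symm
  set T : K → (Fin (ζ + dO) → K[X]) →ₗ[K] (Fin (k0 + 1) → Fin (S + 1) → K) × (J' → Fin a → K) :=
    fun x => cnx (k0 + 1) S a H (x ∉ S2) x ∘ₗ comb W with hT
  have hTk : ∀ x : K, Module.finrank K (LinearMap.range (T x)) =
      kapx (k0 + 1) S a H (x ∉ S2) w' := by
    intro x
    rw [← kapx_eq (k0 + 1) S a H (x ∉ S2) w' x]
    have h1 : T x = (cnx (k0 + 1) S a H (x ∉ S2) x ∘ₗ comb w') ∘ₗ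
        LinearMap.funLeft K K[X] (fun z : Fin ζ => finSumFinEquiv (Sum.inl z)) := by
      refine LinearMap.ext fun f => ?_
      rw [hT]
      simp only [LinearMap.comp_apply]
      rw [hcW]
      rfl
    rw [h1, LinearMap.range_comp_of_range_eq_top]
    rw [LinearMap.range_eq_top]
    exact LinearMap.funLeft_surjective_of_injective K K[X] _
      (finSumFinEquiv.injective.comp Sum.inl_injective)
  have hP1 : cRx k0 S a (Fintype.card J) (Fintype.card J') ≤ P := hP
  have hN0P : N0 ≤ P := by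
    refine le_trans ?_ hP1
    unfold cRx
    rw [← hN0]
    have : N0 ≤ N0 * (1 + a + Fintype.card J' * a + (k0 + 1) * (S + 1)) :=
      Nat.le_mul_of_pos_right _ (by omega)
    omega
  have hPp : P ≤ p := by rw [hp]; exact Nat.le_mul_of_pos_left _ hg
  have hPq : P ≤ q0 := by rw [hq0]; exact Nat.le_mul_of_pos_left _ (by omega)
  have hcz := czx U hUli (2 * n) hUD η χ a L k0 hrel' (dnS K L S) (dnS_ne_zero L S) num hnumD
    hshift hns i0 hχ0 T
    (by
      intro x r hr
      rw [hT] at hr ⊢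
      simp only [LinearMap.comp_apply] at hr ⊢
      rw [combx_smul]
      exact cnx_X_sub _ _ _ _ _ _ _ hr)
    (by
      intro x
      refine ⟨a + S + 1, fun r => ?_⟩
      rw [hT]
      simp only [LinearMap.comp_apply]
      rw [combx_smul]
      exact cnx_X_sub_pow _ _ _ _ _ _ _)
    (Icc (N0 - 1) L) (fun l hl => by
      rw [Finset.mem_Icc] at hl
      exact ⟨by omega, hl.2⟩) S2 (fun l _ => hS12 l)
    (by
      intro l hl s hs
      rw [Finset.mem_Icc] at hl
      rw [hT]
      simp only [LinearMap.comp_apply]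
      rw [combx_comp, cnx_shift, hWU]
      have h1 : -(l : K) + (s : K) = -((l - s : ℕ) : K) := by
        rw [Nat.cast_sub (by omega)]; ring
      have h2 : (-(l : K) ∉ S2) = True := propext ⟨fun _ => trivial, fun _ => hS12 l⟩
      rw [h1, h2]
      exact hK (l - s) (by omega))
    (by
      intro x hx s hs
      rw [hT]
      simp only [LinearMap.comp_apply]
      rw [combx_comp, cnx_shift, hWU]
      have h2 : (x ∉ S2) = False := propext ⟨fun h => h hx, fun h => h.elim⟩
      rw [h2]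
      rw [hS2, Finset.mem_image] at hx
      obtain ⟨i, hi, rfl⟩ := hx
      rw [Finset.mem_range] at hi
      rw [nodx_add]
      exact hA (i + s) (by omega))
  -- the sums
  have hT5 : ∀ l ∈ Icc (N0 - 1) L, (a - k0) + Module.finrank K (LinearMap.range (T (-(l : K)))) =
      (a - k0) + kapx (k0 + 1) S a H True w' := by
    intro l _
    rw [hTk]
    have h2 : (-(l : K) ∉ S2) = True := propext ⟨fun _ => trivial, fun _ => hS12 l⟩
    rw [h2]
  have hT6 : ∀ x ∈ S2, Module.finrank K (LinearMap.range (T x)) =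
      kapx (k0 + 1) S a H False w' := by
    intro x hx
    rw [hTk]
    have h2 : (x ∉ S2) = False := propext ⟨fun h => h hx, fun h => h.elim⟩
    rw [h2]
  rw [Finset.sum_congr rfl hT5, Finset.sum_congr rfl hT6, Finset.sum_const, Finset.sum_const,
    hS2card, Nat.card_Icc, smul_eq_mul, smul_eq_mul, natDegree_dnS] at hcz
  unfold wkx
  have hkA := kapx_node_le (k0 + 1) S a H False (fun h => h) w'
  have hkK := kapx_pole_le (k0 + 1) S a a H (fun _ _ _ _ m hm => by omega) True trivial w'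
  set κA := kapx (k0 + 1) S a H False w' with hκA
  set κK := kapx (k0 + 1) S a H True w' with hκK
  clear_value κA κK
  clear hcW hWU hqe hexp hrel' hshift hns hTk hT5 hT6 hsh
  set cJ := Fintype.card J with hcJ
  set cJ' := Fintype.card J' with hcJ'
  have hbound : ρ * ((ρ + (ζ + dO)) * (2 * (S + 1)) + 2 * n) + (ζ + dO) * (2 * n) ≤
      (k0 + 1) * (N0 * (2 * (S + 1))) + 2 * n * (k0 + 1 + ζ + cJ) := by
    calc ρ * ((ρ + (ζ + dO)) * (2 * (S + 1)) + 2 * n) + (ζ + dO) * (2 * n)
        = ρ * ((ρ + (ζ + dO)) * (2 * (S + 1))) + 2 * n * (ρ + (ζ + dO)) := by ring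
      _ ≤ (k0 + 1) * (N0 * (2 * (S + 1))) + 2 * n * (k0 + 1 + ζ + cJ) := by
          refine Nat.add_le_add (Nat.mul_le_mul hρB (Nat.mul_le_mul_right _ hN0')) ?_
          exact Nat.mul_le_mul_left _ (by omega)
  obtain ⟨A1, hA1⟩ : ∃ A1, a - k0 = A1 := ⟨_, rfl⟩
  have hA1a : A1 ≤ a := by omega
  rw [hA1] at hcz ⊢
  obtain ⟨x1, hx1⟩ : ∃ x1, 2 * p = x1 + N0 := ⟨2 * p - N0, by omega⟩
  obtain ⟨x2, hx2⟩ : ∃ x2, 2 * q0 = x2 + N0 := ⟨2 * q0 - N0, by omega⟩
  have e1 : L + 1 - (N0 - 1) = x1 + 1 := by omega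
  have e2 : 2 * q0 - N0 = x2 := by omega
  rw [e1, e2] at hcz
  have h1 : 2 * p * (A1 + κK) + 2 * q0 * κA ≤
      N0 * (1 + a + cJ' * a + (k0 + 1) * (S + 1)) + (k0 + 1) * (N0 * (2 * (S + 1))) +
        2 * n * (k0 + 1 + ζ + cJ) := by
    rw [hx1, hx2]
    calc (x1 + N0) * (A1 + κK) + (x2 + N0) * κA
        = (x1 * (A1 + κK) + x2 * κA) + N0 * (A1 + κK + κA) := by ring
      _ ≤ ((x1 + 1) * (A1 + κK) + x2 * κA) + N0 * (A1 + κK + κA) := by gcongr; omega
      _ ≤ ((k0 + 1) * (N0 * (2 * (S + 1))) + 2 * n * (k0 + 1 + ζ + cJ)) +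
          N0 * (1 + a + cJ' * a + (k0 + 1) * (S + 1)) := by
          refine Nat.add_le_add (hcz.trans hbound) (Nat.mul_le_mul_left _ ?_)
          omega
      _ = _ := by ring
  have h2 : N0 * (1 + a + cJ' * a + (k0 + 1) * (S + 1)) + (k0 + 1) * (N0 * (2 * (S + 1))) + 1 ≤
      P := by
    refine le_trans (le_of_eq ?_) hP1
    unfold cRx
    rw [← hN0]
  have h3 : 2 * P * (g * A1 + ((g + 1) * κA + g * κK)) = 2 * p * (A1 + κK) + 2 * q0 * κA := by
    rw [hp, hq0]; ring
  have h4 : 2 * n * (k0 + 1 + ζ + cJ) = 2 * P * ((g + 2) * (k0 + 1 + ζ + cJ)) := by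
    rw [hn]; ring
  rw [← h3, h4] at h1
  by_contra hcon
  have h5 : (g + 2) * (k0 + 1 + ζ + cJ) + 1 ≤ g * A1 + ((g + 1) * κA + g * κK) := by omega
  have h6 := Nat.mul_le_mul_left (2 * P) h5
  have h7 : 2 * P * ((g + 2) * (k0 + 1 + ζ + cJ) + 1) =
      2 * P * ((g + 2) * (k0 + 1 + ζ + cJ)) + 2 * P := by ring
  omega

end Pool.Agent.SID
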