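import Pool.Agent.SID.RELX
import Pool.Agent.SID.DXX
import Pool.Agent.DM.ZEG

/-!
# SID: the zero estimate
-/

namespace Pool.Agent.SID

open Finset Polynomial Pool.Agent.ZC Pool.Agent.SI Pool.Agent.DM

variable {K : Type*} [Field K]

/-- relations at the poles `l < p` hold at all poles -/
theorem relx_all [CharZero K] (k0 S a p : ℕ) (hp : 1 ≤ p) {J : Type*} [Fintype J]
    (ψ : J → PowerSeries K) (σ : J → ℕ)
    (hψ : ∀ j, PowerSeries.evalNegHom (ψ j) = PowerSeries.C ((-1 : K) ^ σ j) * ψ j)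
    (q : J → K[X]) (R : ℕ → ℕ → K[X])
    (hpar : ∀ β k, C ((-1) ^ (β + k)) * (R β k).comp (C (-(2 * (p : K) - 1)) - X) = R β k)
    (G : ℕ → PowerSeries K)
    (hsym : ∀ l ≤ 2 * p - 1, PowerSeries.evalNegHom (G l) = G (2 * p - 1 - l))
    (hrel : ∀ l < p, (PowerSeries.X : PowerSeries K) ^ a ∣
      ∑ j, ψ j * loc K l (pw p (σ j) (q j)) + ∑ β ∈ range (k0 + 1), PowerSeries.X ^ β *
        ∑ k ∈ range (S + 1), loc K l (R β k) * hs K k (G l)) :
    ∀ l ≤ 2 * p - 1, (PowerSeries.X : PowerSeries K) ^ a ∣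
      ∑ j, ψ j * loc K l (pw p (σ j) (q j)) + ∑ β ∈ range (k0 + 1), PowerSeries.X ^ β *
        ∑ k ∈ range (S + 1), loc K l (R β k) * hs K k (G l) := by
  intro l hl
  by_cases hlp : l < p
  · exact hrel l hlp
  · have h1 := X_pow_dvd_sg (hrel (2 * p - 1 - l) (by omega))
    have hl' : 2 * p - 1 - l ≤ 2 * p - 1 := by omega
    have h2 : 2 * p - 1 - (2 * p - 1 - l) = l := by omega
    have hC : ∀ i : ℕ, PowerSeries.C ((-1 : K) ^ i) = (-1) ^ i := by
      intro i; rw [map_pow, map_neg, map_one]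
    have hm1 : ∀ i : ℕ, ((-1 : PowerSeries K)) ^ i * (-1) ^ i = 1 := by
      intro i; rw [← mul_pow]; simp
    have hloc : ∀ f : K[X], PowerSeries.evalNegHom (loc K (2 * p - 1 - l) f) =
        loc K l (f.comp (C (-(2 * (p : K) - 1)) - X)) := by
      intro f
      rw [← DM.jet_neg, ← DM.jet_neg]
      have h4 := jet_refl (-(l : K)) (-(2 * (p : K) - 1)) f
      rw [h4]
      congr 2
      rw [cast_sub_sym hp hl]
      ring_nf
    rw [map_add, map_sum, map_sum] at h1
    refine h1.trans (dvd_of_eq ?_)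
    congr 1
    · refine Finset.sum_congr rfl fun j _ => ?_
      rw [map_mul, hψ, hloc, pw_refl, map_mul, loc_C, hC]
      linear_combination (ψ j * loc K l (pw p (σ j) (q j))) * hm1 (σ j)
    · refine Finset.sum_congr rfl fun β _ => ?_
      rw [map_mul, map_pow, sg_X, map_sum, neg_pow, Finset.mul_sum, Finset.mul_sum]
      refine Finset.sum_congr rfl fun k _ => ?_
      rw [map_mul, sg_hs, hsym _ hl', h2, hloc]
      have h3 : loc K l (R β k) = PowerSeries.C ((-1) ^ (β + k)) *
          loc K l ((R β k).comp (C (-(2 * (p : K) - 1)) - X)) := by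
        conv_lhs => rw [← hpar β k]
        rw [map_mul, loc_C]
      rw [h3, hC, hC, pow_add]
      ring

/-- the additional conditions at the node `0` -/
noncomputable def cn0 (k0 S : ℕ) (t0 : K) :
    (ℕ → ℕ → K[X]) →ₗ[K] (Fin (k0 + 1) → Fin (S + 1) → K) where
  toFun R := fun β r => (derivative (rf S (R β) r)).eval t0
  map_add' R R' := by
    funext β r
    simp only [Pi.add_apply]
    have := rf_add S (R β) (R' β) r
    rw [← eval_add, ← derivative_add, ← this]
    rfl
  map_smul' x R := by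
    funext β r
    simp only [Pi.smul_apply, RingHom.id_apply]
    have := rf_smul S (R β) r x
    rw [← eval_smul, ← derivative_smul, ← this]
    rfl

theorem ndx_eq [CharZero K] (p q μ : ℕ) (hq : 1 ≤ q) :
    ndx K p μ = nodx K p q (q - 1 + μ) := by
  unfold ndx nodx
  push_cast [hq]
  field_simp
  ring

theorem nodx_refl (p q i : ℕ) (h2 : (2 : K) ≠ 0) (hi : i + 1 ≤ 2 * q - 1) :
    -(2 * (p : K) - 1) - nodx K p q i = nodx K p q (2 * q - 2 - i) := by
  unfold nodx
  rw [Nat.cast_sub (by omega), Nat.cast_sub (by omega)]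
  push_cast
  field_simp
  ring

/-- combinations of rows as operators -/
noncomputable def thyl (k0 S P M p q : ℕ) :
    (Fin (k0 + 1) × Fin (S + 1) × Fin P → K) →ₗ[K] (ℕ → ℕ → K[X]) where
  toFun x := thy k0 S P M p q x
  map_add' := thy_add k0 S P M p q
  map_smul' := thy_smul k0 S P M p q

/-- the killers -/
theorem killx [CharZero K] (g S k0 a τ P M : ℕ) (hg : 1 ≤ g) {J' : Type*} [Fintype J']
    (H : J' → ℕ → ℕ → PowerSeries K)
    (hH : ∀ j β k, PowerSeries.evalNegHom (H j β k) = PowerSeries.C ((-1) ^ (β + k)) * H j β k)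
    (hP : (k0 + 1) * (S + 1) + 1 ≤ P)
    {m : ℕ} (ε : Fin m → ℕ) (w : Fin m → ℕ → ℕ → K) (hw : FamX (k0 + 1) S ε w)
    (hwN : τ + 1 + wkx (k0 + 1) S a g H w ≤ (g + 2) * m) :
    ∃ Kil : Submodule K (Fin m → Fin ((g + 2) * P) → K),
      P * τ ≤ Module.finrank K Kil ∧ ∀ v ∈ Kil,
      (∀ l ≤ 2 * (g * P) - 1, cnx (k0 + 1) S a H True (-(l : K))
        (opv (g * P) ((g + 2) * P) ε w v) = 0) ∧
      (∀ i < 2 * ((g + 1) * P) - 1, cnx (k0 + 1) S a H False
        (nodx K (g * P) ((g + 1) * P) i) (opv (g * P) ((g + 2) * P) ε w v) = 0) ∧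
      ∃ x : Fin (k0 + 1) × Fin (S + 1) × Fin P → K,
        thy k0 S P M (g * P) ((g + 1) * P) x = opv (g * P) ((g + 2) * P) ε w v := by
  classical
  obtain ⟨p, hp⟩ : ∃ p, p = g * P := ⟨_, rfl⟩
  obtain ⟨q0, hq0⟩ : ∃ q0, q0 = (g + 1) * P := ⟨_, rfl⟩
  obtain ⟨n, hn⟩ : ∃ n, n = (g + 2) * P := ⟨_, rfl⟩
  have hP0 : 0 < P := by omega
  have hp1 : 1 ≤ p := by rw [hp]; exact Nat.mul_pos hg hP0
  have hq1 : 1 ≤ q0 := by rw [hq0]; exact Nat.mul_pos (by omega) hP0
  have hn1 : 0 < n := by rw [hn]; exact Nat.mul_pos (by omega) hP0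
  rw [← hp, ← hq0, ← hn]
  set G := opv p n ε w with hG
  set T : (ℕ ⊕ ℕ) ⊕ Unit → (Fin m → Fin n → K) →ₗ[K]
      (Fin (k0 + 1) → Fin (S + 1) → K) × (J' → Fin a → K) := fun i =>
    Sum.elim (Sum.elim (fun l : ℕ => cnx (k0 + 1) S a H True (-(l : K)) ∘ₗ G)
      (fun μ : ℕ => cnx (k0 + 1) S a H False (ndx K p μ) ∘ₗ G))
      (fun _ => LinearMap.inl K _ _ ∘ₗ cn0 k0 S (ndx K p 0) ∘ₗ G) i with hT
  set I : Finset ((ℕ ⊕ ℕ) ⊕ Unit) := ((range p).disjSum (range q0)).disjSum {()} with hI
  set Kil : Submodule K (Fin m → Fin n → K) := ⨅ i ∈ I, LinearMap.ker (T i) with hKil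
  have hdim : P * τ ≤ Module.finrank K Kil := by
    have h1 := cnt_inf I T
    have h2 : Module.finrank K (Fin m → Fin n → K) = n * m := by
      rw [Module.finrank_pi_fintype]
      simp [mul_comm]
    have h3 : ∑ i ∈ I, Module.finrank K (LinearMap.range (T i)) ≤
        p * kapx (k0 + 1) S a H True w + q0 * kapx (k0 + 1) S a H False w +
          (k0 + 1) * (S + 1) := by
      rw [hI, Finset.sum_disjSum, Finset.sum_disjSum, Finset.sum_singleton]
      refine Nat.add_le_add (Nat.add_le_add ?_ ?_) ?_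
      · have : ∀ l ∈ range p, Module.finrank K (LinearMap.range (T (Sum.inl (Sum.inl l)))) ≤
            kapx (k0 + 1) S a H True w := by
          intro l _
          rw [← kapx_eq (k0 + 1) S a H True w (-(l : K))]
          apply Submodule.finrank_mono
          rintro _ ⟨v, rfl⟩
          exact ⟨_, rfl⟩
        refine (Finset.sum_le_sum this).trans ?_
        rw [Finset.sum_const, card_range, smul_eq_mul]
      · have : ∀ l ∈ range q0, Module.finrank K (LinearMap.range (T (Sum.inl (Sum.inr l)))) ≤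
            kapx (k0 + 1) S a H False w := by
          intro l _
          rw [← kapx_eq (k0 + 1) S a H False w (ndx K p l)]
          apply Submodule.finrank_mono
          rintro _ ⟨v, rfl⟩
          exact ⟨_, rfl⟩
        refine (Finset.sum_le_sum this).trans ?_
        rw [Finset.sum_const, card_range, smul_eq_mul]
      · have h4 : LinearMap.range (T (Sum.inr ())) ≤ LinearMap.range
            (LinearMap.inl K (Fin (k0 + 1) → Fin (S + 1) → K) (J' → Fin a → K)) := by
          rintro _ ⟨v, rfl⟩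
          exact ⟨_, rfl⟩
        refine (Submodule.finrank_mono h4).trans ((LinearMap.finrank_range_le _).trans ?_)
        simp only [Module.finrank_pi_fintype, Module.finrank_self,
          Finset.sum_const, Finset.card_univ, smul_eq_mul, Fintype.card_fin, mul_one]
        exact le_rfl
    rw [h2] at h1
    change n * m ≤ Module.finrank K Kil + _ at h1
    have h5 : P * (τ + 1 + wkx (k0 + 1) S a g H w) ≤ P * ((g + 2) * m) :=
      Nat.mul_le_mul_left _ hwN
    have h6 : P * ((g + 2) * m) = n * m := by rw [hn]; ring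
    have h7 : P * (τ + 1 + wkx (k0 + 1) S a g H w) = P * τ + P +
        (p * kapx (k0 + 1) S a H True w + q0 * kapx (k0 + 1) S a H False w) := by
      unfold wkx
      rw [hp, hq0]
      ring
    omega
  have hker : ∀ v ∈ Kil, ∀ i ∈ I, T i v = 0 := by
    intro v hv i hi
    rw [hKil] at hv
    have h1 := (Submodule.mem_iInf _).1 hv i
    exact (Submodule.mem_iInf _).1 h1 hi
  have hk1 : ∀ v ∈ Kil, ∀ l < p, cnx (k0 + 1) S a H True (-(l : K)) (G v) = 0 := by
    intro v hv l hl
    exact hker v hv (Sum.inl (Sum.inl l)) (by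
      rw [hI, Finset.inl_mem_disjSum, Finset.inl_mem_disjSum, mem_range]
      exact hl)
  have hk2 : ∀ v ∈ Kil, ∀ μ < q0, cnx (k0 + 1) S a H False (ndx K p μ) (G v) = 0 := by
    intro v hv μ hμ
    exact hker v hv (Sum.inl (Sum.inr μ)) (by
      rw [hI, Finset.inl_mem_disjSum, Finset.inr_mem_disjSum, mem_range]
      exact hμ)
  have hk3 : ∀ v ∈ Kil, cn0 k0 S (ndx K p 0) (G v) = 0 := by
    intro v hv
    have h1 := hker v hv (Sum.inr ()) (by
      rw [hI, Finset.inr_mem_disjSum]
      exact Finset.mem_singleton_self _)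
    exact congrArg Prod.fst h1
  have hparG : ∀ v, (fun β k => C ((-1) ^ (β + k)) *
      (G v β k).comp (C (-(2 * (p : K) - 1)) - X)) = G v := by
    intro v
    funext β k
    rw [hG, opv_apply]
    exact combx_parity (k0 + 1) S ε w hw p _ β k
  refine ⟨Kil, hdim, fun v hv => ⟨?_, ?_, ?_⟩⟩
  · intro l hl
    by_cases hlp : l < p
    · exact hk1 v hv l hlp
    · have h1 := hk1 v hv (2 * p - 1 - l) (by omega)
      have h2 : -((2 * p - 1 - l : ℕ) : K) = -(2 * (p : K) - 1) - -(l : K) := by
        rw [cast_sub_sym hp1 hl]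
        ring
      rw [h2] at h1
      have h3 := cnx_refl (k0 + 1) S a H hH True _ _ _ h1
      rw [hparG] at h3
      exact h3
  · intro i hi
    by_cases hiq : q0 - 1 ≤ i
    · have h1 := hk2 v hv (i - (q0 - 1)) (by omega)
      rw [ndx_eq p q0 _ hq1, show q0 - 1 + (i - (q0 - 1)) = i by omega] at h1
      exact h1
    · have h1 := hk2 v hv (q0 - 1 - i) (by omega)
      rw [ndx_eq p q0 _ hq1, show q0 - 1 + (q0 - 1 - i) = 2 * q0 - 2 - i by omega,
        ← nodx_refl p q0 i two_ne_zero (by omega)] at h1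
      have h3 := cnx_refl (k0 + 1) S a H hH False _ _ _ h1
      rw [hparG] at h3
      exact h3
  · obtain ⟨x, hx⟩ := thy_surj k0 S g P M p hP0 (G v) (by
        intro β k h0
        rw [hG, opv_apply] at h0
        exact combx_support hw _ β k h0) (by
        intro β k
        exact congrFun (congrFun (hparG v) β) k) (by
        intro β k
        rw [hG, opv_apply, ← hn]
        exact combx_natDegree (k0 + 1) S ε w hw p n hn1 _ (fun i => fromc_mem m n v i) β k) (by
        intro μ hμ β hβ r hr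
        rw [← hq0] at hμ
        have h3 := hk2 v hv μ hμ
        rw [cnx_node_iff _ _ _ _ _ (fun h => h)] at h3
        exact h3 β hβ r hr) (by
        intro β hβ r hr _
        have h3 := hk3 v hv
        exact congrFun (congrFun h3 ⟨β, hβ⟩) ⟨r, by omega⟩)
    refine ⟨x, ?_⟩
    funext β k
    rw [hq0]
    exact hx β k

theorem zp_low (T s : ℕ) (z : ℕ → K) (hz : ∀ i ≤ s, z i = 0) (m : ℕ) (hm : m < s) :
    PowerSeries.coeff m (zp K T z) = 0 := by
  unfold zp
  rw [map_sum]
  refine Finset.sum_eq_zero fun i hi => ?_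
  rw [PowerSeries.coeff_C_mul, PowerSeries.coeff_X_pow]
  by_cases h2 : i ≤ s
  · rw [hz i h2, mul_zero, zero_mul]
  · have h3 : 3 ≤ i := (Finset.mem_Icc.1 (Finset.mem_filter.1 hi).1).1
    rw [if_neg (by omega), mul_zero]

/-- **zero estimate** -/
theorem sid_zep (K : Type*) [Field K] [CharZero K] (g S k0 a T s τ : ℕ) (hg : 1 ≤ g)
    {J : Type} [Fintype J] (ψ : J → PowerSeries K) (σ : J → ℕ) (hσ : ∀ j, σ j ≤ 1)
    (hψ : ∀ j, PowerSeries.evalNegHom (ψ j) = PowerSeries.C ((-1 : K) ^ σ j) * ψ j) (z : ℕ → K)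
    {J' : Type} [Fintype J'] (c : ℕ → J' → K) (hc : ∀ i ≤ s, ∀ j, c i j = 0)
    (hi : (g + 2) * (k0 + 2 + Fintype.card J) + τ + 1 ≤ g * (a - k0))
    (h1 : g * (Fintype.card J' * (a + S - s)) + τ + 1 ≤ (k0 + 1) * (S + 1)) :
    ∃ P0 : ℕ, ∀ P ≥ P0, ∀ M : ℕ,
      ∃ SS : Submodule K (Fin (k0 + 1) × Fin (S + 1) × Fin P → K),
        P * τ ≤ Module.finrank K SS ∧ ∀ x ∈ SS,
        (∀ j : J', ∀ l < g * P, ∀ m < a, ∑ y, x y * PowerSeries.coeff m
          (PowerSeries.X ^ (y.1 : ℕ) * hs K (y.2.1 : ℕ)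
            (hl K (g * P) l ^ (((y.1 : ℕ) + (y.2.1 : ℕ)) % 2) *
            ev K (g * P) l (Am K M ((g + 1) * P) * Cn K M (y.2.2 : ℕ)) *
              zp K T (fun i => c i j))) = 0) ∧
        (∀ e : J × Fin ((g + 2) * P) → K, (∀ l < g * P, ∀ m < a,
          ∑ y, x y * PowerSeries.coeff m
            (fRow K M (g * P) ((g + 1) * P) T z l (y.1 : ℕ) (y.2.1 : ℕ) (y.2.2 : ℕ)) +
          ∑ i, e i * PowerSeries.coeff m (cRow K M (g * P) ψ σ l i.1 (i.2 : ℕ)) = 0) →
          x = 0) := by
  classical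
  refine ⟨cRx k0 S a (Fintype.card J) (Fintype.card J') + (k0 + 1) * (S + 1) + 1,
    fun P hP M => ?_⟩
  have hPc : cRx k0 S a (Fintype.card J) (Fintype.card J') ≤ P := by omega
  have hPk : (k0 + 1) * (S + 1) + 1 ≤ P := by omega
  have hP0 : 0 < P := by omega
  have hp1 : 1 ≤ g * P := Nat.mul_pos hg hP0
  set H : J' → ℕ → ℕ → PowerSeries K := fun j β k =>
    PowerSeries.X ^ β * hs K k (zp K T (fun i => c i j)) with hHdef
  have hH : ∀ j β k, PowerSeries.evalNegHom (H j β k) =
      PowerSeries.C ((-1) ^ (β + k)) * H j β k := by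
    intro j β k
    simp only [hHdef]
    rw [map_mul, map_pow, sg_X, sg_hs, ZES_sg_zp, neg_pow, pow_add, map_mul, map_pow, map_pow,
      map_neg, map_one]
    ring
  have hHlow : ∀ j, ∀ β k, k ≤ S → ∀ m, m + (a + S - s) < a →
      PowerSeries.coeff m (H j β k) = 0 := by
    intro j β k hk m hm
    simp only [hHdef]
    rw [PowerSeries.coeff_X_pow_mul']
    split_ifs with h
    · rw [coeff_hs, zp_low T s _ (fun i hi => hc i hi j) _ (by omega), mul_zero]
    · rfl
  -- the minimal family
  obtain ⟨m, ε, w, hw, hwN, hmin⟩ := min_famx (k0 + 1) S a g (g + 2) (τ + 1) (by omega) H (by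
    obtain ⟨ε, w, hw⟩ := full_famx (K := K) (k0 + 1) S
    refine ⟨_, ε, w, hw, ?_⟩
    have e1 := kapx_node_le (k0 + 1) S a H False (fun h => h) w
    have e2 := kapx_pole_le (k0 + 1) S a (a + S - s) H hHlow True trivial w
    unfold wkx
    have e3 := Nat.mul_le_mul_left (g + 1) e1
    have e4 := Nat.mul_le_mul_left g e2
    have e5 : (g + 2) * ((k0 + 1) * (S + 1)) =
        (g + 1) * ((k0 + 1) * (S + 1)) + (k0 + 1) * (S + 1) := by ring
    omega)
  obtain ⟨Kil, hKil, hkill⟩ := killx (K := K) g S k0 a τ P M hg H hH hPk ε w hw hwN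
  set G := opv (g * P) ((g + 2) * P) ε w with hG
  have hGinj : Function.Injective G := by
    rw [injective_iff_map_eq_zero]
    intro v hv
    rw [hG, opv_apply] at hv
    have h1 := combx_inj (k0 + 1) S ε w hw (g * P) _ hv
    exact fromc_inj m ((g + 2) * P) v h1
  have hrange : Kil.map G ≤ LinearMap.range (thyl (K := K) k0 S P M (g * P) ((g + 1) * P)) := by
    rintro _ ⟨v, hv, rfl⟩
    obtain ⟨x, hx⟩ := (hkill v hv).2.2
    exact ⟨x, hx⟩
  refine ⟨(Kil.map G).comap (thyl k0 S P M (g * P) ((g + 1) * P)), ?_, ?_⟩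
  · have h1 := Submodule.map_comap_eq_self hrange
    have h2 : Module.finrank K (Kil.map G) = Module.finrank K Kil :=
      (LinearEquiv.finrank_eq (Submodule.equivMapOfInjective G hGinj Kil)).symm
    have h3 := Submodule.finrank_map_le (thyl (K := K) k0 S P M (g * P) ((g + 1) * P))
      ((Kil.map G).comap (thyl k0 S P M (g * P) ((g + 1) * P)))
    rw [h1, h2] at h3
    omega
  · intro x hx
    obtain ⟨v, hv, hvx⟩ := hx
    have hvx' : G v = thy k0 S P M (g * P) ((g + 1) * P) x := hvx
    obtain ⟨hvK, hvA, _⟩ := hkill v hv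
    have hrow : ∀ (l m' : ℕ) (g' : PowerSeries K),
        ∑ y : Fin (k0 + 1) × Fin (S + 1) × Fin P, x y * PowerSeries.coeff m'
          (PowerSeries.X ^ (y.1 : ℕ) * hs K (y.2.1 : ℕ)
            (hl K (g * P) l ^ (((y.1 : ℕ) + (y.2.1 : ℕ)) % 2) *
            ev K (g * P) l (Am K M ((g + 1) * P) * Cn K M (y.2.2 : ℕ)) * g')) =
          PowerSeries.coeff m' (∑ β ∈ range (k0 + 1), PowerSeries.X ^ β *
            ∑ k ∈ range (S + 1), loc K l (G v β k) * hs K k g') := by
      intro l m' g'
      rw [hvx', ← thy_row k0 S P M (g * P) ((g + 1) * P) x l g', map_sum]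
      refine Finset.sum_congr rfl fun y _ => ?_
      rw [PowerSeries.coeff_C_mul]
    constructor
    · intro j l hl m' hm'
      rw [hrow]
      have h2 := hvK l (by omega)
      rw [cnx_pole_iff _ _ _ _ _ trivial] at h2
      have h3 := h2 j m' hm'
      unfold opx at h3
      rw [DM.jet_neg] at h3
      rw [← h3]
      congr 1
      refine Finset.sum_congr rfl fun β _ => ?_
      rw [Finset.mul_sum]
      refine Finset.sum_congr rfl fun k _ => ?_
      simp only [hHdef]
      ring
    · intro e he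
      set q : J → K[X] := fun j => ∑ i : Fin ((g + 2) * P), C (e (j, i)) * Cn K M (i : ℕ) with hq
      have hqloc : ∀ l j, ψ j * loc K l (pw (g * P) (σ j) (q j)) =
          ∑ i : Fin ((g + 2) * P), PowerSeries.C (e (j, i)) *
            cRow K M (g * P) ψ σ l j (i : ℕ) := by
        intro l j
        unfold pw
        rw [map_mul, map_pow, loc_wpol, ← ev_eq_loc, hq]
        unfold ev
        simp only [map_sum, map_mul, aeval_C, Finset.mul_sum]
        refine Finset.sum_congr rfl fun i _ => ?_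
        unfold cRow
        rw [ZES_wl]
        unfold ev
        have : (algebraMap K (PowerSeries K)) (e (j, i)) = PowerSeries.C (e (j, i)) := rfl
        rw [this]
        ring
      have hrel0 : ∀ l < g * P, (PowerSeries.X : PowerSeries K) ^ a ∣
          ∑ j, ψ j * loc K l (pw (g * P) (σ j) (q j)) +
          ∑ β ∈ range (k0 + 1), PowerSeries.X ^ β *
            ∑ k ∈ range (S + 1), loc K l (G v β k) * hs K k (Gh K (g * P) l T z) := by
        intro l hl
        rw [PowerSeries.X_pow_dvd_iff]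
        intro m' hm'
        have h1 := he l hl m' hm'
        have h2 := hrow l m' (Gh K (g * P) l T z)
        unfold fRow at h1
        rw [h2] at h1
        rw [map_add, add_comm, ← h1]
        congr 1
        rw [Fintype.sum_prod_type, map_sum]
        refine Finset.sum_congr rfl fun j _ => ?_
        rw [hqloc, map_sum]
        refine Finset.sum_congr rfl fun i _ => ?_
        rw [PowerSeries.coeff_C_mul]
      have hrel := relx_all k0 S a (g * P) hp1 ψ σ hψ q (G v) (by
          intro β k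
          rw [hG, opv_apply]
          exact combx_parity (k0 + 1) S ε w hw (g * P) _ β k)
        (fun l => Gh K (g * P) l T z) (by
          intro l hl
          simp only [Gh, map_sub]
          rw [ZES_sg_zp, ZES_sg_gh _ _ hl]) hrel0
      by_contra hx0
      have hf : fromc m ((g + 2) * P) v ≠ 0 := by
        intro h0
        apply hx0
        apply thy_inj k0 S P M (g * P) ((g + 1) * P) x
        intro β _ k _
        rw [← hvx', hG, opv_apply, h0]
        show ∑ i, pw (g * P) (ε i) ((0 : Fin m → K[X]) i) * C (w i β k) = 0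
        refine Finset.sum_eq_zero fun i _ => ?_
        rw [Pi.zero_apply, pw, zero_comp, mul_zero, zero_mul]
      have hqd : ∀ j, (pw (g * P) (σ j) (q j)).natDegree ≤ 2 * ((g + 2) * P) := by
        intro j
        refine (pw_natDegree_le (n := (g + 2) * P) (hσ j) ?_).trans (by omega)
        simp only [hq]
        refine Submodule.sum_mem _ fun i _ => ?_
        rw [← smul_eq_C_mul]
        refine Submodule.smul_mem _ _ ?_
        rw [mem_degreeLT, Cn_degree]
        exact_mod_cast i.2
      obtain ⟨ζ, ε', w', hζ, hw', hest⟩ := relx_est k0 S a g P hg hPc H ψ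
        (fun j => pw (g * P) (σ j) (q j)) hqd (fun l => Gh K (g * P) l T z) (by
          intro l hl
          simp only [Gh]
          rw [sub_sub_sub_cancel_left, ZES_gh_shift (g * P) l hl, Nat.cast_sub (by omega)]
          push_cast
          rfl) ε w hw (fromc m ((g + 2) * P) v)
        (fun i => fromc_mem m ((g + 2) * P) v i) hf hvK hvA hrel
      have h1 := hmin ζ ε' w' hζ hw'
      have h2 : (g + 2) * (k0 + 1 + ζ + Fintype.card J) + (g + 2) =
          (g + 2) * (k0 + 2 + Fintype.card J) + (g + 2) * ζ := by ring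
      omega

end Pool.Agent.SID
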