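import Pool.Agent.SID.Defs
import Pool.Agent.SID.ZEX

/-!
# SID: the zero estimate
-/

namespace Pool.Agent.SID

open Finset Pool.Agent.ZC Pool.Agent.SI

theorem sid_ze (K : Type*) [Field K] [CharZero K] (g S k0 a T s τ : ℕ) (hg : 1 ≤ g)
    {J : Type} [Fintype J] (ψ : J → PowerSeries K) (σ : J → ℕ) (hσ : ∀ j, σ j ≤ 1)
    (hψ : ∀ j, PowerSeries.evalNegHom (ψ j) = PowerSeries.C ((-1 : K) ^ σ j) * ψ j) (z : ℕ → K)
    {J' : Type} [Fintype J'] (c : ℕ → J' → K) (hc : ∀ i ≤ s, ∀ j, c i j = 0)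
    (hi : (g + 2) * (k0 + 2 + Fintype.card J) + τ + 1 ≤ g * (a - k0))
    (h1 : g * (Fintype.card J' * (a + S - s)) + τ + 1 ≤ (k0 + 1) * (S + 1)) :
    ∃ P0 : ℕ, ∀ P ≥ P0, ∀ M : ℕ, 0 < M →
      ∃ SS : Submodule K (Fin (k0 + 1) × Fin (S + 1) × Fin P → K),
        P * τ ≤ Module.finrank K SS ∧ ∀ x ∈ SS,
        (∀ j : J', ∀ l < g * P, ∀ m < a, ∑ y, x y * PowerSeries.coeff m
          (eRow K M (g * P) ((g + 1) * P) T (fun i => c i j) l y.1 y.2.1 y.2.2) = 0) ∧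
        (∀ e : J × Fin ((g + 2) * P) → K, (∀ l < g * P, ∀ m < a,
          ∑ y, x y * PowerSeries.coeff m (fRow K M (g * P) ((g + 1) * P) T z l y.1 y.2.1 y.2.2) +
          ∑ i, e i * PowerSeries.coeff m (cRow K M (g * P) ψ σ l i.1 i.2) = 0) → x = 0) := by
  obtain ⟨P0, hP0⟩ := sid_zep K g S k0 a T s τ hg ψ σ hσ hψ z c hc hi h1
  exact ⟨P0, fun P hP M _ => hP0 P hP M⟩

end Pool.Agent.SID
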